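import Pool.Agent.TH199.LT.Fam

set_option autoImplicit false
set_option linter.unusedSectionVars false
set_option linter.deprecated false

open MeasureTheory Set Filter Topology Real
open scoped RealInnerProductSpace ENNReal
open Pool.Helper490.Calib

namespace Pool.Agent.TH199.LT

/-- The optimiser with scale `κ` and centre `x₀`, of norm one. -/
noncomputable def sol (κ x₀ x : ℝ) : ℝ := √(κ / (π * cosh (κ * (x - x₀))))

lemma sol_sq {κ : ℝ} (hκ : 0 < κ) (x₀ x : ℝ) :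
    sol κ x₀ x ^ 2 = κ / π * (cosh (κ * (x - x₀)))⁻¹ := by
  have hpi := pi_pos
  have hc := cosh_pos (κ * (x - x₀))
  rw [sol, Real.sq_sqrt (by positivity)]
  field_simp

lemma integral_comp_affine (f : ℝ → ℝ) {κ : ℝ} (hκ : 0 < κ) (x₀ : ℝ) :
    ∫ x, f (κ * (x - x₀)) = κ⁻¹ * ∫ x, f x := by
  rw [integral_sub_right_eq_self (μ := volume) (fun x => f (κ * x)) x₀,
    Measure.integral_comp_mul_left f κ, abs_of_pos (inv_pos.2 hκ), smul_eq_mul]

lemma integral_sol_sq {κ : ℝ} (hκ : 0 < κ) (x₀ : ℝ) : ∫ x, sol κ x₀ x ^ 2 = 1 := by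
  have hpi := pi_pos
  simp only [sol_sq hκ]
  rw [integral_const_mul, integral_comp_affine (fun y => (cosh y)⁻¹) hκ x₀,
    Pool.Helper490.Sech.integral_sech]
  field_simp

/-- Structure of the systems with equality. -/
theorem family_form {N : ℕ} (ν : Fin N → ℝ) (hν : ∀ n, ν n ≤ 1) (u g : Fin N → ℝ → ℂ)
    (hu2 : ∀ n, MemLp (u n) 2) (hg2 : ∀ n, MemLp (g n) 2)
    (hug : ∀ n a b, u n b - u n a = ∫ x in a..b, g n x)
    (ho : ∀ n m, ∫ x, star (u n x) * u m x = if n = m then (ν n : ℂ) else 0)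
    (heq : ∑ n, ∫ x, ‖g n x‖ ^ 2 = π ^ 2 / 4 * ∫ x, (∑ n, ‖u n x‖ ^ 2) ^ 3) :
    (∀ n x, u n x = 0) ∨ ∃ n₀ : Fin N, ν n₀ = 1 ∧ (∀ n, n ≠ n₀ → ∀ x, u n x = 0) ∧
      ∃ κ x₀ : ℝ, 0 < κ ∧ ∃ z : ℂ, ‖z‖ = 1 ∧ ∀ x, u n₀ x = z * (sol κ x₀ x : ℂ) := by
  have hpi := pi_pos
  have h := sys_of_family ν hν u g hu2 hg2 hug ho
  set U : ℝ → EuclideanSpace ℝ (Fin N ⊕ Fin N) := fun x => realify fun n => u n x with hU
  set G : ℝ → EuclideanSpace ℝ (Fin N ⊕ Fin N) := fun x => realify fun n => g n x with hG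
  have hgi : ∀ n, Integrable (fun x => ‖g n x‖ ^ 2) := fun n =>
    (hg2 n).integrable_norm_pow (by norm_num)
  have heq' : ∫ x, ‖G x‖ ^ 2 = π ^ 2 / 4 * ∫ x, (‖U x‖ ^ 2) ^ 3 := by
    simp only [hU, hG, realify_norm]
    rw [integral_finsetSum _ fun n _ => hgi n]
    exact heq
  by_cases hz : ∀ x, U x = 0
  · left
    intro n x
    have h1 : ∑ n, ‖u n x‖ ^ 2 = 0 := by
      rw [← realify_norm (fun n => u n x)]
      have : ‖U x‖ ^ 2 = 0 := by rw [hz x]; simp
      exact this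
    have h2 := (Finset.sum_eq_zero_iff_of_nonneg fun n _ => sq_nonneg _).1 h1 n (Finset.mem_univ n)
    exact norm_eq_zero.1 (pow_eq_zero_iff (two_ne_zero) |>.1 h2)
  right
  push_neg at hz
  obtain ⟨x₁, hx1⟩ := hz
  obtain ⟨c, τ, hc, hform⟩ := h.global_form heq' x₁ hx1
  set e : EuclideanSpace ℝ (Fin N ⊕ Fin N) := ‖U x₁‖⁻¹ • U x₁ with he
  have hen : ‖e‖ = 1 := by
    have := norm_pos_iff.2 hx1
    rw [he, norm_smul, norm_inv, norm_norm, inv_mul_cancel₀ this.ne']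
  set κ : ℝ := π * c with hκ
  have hκ0 : 0 < κ := by positivity
  set x₀ : ℝ := x₁ - τ / κ with hx0
  have hsol : ∀ y, ‖U y‖ = sol κ x₀ y := by
    intro y
    have h1 := (hform y).1
    have h2 : κ * (y - x₀) = κ * (y - x₁) + τ := by
      rw [hx0]; field_simp; ring
    have h3 : ‖U y‖ ^ 2 = sol κ x₀ y ^ 2 := by
      rw [sol_sq hκ0, h2, h1, hκ]
      field_simp
    exact (pow_left_inj₀ (norm_nonneg _) (Real.sqrt_nonneg _) two_ne_zero).1 h3
  set ec : Fin N → ℂ := fun n => ⟨e (Sum.inl n), e (Sum.inr n)⟩ with hec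
  have hue : ∀ n y, u n y = ec n * (sol κ x₀ y : ℂ) := by
    intro n y
    have h1 := (hform y).2
    rw [hsol y] at h1
    have h2 : (u n y).re = sol κ x₀ y * e (Sum.inl n) := by
      have := congrArg (fun w : EuclideanSpace ℝ (Fin N ⊕ Fin N) => w (Sum.inl n)) h1
      simpa [hU, realify] using this
    have h3 : (u n y).im = sol κ x₀ y * e (Sum.inr n) := by
      have := congrArg (fun w : EuclideanSpace ℝ (Fin N ⊕ Fin N) => w (Sum.inr n)) h1
      simpa [hU, realify] using this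
    apply Complex.ext
    · rw [h2]; simp [hec]; ring
    · rw [h3]; simp [hec]; ring
  have hon : ∀ n m, star (ec n) * ec m = if n = m then (ν n : ℂ) else 0 := by
    intro n m
    rw [← ho n m]
    have h1 : ∀ x, star (u n x) * u m x = (star (ec n) * ec m) * ((sol κ x₀ x ^ 2 : ℝ) : ℂ) := by
      intro x
      rw [hue n x, hue m x, star_mul']
      have : star ((sol κ x₀ x : ℝ) : ℂ) = ((sol κ x₀ x : ℝ) : ℂ) := Complex.conj_ofReal _
      rw [this]
      push_cast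
      ring
    simp only [h1]
    rw [integral_const_mul, integral_complex_ofReal, integral_sol_sq hκ0]
    simp
  have hsum : ∑ n, ‖ec n‖ ^ 2 = 1 := by
    have h1 : ‖e‖ ^ 2 = ∑ n, ‖ec n‖ ^ 2 := by
      rw [EuclideanSpace.norm_sq_eq, Fintype.sum_sum_type, ← Finset.sum_add_distrib]
      refine Finset.sum_congr rfl fun n _ => ?_
      rw [sqn]
      simp [hec]
    rw [← h1, hen]; norm_num
  obtain ⟨n₀, hn0⟩ : ∃ n, ec n ≠ 0 := by
    by_contra hcon
    push_neg at hcon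
    simp only [hcon, norm_zero] at hsum
    norm_num at hsum
  have hother : ∀ m, m ≠ n₀ → ec m = 0 := by
    intro m hm
    have h1 := hon n₀ m
    rw [if_neg (Ne.symm hm)] at h1
    rcases mul_eq_zero.1 h1 with h2 | h2
    · exact absurd (star_eq_zero.1 h2) hn0
    · exact h2
  have hnorm : ‖ec n₀‖ ^ 2 = 1 := by
    rw [← hsum, Finset.sum_eq_single n₀]
    · intro m _ hm
      rw [hother m hm]; simp
    · intro h1; exact absurd (Finset.mem_univ _) h1
  refine ⟨n₀, ?_, ?_, κ, x₀, hκ0, ec n₀, ?_, fun x => hue n₀ x⟩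
  · have h1 := hon n₀ n₀
    rw [if_pos rfl] at h1
    have h2 : star (ec n₀) * ec n₀ = ((‖ec n₀‖ ^ 2 : ℝ) : ℂ) := by
      rw [mul_comm, ← Complex.normSq_eq_norm_sq]
      exact Complex.mul_conj _
    rw [h2, hnorm] at h1
    exact_mod_cast h1.symm
  · intro n hn x
    rw [hue n x, hother n hn, zero_mul]
  · exact (pow_eq_one_iff_of_nonneg (norm_nonneg _) two_ne_zero).1 hnorm

end Pool.Agent.TH199.LT
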