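import Pool.Agent.TH199.LT.Sc9

set_option autoImplicit false
set_option linter.unusedSectionVars false
set_option linter.deprecated false

open MeasureTheory Set Filter Topology Real

namespace Pool.Agent.TH199.LT.Two

open Pool.Helper490 Pool.Agent.TH199.LT.Tst

variable {L : ℝ}

lemma kin_le (hS : ov L ≤ 1 / 2) : ∑ n, ∫ x, v' L n x ^ 2 ≤ 1 / 4 + 5 / 4 * ov L ^ 2 := by
  rw [kin hS]
  have h0 := ov_nonneg L
  have h1 : 0 < 1 - ov L ^ 2 := by nlinarith
  have h2 := (abs_le.1 (tm_abs L)).1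
  rw [div_le_iff₀ h1]
  have h3 : -(2 * ov L * tm L) ≤ 2 * ov L * (1 / 4 * ov L) := by nlinarith
  have h4 : ov L ^ 2 ≤ 1 / 4 := by nlinarith
  nlinarith [sq_nonneg (ov L)]

lemma cube_ge (hS : ov L ≤ 1 / 2) (hi : Integrable fun x => (∑ n, v L n x ^ 2) ^ 3) :
    1 / π ^ 2 - 24 / π ^ 2 * ov L ^ 2 ≤ ∫ x, (∑ n, v L n x ^ 2) ^ 3 := by
  have hpi := pi_pos
  have h0 := ov_nonneg L
  have h1 : 0 < 1 - ov L ^ 2 := by nlinarith
  have h1' : 1 - ov L ^ 2 ≤ 1 := by nlinarith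
  have hpt : ∀ x, (s (x - L) ^ 2) ^ 3 + ((s (x + L) ^ 2) ^ 3 +
      -(24 / π ^ 2 * ov L) * (s (x - L) * s (x + L))) ≤ (∑ n, v L n x ^ 2) ^ 3 := by
    intro x
    rw [v_den hS]
    set a := s (x - L) with ha
    set b := s (x + L) with hb
    have ha0 : 0 < a := s_pos _
    have hb0 : 0 < b := s_pos _
    have ha2 : a ^ 2 ≤ 1 / π := s_sq_le _
    have hb2 : b ^ 2 ≤ 1 / π := s_sq_le _
    set S := ov L with hSd
    set P := a ^ 2 + b ^ 2 with hP
    set Q := 2 * S * (a * b) with hQ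
    have hP0 : 0 < P := by positivity
    have hQ0 : 0 ≤ Q := by positivity
    have hab : 2 * (a * b) ≤ P := by nlinarith [sq_nonneg (a - b)]
    have hQP : Q ≤ P := by nlinarith [mul_nonneg h0 (mul_pos ha0 hb0).le]
    have hPp : P ≤ 2 / π := by
      have : 2 / π = 1 / π + 1 / π := by ring
      rw [this]; linarith
    have hP2 : P ^ 2 ≤ 4 / π ^ 2 := by
      have := pow_le_pow_left₀ hP0.le hPp 2
      rw [div_pow] at this
      norm_num at this
      exact this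
    have e1 : P - Q ≤ (P - Q) / (1 - S ^ 2) := by
      rw [le_div_iff₀ h1]
      nlinarith
    have e2 : (P - Q) ^ 3 ≤ ((P - Q) / (1 - S ^ 2)) ^ 3 :=
      pow_le_pow_left₀ (by linarith) e1 3
    have e3 : P ^ 3 - 3 * P ^ 2 * Q ≤ (P - Q) ^ 3 := by
      have : (P - Q) ^ 3 = P ^ 3 - 3 * P ^ 2 * Q + Q ^ 2 * (3 * P - Q) := by ring
      rw [this]
      have := mul_nonneg (sq_nonneg Q) (by linarith : 0 ≤ 3 * P - Q)
      linarith
    have e4 : (a ^ 2) ^ 3 + (b ^ 2) ^ 3 ≤ P ^ 3 := by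
      have : P ^ 3 = (a ^ 2) ^ 3 + (b ^ 2) ^ 3 + 3 * a ^ 2 * b ^ 2 * P := by rw [hP]; ring
      rw [this]
      have : 0 ≤ 3 * a ^ 2 * b ^ 2 * P := by positivity
      linarith
    have e5 : 3 * P ^ 2 * Q ≤ 24 / π ^ 2 * S * (a * b) := by
      have : 3 * P ^ 2 * Q ≤ 3 * (4 / π ^ 2) * Q :=
        mul_le_mul_of_nonneg_right (by linarith) hQ0
      refine this.trans (le_of_eq ?_)
      rw [hQ]
      ring
    linarith
  have i1 : Integrable fun x => (s (x - L) ^ 2) ^ 3 := s6_int.comp_sub_right L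
  have i2 : Integrable fun x => (s (x + L) ^ 2) ^ 3 := s6_int.comp_add_right L
  have i3 : Integrable fun x => -(24 / π ^ 2 * ov L) * (s (x - L) * s (x + L)) :=
    (ab_int L).const_mul _
  have i23 : Integrable fun x => (s (x + L) ^ 2) ^ 3 +
    -(24 / π ^ 2 * ov L) * (s (x - L) * s (x + L)) := i2.add i3
  have h := integral_mono (i1.add i23) hi hpt
  simp only [Pi.add_apply] at h
  rw [integral_add i1 i23, integral_add i2 i3, integral_const_mul, a6_integral, b6_integral,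
    ← ov] at h
  refine le_trans (le_of_eq ?_) h
  field_simp
  ring

/-- The constant. -/
noncomputable def k0 (L : ℝ) : ℝ := exp (-(L + 1)) / (8 * π)

lemma tanh_half {y : ℝ} (hy : 1 ≤ y) : 1 / 2 ≤ sinh y * (cosh y)⁻¹ := by
  rw [← div_eq_mul_inv, le_div_iff₀ (cosh_pos y), sinh_eq, cosh_eq]
  have h1 : exp (-y) ≤ exp (-1) := exp_le_exp.2 (by linarith)
  have h2 : exp 1 ≤ exp y := exp_le_exp.2 hy
  have h3 : (2:ℝ) ≤ exp 1 := by have := add_one_le_exp (1:ℝ); linarith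
  have h4 : exp (-1) * exp 1 = 1 := by rw [← exp_add]; simp
  have h5 : exp (-1) ≤ 1 / 2 := by
    have := exp_pos (-1:ℝ)
    nlinarith
  linarith

lemma wr_ge (hL : 2 ≤ L) {x : ℝ} (hx : x ∈ Icc (-1:ℝ) 1) :
    k0 L * (s (x - L) ^ 2 + s (x + L) ^ 2) ≤
      (s (x + L) * s' (x - L) - s (x - L) * s' (x + L)) ^ 2 := by
  have hpi := pi_pos
  obtain ⟨hx1, hx2⟩ := hx
  have t1 : 1 / 2 ≤ sinh (x + L) * (cosh (x + L))⁻¹ := tanh_half (by linarith)
  have t2 : 1 / 2 ≤ -(sinh (x - L) * (cosh (x - L))⁻¹) := by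
    have := tanh_half (y := -(x - L)) (by linarith)
    rw [sinh_neg, cosh_neg] at this
    linarith
  have ha0 : 0 < s (x - L) := s_pos _
  have hb0 : 0 < s (x + L) := s_pos _
  have ha2 : exp (-(L + 1)) / π ≤ s (x - L) ^ 2 := by
    refine le_trans (div_le_div_of_nonneg_right (exp_le_exp.2 ?_) hpi.le) (s_sq_ge (x - L))
    rw [abs_of_nonpos (by linarith)]
    linarith
  have hb2 : exp (-(L + 1)) / π ≤ s (x + L) ^ 2 := by
    refine le_trans (div_le_div_of_nonneg_right (exp_le_exp.2 ?_) hpi.le) (s_sq_ge (x + L))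
    rw [abs_of_nonneg (by linarith)]
    linarith
  rw [s'_eq, s'_eq (x + L)]
  set a := s (x - L)
  set b := s (x + L)
  set p := sinh (x + L) * (cosh (x + L))⁻¹
  set q := sinh (x - L) * (cosh (x - L))⁻¹
  have e : b * (-(1 / 2) * q * a) - a * (-(1 / 2) * p * b) = 1 / 2 * (a * b) * (p - q) := by ring
  rw [e]
  have hk : k0 L = exp (-(L + 1)) / π / 8 := by rw [k0]; field_simp
  set c := exp (-(L + 1)) / π with hc
  have hc0 : 0 < c := by positivity
  rw [hk]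
  have h1 : 1 ≤ p - q := by linarith
  have h2 : (1 / 2 * (a * b)) ^ 2 * 1 ^ 2 ≤ (1 / 2 * (a * b)) ^ 2 * (p - q) ^ 2 :=
    mul_le_mul_of_nonneg_left (pow_le_pow_left₀ zero_le_one h1 2) (sq_nonneg _)
  rw [mul_pow (1 / 2 * (a * b)) (p - q)]
  refine le_trans ?_ h2
  have h3 : c * b ^ 2 ≤ a ^ 2 * b ^ 2 := mul_le_mul_of_nonneg_right ha2 (sq_nonneg _)
  have h4 : a ^ 2 * c ≤ a ^ 2 * b ^ 2 := mul_le_mul_of_nonneg_left hb2 (sq_nonneg _)
  nlinarith

lemma grad_pt (hS : ov L ≤ 1 / 2) (hL : 2 ≤ L) (x : ℝ) :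
    (deriv (fun x => √(∑ n, v L n x ^ 2)) x) ^ 2 ≤
      (∑ n, v' L n x ^ 2) - (Icc (-1:ℝ) 1).indicator (fun _ => k0 L) x := by
  have h0 := ov_nonneg L
  have h1 : 0 < 1 - ov L ^ 2 := by nlinarith
  have hR : 0 < ∑ n, v L n x ^ 2 := by
    rw [v_den hS]
    refine div_pos ?_ h1
    have ha0 : 0 < s (x - L) := s_pos _
    have hb0 : 0 < s (x + L) := s_pos _
    have : 0 < s (x - L) * s (x + L) := mul_pos ha0 hb0
    nlinarith [sq_nonneg (s (x - L) - s (x + L))]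
  have hd : HasDerivAt (fun x => ∑ n, v L n x ^ 2) (2 * (v L 0 x * v' L 0 x + v L 1 x * v' L 1 x)) x := by
    have e : (fun x => ∑ n, v L n x ^ 2) = fun x => v L 0 x ^ 2 + v L 1 x ^ 2 := by
      funext x; exact Fin.sum_univ_two _
    rw [e]
    refine (((v_deriv L 0 x).pow 2).add ((v_deriv L 1 x).pow 2)).congr_deriv ?_
    simp
    ring
  have hd2 := (hd.sqrt hR.ne').deriv
  rw [hd2]
  have hsq : √(∑ n, v L n x ^ 2) ^ 2 = ∑ n, v L n x ^ 2 := Real.sq_sqrt hR.le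
  rw [div_pow, mul_pow, mul_pow, hsq]
  have hR2 : ∑ n, v L n x ^ 2 = v L 0 x ^ 2 + v L 1 x ^ 2 := Fin.sum_univ_two _
  have hT2 : ∑ n, v' L n x ^ 2 = v' L 0 x ^ 2 + v' L 1 x ^ 2 := Fin.sum_univ_two _
  rw [div_le_iff₀ (by positivity)]
  have hwr := v_wr hS x
  have hk : (Icc (-1:ℝ) 1).indicator (fun _ => k0 L) x * (∑ n, v L n x ^ 2) ≤
      (v L 0 x * v' L 1 x - v L 1 x * v' L 0 x) ^ 2 := by
    by_cases hx : x ∈ Icc (-1:ℝ) 1
    · rw [indicator_of_mem hx, hwr, v_den hS, mul_div_assoc']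
      refine div_le_div_of_nonneg_right ?_ h1.le
      refine le_trans ?_ (wr_ge hL hx)
      have hk0 : 0 ≤ k0 L := by rw [k0]; positivity
      refine mul_le_mul_of_nonneg_left ?_ hk0
      have : 0 < s (x - L) * s (x + L) := mul_pos (s_pos _) (s_pos _)
      have := mul_nonneg h0 this.le
      linarith
    · rw [indicator_of_notMem hx, zero_mul]
      exact sq_nonneg _
  rw [hR2] at hk ⊢
  rw [hT2]
  nlinarith

lemma grad_le (hS : ov L ≤ 1 / 2) (hL : 2 ≤ L) :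
    ∫ x, (deriv (fun x => √(∑ n, v L n x ^ 2)) x) ^ 2 ≤
      (∑ n, ∫ x, v' L n x ^ 2) - 2 * k0 L := by
  have hi : ∀ n, Integrable fun x => v' L n x ^ 2 := fun n =>
    (memLp_two_iff_integrable_sq (v'_cont L n).aestronglyMeasurable).1 (v'_memLp L n)
  have hi2 : Integrable ((Icc (-1:ℝ) 1).indicator (fun _ => k0 L)) :=
    (integrable_indicator_iff measurableSet_Icc).2 continuous_const.integrableOn_Icc
  rw [← integral_finsetSum _ fun n _ => hi n]
  have hi3 : Integrable fun x => ∑ n, v' L n x ^ 2 := integrable_finset_sum _ fun n _ => hi n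
  have h := integral_mono_of_nonneg (Eventually.of_forall fun x => sq_nonneg _) (hi3.sub hi2)
    (Eventually.of_forall fun x => grad_pt hS hL x)
  refine h.trans (le_of_eq ?_)
  rw [integral_sub' hi3 hi2, integral_indicator measurableSet_Icc, setIntegral_const]
  simp
  norm_num

/-- The one-particle constant is not admissible if the coefficient is positive. -/
theorem not_pos {C : ℝ} (hC : 0 < C)
    (hκ : ∀ (N : ℕ) (u g : Fin N → ℝ → ℂ),
      (∀ n, MemLp (u n) 2) →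
      (∀ n, MemLp (g n) 2) → (∀ n a b, u n b - u n a = ∫ x in a..b, g n x) →
      (∀ n m, ∫ x, star (u n x) * u m x = if n = m then (1 : ℂ) else 0) →
      (1 + C) * (π ^ 2 / 4) * ∫ x, (∑ n, ‖u n x‖ ^ 2) ^ 3 ≤ (∑ n, ∫ x, ‖g n x‖ ^ 2) +
        C * ∫ x, (deriv (fun x => √(∑ n, ‖u n x‖ ^ 2)) x) ^ 2) : False := by
  have hpi := pi_pos
  -- the distance
  set K : ℝ := (1 + C) / C * (464 * (4 * π) * exp 1) with hK
  have hK0 : 0 < K := by positivity
  set L : ℝ := 22 + 2 * K with hL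
  have hL2 : 2 ≤ L := by linarith
  have hov := ov_le L
  have hov0 := ov_nonneg L
  have hS : ov L ≤ 1 / 2 := by
    refine hov.trans ?_
    have h1 : 3 / 4 * L + 1 ≤ exp (3 / 4 * L) := add_one_le_exp _
    have h2 : exp (-(3 / 4 * L)) * exp (3 / 4 * L) = 1 := by rw [← exp_add]; simp
    have h3 := exp_pos (-(3 / 4 * L))
    have h4 : 16 ≤ exp (3 / 4 * L) := by linarith
    nlinarith
  -- the system
  have hn : ∀ n x, ‖((v L n x : ℝ) : ℂ)‖ ^ 2 = v L n x ^ 2 := fun n x => by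
    rw [Complex.norm_real, Real.norm_eq_abs, sq_abs]
  have hn' : ∀ n x, ‖((v' L n x : ℝ) : ℂ)‖ ^ 2 = v' L n x ^ 2 := fun n x => by
    rw [Complex.norm_real, Real.norm_eq_abs, sq_abs]
  have c1 : ∀ n, MemLp (fun x => ((v L n x : ℝ) : ℂ)) 2 := fun n => (v_memLp L n).ofReal
  have c2 : ∀ n, MemLp (fun x => ((v' L n x : ℝ) : ℂ)) 2 := fun n => (v'_memLp L n).ofReal
  have c3 : ∀ n a b, ((v L n b : ℝ) : ℂ) - ((v L n a : ℝ) : ℂ) =
      ∫ x in a..b, ((v' L n x : ℝ) : ℂ) := fun n a b => by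
    rw [intervalIntegral.integral_ofReal, ← v_ftc]
    push_cast
    ring
  have c4 : ∀ n m, ∫ x, star ((v L n x : ℝ) : ℂ) * ((v L m x : ℝ) : ℂ) =
      if n = m then (1 : ℂ) else 0 := fun n m => by
    have e : ∀ x, star ((v L n x : ℝ) : ℂ) * ((v L m x : ℝ) : ℂ) =
        ((v L n x * v L m x : ℝ) : ℂ) := by
      intro x
      have h1 : star ((v L n x : ℝ) : ℂ) = ((v L n x : ℝ) : ℂ) := Complex.conj_ofReal _
      rw [h1]; push_cast; ring
    simp only [e]
    rw [integral_complex_ofReal, v_on hS]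
    split_ifs <;> simp
  have h := hκ 2 (fun n x => ((v L n x : ℝ) : ℂ)) (fun n x => ((v' L n x : ℝ) : ℂ)) c1 c2 c3 c4
  have hfam := (family_sc (fun _ => 1) (fun _ => le_rfl) (fun n x => ((v L n x : ℝ) : ℂ))
    (fun n x => ((v' L n x : ℝ) : ℂ)) c1 c2 c3 (fun n m => by rw [c4]; simp)).2.2.2.1
  simp only [hn, hn'] at h hfam
  have h1 := kin_le hS
  have h2 := cube_ge hS hfam
  have h3 := grad_le hS hL2
  have h4 := mul_le_mul_of_nonneg_left h3 hC.le
  have h5 := mul_le_mul_of_nonneg_left h2 (by positivity : 0 ≤ (1 + C) * (π ^ 2 / 4))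
  have h6 : (1 + C) * (π ^ 2 / 4) * (1 / π ^ 2 - 24 / π ^ 2 * ov L ^ 2) =
      (1 + C) * (1 / 4 - 6 * ov L ^ 2) := by
    field_simp
    ring
  rw [h6] at h5
  have h7 := mul_le_mul_of_nonneg_left h1 (by positivity : 0 ≤ 1 + C)
  have h8 : 2 * C * k0 L ≤ (1 + C) * (29 / 4 * ov L ^ 2) := by nlinarith
  have h9 : ov L ^ 2 ≤ 64 * exp (-(3 / 2 * L)) := by
    have i1 := pow_le_pow_left₀ hov0 hov 2
    have i2 : (8 * exp (-(3 / 4 * L))) ^ 2 = 64 * exp (-(3 / 2 * L)) := by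
      have : -(3 / 2 * L) = -(3 / 4 * L) + -(3 / 4 * L) := by ring
      rw [this, exp_add]
      ring
    rwa [i2] at i1
  have h10 : 2 * C * k0 L ≤ (1 + C) * (464 * exp (-(3 / 2 * L))) := by
    refine h8.trans (mul_le_mul_of_nonneg_left ?_ (by positivity))
    linarith
  have h11 : k0 L = exp (-(3 / 2 * L)) * exp (L / 2) / (8 * π * exp 1) := by
    have : exp (-(L + 1)) * exp 1 = exp (-(3 / 2 * L)) * exp (L / 2) := by
      rw [← exp_add, ← exp_add]
      congr 1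
      ring
    rw [k0, ← this]
    field_simp
  rw [h11] at h10
  have he := exp_pos (-(3 / 2 * L))
  have h12 : 2 * C * (exp (-(3 / 2 * L)) * exp (L / 2) / (8 * π * exp 1)) =
      exp (-(3 / 2 * L)) * (C * exp (L / 2) / (4 * π * exp 1)) := by
    field_simp
    ring
  have h13 : (1 + C) * (464 * exp (-(3 / 2 * L))) = exp (-(3 / 2 * L)) * ((1 + C) * 464) := by ring
  rw [h12, h13] at h10
  have h14 := le_of_mul_le_mul_left h10 he
  rw [div_le_iff₀ (by positivity)] at h14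
  have h15 : exp (L / 2) ≤ K := by
    rw [hK, div_mul_eq_mul_div, le_div_iff₀ hC]
    calc exp (L / 2) * C = C * exp (L / 2) := mul_comm _ _
      _ ≤ (1 + C) * 464 * (4 * π * exp 1) := h14
      _ = (1 + C) * (464 * (4 * π) * exp 1) := by ring
  have h16 := add_one_le_exp (L / 2)
  linarith

end Pool.Agent.TH199.LT.Two
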