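import Mathlib

set_option autoImplicit false
set_option linter.deprecated false

open Finset Real Filter Topology

namespace Pool.Agent.TH199.LT.Sc

/-- The moments `∫ y ^ m` over `(-1, 1)`. -/
noncomputable def w (m : ℕ) : ℝ := ∫ y in (-1:ℝ)..1, y ^ m

lemma w_even (l : ℕ) : w (2 * l) = 2 / (2 * l + 1) := by
  rw [w, integral_pow, one_pow, (odd_two_mul_add_one l).neg_one_pow]
  push_cast
  norm_num

lemma w_odd (l : ℕ) : w (2 * l + 1) = 0 := by
  rw [w, integral_pow, one_pow]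
  have : Even (2 * l + 1 + 1) := ⟨l + 1, by ring⟩
  rw [this.neg_one_pow]
  simp

lemma w_abs (m : ℕ) : |w m| ≤ 2 := by
  rcases Nat.even_or_odd' m with ⟨l, rfl | rfl⟩
  · rw [w_even, abs_of_nonneg (by positivity), div_le_iff₀ (by positivity)]
    have : (0:ℝ) ≤ l := Nat.cast_nonneg l
    nlinarith
  · rw [w_odd, abs_zero]; norm_num

/-- The odd harmonic numbers. -/
noncomputable def O (l : ℕ) : ℝ := ∑ j ∈ range l, 1 / (2 * (j:ℝ) + 1)

lemma O_succ (l : ℕ) : O (l + 1) = O l + 1 / (2 * (l:ℝ) + 1) := by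
  rw [O, sum_range_succ, O]

lemma O_zero : O 0 = 0 := by simp [O]

lemma O_nonneg (l : ℕ) : 0 ≤ O l := sum_nonneg fun j _ => by positivity

lemma O_mono : Monotone O := monotone_nat_of_le_succ fun l => by
  rw [O_succ]
  have : (0:ℝ) ≤ 1 / (2 * (l:ℝ) + 1) := by positivity
  linarith

/-- The sums against the series of the logarithm. -/
noncomputable def T (J l : ℕ) : ℝ := ∑ j ∈ range J, 2 / ((2 * (j:ℝ) + 1) * (2 * j + 1 + 2 * l))

lemma T_formula (J : ℕ) {l : ℕ} (hl : 0 < l) : T J l = (O J + O l - O (J + l)) / l := by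
  have hl' : (0:ℝ) < l := Nat.cast_pos.2 hl
  induction J with
  | zero => simp [T, O_zero]
  | succ J ih =>
    have e : T (J + 1) l = T J l + 2 / ((2 * (J:ℝ) + 1) * (2 * J + 1 + 2 * l)) := by
      rw [T, sum_range_succ, T]
    rw [e, ih, O_succ, show J + 1 + l = (J + l) + 1 by ring, O_succ (J + l)]
    push_cast
    have h1 : (0:ℝ) < 2 * J + 1 := by positivity
    have h2 : (0:ℝ) < 2 * J + 1 + 2 * l := by positivity
    have h3 : (0:ℝ) < 2 * (J + l) + 1 := by positivity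
    field_simp
    ring

lemma T_le (J : ℕ) {l : ℕ} (hl : 0 < l) : T J l ≤ O l / l := by
  have hl' : (0:ℝ) < l := Nat.cast_pos.2 hl
  rw [T_formula J hl]
  have := O_mono (Nat.le_add_right J l)
  gcongr
  linarith

lemma O_diff_tendsto (l : ℕ) : Tendsto (fun J => O (J + l) - O J) atTop (𝓝 0) := by
  induction l with
  | zero => simp
  | succ l ih =>
    have h1 : Tendsto (fun J : ℕ => 1 / (2 * ((J + l : ℕ):ℝ) + 1)) atTop (𝓝 0) := by
      have h2 : Tendsto (fun J : ℕ => 2 * ((J + l : ℕ):ℝ) + 1) atTop atTop := by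
        refine tendsto_atTop_add_const_right _ _ (Tendsto.const_mul_atTop (by norm_num) ?_)
        exact tendsto_natCast_atTop_atTop.comp (tendsto_add_atTop_nat l)
      have h4 := tendsto_inv_atTop_zero.comp h2
      refine h4.congr fun J => ?_
      simp only [Function.comp, one_div]
    have h3 := ih.add h1
    rw [add_zero] at h3
    refine h3.congr fun J => ?_
    rw [← add_assoc, O_succ]
    ring

lemma T_tendsto {l : ℕ} (hl : 0 < l) : Tendsto (fun J => T J l) atTop (𝓝 (O l / l)) := by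
  have h1 := ((O_diff_tendsto l).const_sub (O l)).div_const (l:ℝ)
  rw [sub_zero] at h1
  refine h1.congr fun J => ?_
  rw [T_formula J hl]
  ring

lemma odd_sum : HasSum (fun j : ℕ => 1 / (2 * (j:ℝ) + 1) ^ 2) (π ^ 2 / 8) := by
  set f : ℕ → ℝ := fun n => 1 / (n:ℝ) ^ 2 with hf
  have h : HasSum f (π ^ 2 / 6) := hasSum_zeta_two
  have h1 : HasSum (fun k : ℕ => f (2 * k)) (π ^ 2 / 24) := by
    have h1a : HasSum (fun k : ℕ => 1 / 4 * f k) (1 / 4 * (π ^ 2 / 6)) := h.mul_left (1 / 4)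
    have e1 : (1 / 4 * (π ^ 2 / 6)) = π ^ 2 / 24 := by ring
    have e2 : (fun k : ℕ => 1 / 4 * f k) = fun k : ℕ => f (2 * k) := by
      funext k
      simp only [hf]
      push_cast
      rcases eq_or_ne (k:ℝ) 0 with hk | hk
      · simp [hk]
      · field_simp
        norm_num
    rw [e1, e2] at h1a
    exact h1a
  have h2 : Summable (fun k : ℕ => f (2 * k + 1)) :=
    h.summable.comp_injective (i := fun k : ℕ => 2 * k + 1) (fun a b hab => by simpa using hab)
  have h3 : HasSum f (π ^ 2 / 24 + ∑' k : ℕ, f (2 * k + 1)) := h1.even_add_odd h2.hasSum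
  have h4 := h.unique h3
  have h5 : ∑' k : ℕ, f (2 * k + 1) = π ^ 2 / 8 := by linarith
  have h6 := h2.hasSum
  rw [h5] at h6
  have e3 : (fun k : ℕ => f (2 * k + 1)) = fun j : ℕ => 1 / (2 * (j:ℝ) + 1) ^ 2 := by
    funext k
    simp only [hf]
    push_cast
    rfl
  rw [e3] at h6
  exact h6

lemma odd_le (J : ℕ) : ∑ j ∈ range J, 1 / (2 * (j:ℝ) + 1) ^ 2 ≤ π ^ 2 / 8 := by
  rw [← odd_sum.tsum_eq]
  exact odd_sum.summable.sum_le_tsum _ fun j _ => by positivity

lemma T_zero (J : ℕ) : T J 0 = 2 * ∑ j ∈ range J, 1 / (2 * (j:ℝ) + 1) ^ 2 := by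
  rw [T, mul_sum]
  refine sum_congr rfl fun j _ => ?_
  push_cast
  have : (2 * (j:ℝ) + 1) ≠ 0 := by positivity
  field_simp
  ring

lemma T_zero_tendsto : Tendsto (fun J => T J 0) atTop (𝓝 (π ^ 2 / 4)) := by
  have h1 := odd_sum.tendsto_sum_nat.const_mul 2
  have e : 2 * (π ^ 2 / 8) = π ^ 2 / 4 := by ring
  rw [e] at h1
  exact h1.congr fun J => (T_zero J).symm

/-- The triple sums. -/
noncomputable def Sg (J : ℕ) : ℝ := ∑ j ∈ range J, ∑ k ∈ range J,
  1 / ((2 * (j:ℝ) + 1) * (2 * k + 1) * (2 * (j + k) + 1))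

noncomputable def X (J : ℕ) : ℝ := ∑ m ∈ range J, O (m + 1) / ((2 * (m:ℝ) + 1) * (2 * m + 2))

noncomputable def Y (J : ℕ) : ℝ := ∑ m ∈ range J, O (m + 1) / ((2 * (m:ℝ) + 2) * (2 * m + 3))

lemma X_mono : Monotone X := monotone_nat_of_le_succ fun l => by
  rw [X, X, sum_range_succ]
  have : (0:ℝ) ≤ O (l + 1) / ((2 * (l:ℝ) + 1) * (2 * l + 2)) :=
    div_nonneg (O_nonneg _) (by positivity)
  linarith

lemma Y_mono : Monotone Y := monotone_nat_of_le_succ fun l => by
  rw [Y, Y, sum_range_succ]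
  have : (0:ℝ) ≤ O (l + 1) / ((2 * (l:ℝ) + 2) * (2 * l + 3)) :=
    div_nonneg (O_nonneg _) (by positivity)
  linarith

lemma XY (J : ℕ) : X J + Y J = ∑ m ∈ range J, 1 / (2 * (m:ℝ) + 1) ^ 2 - O J / (2 * J + 1) := by
  induction J with
  | zero => simp [X, Y, O_zero]
  | succ J ih =>
    have e1 : X (J + 1) = X J + O (J + 1) / ((2 * (J:ℝ) + 1) * (2 * J + 2)) := by
      rw [X, sum_range_succ, X]
    have e2 : Y (J + 1) = Y J + O (J + 1) / ((2 * (J:ℝ) + 2) * (2 * J + 3)) := by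
      rw [Y, sum_range_succ, Y]
    rw [sum_range_succ, e1, e2]
    have e3 : X J + O (J + 1) / ((2 * (J:ℝ) + 1) * (2 * J + 2)) +
        (Y J + O (J + 1) / ((2 * (J:ℝ) + 2) * (2 * J + 3))) = (X J + Y J) +
        O (J + 1) / ((2 * (J:ℝ) + 1) * (2 * J + 2)) +
        O (J + 1) / ((2 * (J:ℝ) + 2) * (2 * J + 3)) := by ring
    rw [e3, ih, O_succ]
    push_cast
    have h1 : (2 * (J:ℝ) + 1) ≠ 0 := by positivity
    have h2 : (2 * (J:ℝ) + 2) ≠ 0 := by positivity
    have h3 : (2 * (J:ℝ) + 3) ≠ 0 := by positivity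
    have h4 : (2 * ((J:ℝ) + 1) + 1) ≠ 0 := by positivity
    field_simp
    ring

lemma XY_le (J : ℕ) : X J + Y J ≤ π ^ 2 / 8 := by
  rw [XY]
  have h1 := odd_le J
  have h2 : 0 ≤ O J / (2 * (J:ℝ) + 1) := div_nonneg (O_nonneg _) (by positivity)
  linarith

/-- Sums over triangles. -/
lemma tri_eq (N K : ℕ) (hK : K ≤ N) (f : ℕ → ℕ → ℝ) :
    ∑ m ∈ range K, ∑ l ∈ range (m + 1), f l (m - l) =
      ∑ a ∈ range N, ∑ b ∈ range N, if a + b < K then f a b else 0 := by
  rw [sum_range_diag_flip K f]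
  have h1 : ∀ a, ∑ b ∈ range N, (if a + b < K then f a b else 0) =
      ∑ b ∈ range (K - a), f a b := by
    intro a
    rw [← sum_filter]
    refine sum_congr ?_ fun _ _ => rfl
    ext b
    simp only [mem_filter, mem_range]
    omega
  simp only [h1]
  refine sum_subset (range_subset_range.2 hK) fun a _ ha => ?_
  have : K - a = 0 := by
    rw [mem_range] at ha
    omega
  rw [this]
  simp

lemma Sg_eq (J : ℕ) : Sg J = ∑ j ∈ range J, 1 / (2 * (2 * (j:ℝ) + 1)) * T J j := by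
  unfold Sg T
  refine sum_congr rfl fun j _ => ?_
  rw [mul_sum]
  refine sum_congr rfl fun k _ => ?_
  have h1 : (2 * (j:ℝ) + 1) ≠ 0 := by positivity
  have h2 : (2 * (k:ℝ) + 1) ≠ 0 := by positivity
  have h3 : (2 * ((j:ℝ) + k) + 1) ≠ 0 := by positivity
  have h4 : (2 * (k:ℝ) + 1 + 2 * j) ≠ 0 := by positivity
  field_simp
  ring

lemma Sg_a (J : ℕ) : Sg (J + 1) ≤ π ^ 2 / 8 + Y J := by
  rw [Sg_eq, sum_range_succ', add_comm]
  refine add_le_add ?_ ?_
  · push_cast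
    have h1 := odd_le (J + 1)
    rw [T_zero]
    norm_num
    simpa using h1
  · unfold Y
    refine sum_le_sum fun j _ => ?_
    have h1 := T_le (J + 1) (Nat.succ_pos j)
    have h2 : (0:ℝ) ≤ 1 / (2 * (2 * ((j + 1 : ℕ):ℝ) + 1)) := by positivity
    refine (mul_le_mul_of_nonneg_left h1 h2).trans (le_of_eq ?_)
    push_cast
    have h3 : ((j:ℝ) + 1) ≠ 0 := by positivity
    have h4 : (2 * ((j:ℝ) + 1) + 1) ≠ 0 := by positivity
    have h5 : (2 * (j:ℝ) + 3) ≠ 0 := by positivity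
    have h6 : (2 * (j:ℝ) + 2) ≠ 0 := by positivity
    field_simp
    ring

lemma Sg_b (J : ℕ) : Sg J ≤ 2 * X (2 * J) := by
  set f : ℕ → ℕ → ℝ := fun j k => 2 / ((2 * ((j:ℝ) + k) + 1) * (2 * (j + k) + 2) * (2 * j + 1))
    with hf
  have hf0 : ∀ j k, 0 ≤ f j k := fun j k => by simp only [hf]; positivity
  have h1 : Sg J = ∑ j ∈ range J, ∑ k ∈ range J, f j k := by
    have i1 : Sg J = ∑ j ∈ range J, ∑ k ∈ range J, (f j k / 2 + f k j / 2) := by
      unfold Sg
      refine sum_congr rfl fun j _ => sum_congr rfl fun k _ => ?_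
      simp only [hf]
      have h1 : (2 * (j:ℝ) + 1) ≠ 0 := by positivity
      have h2 : (2 * (k:ℝ) + 1) ≠ 0 := by positivity
      have h3 : (2 * ((j:ℝ) + k) + 1) ≠ 0 := by positivity
      have h4 : (2 * ((k:ℝ) + j) + 1) ≠ 0 := by positivity
      have h5 : (2 * ((j:ℝ) + k) + 2) ≠ 0 := by positivity
      have h6 : (2 * ((k:ℝ) + j) + 2) ≠ 0 := by positivity
      rw [add_comm (k:ℝ) (j:ℝ)]
      field_simp
      ring
    rw [i1]
    simp only [sum_add_distrib]
    rw [sum_comm (f := fun j k => f k j / 2)]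
    rw [← sum_add_distrib]
    refine sum_congr rfl fun j _ => ?_
    rw [← sum_add_distrib]
    refine sum_congr rfl fun k _ => ?_
    ring
  have h2 : ∑ j ∈ range J, ∑ k ∈ range J, f j k ≤
      ∑ a ∈ range (2 * J), ∑ b ∈ range (2 * J), if a + b < 2 * J then f a b else 0 := by
    have hsub : range J ⊆ range (2 * J) := range_subset_range.2 (by omega)
    have hg0 : ∀ a b, 0 ≤ (if a + b < 2 * J then f a b else 0) := by
      intro a b
      split_ifs
      · exact hf0 a b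
      · exact le_rfl
    calc ∑ j ∈ range J, ∑ k ∈ range J, f j k
        = ∑ j ∈ range J, ∑ k ∈ range J, (if j + k < 2 * J then f j k else 0) := by
          refine sum_congr rfl fun j hj => sum_congr rfl fun k hk => ?_
          rw [mem_range] at hj hk
          rw [if_pos (by omega)]
      _ ≤ ∑ j ∈ range J, ∑ k ∈ range (2 * J), (if j + k < 2 * J then f j k else 0) :=
          sum_le_sum fun j _ => sum_le_sum_of_subset_of_nonneg hsub fun k _ _ => hg0 j k
      _ ≤ _ := sum_le_sum_of_subset_of_nonneg hsub fun j _ _ => sum_nonneg fun k _ => hg0 j k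
  rw [h1]
  refine h2.trans (le_of_eq ?_)
  rw [← tri_eq (2 * J) (2 * J) le_rfl f, X, mul_sum]
  refine sum_congr rfl fun m _ => ?_
  rw [O, sum_div, mul_sum]
  refine sum_congr rfl fun l hl => ?_
  have hl' : l ≤ m := Nat.lt_succ_iff.1 (mem_range.1 hl)
  simp only [hf]
  rw [Nat.cast_sub hl']
  have h3 : ((l:ℝ) + ((m:ℝ) - l)) = m := by ring
  rw [h3]
  have h4 : (2 * (m:ℝ) + 1) ≠ 0 := by positivity
  have h5 : (2 * (m:ℝ) + 2) ≠ 0 := by positivity
  have h6 : (2 * (l:ℝ) + 1) ≠ 0 := by positivity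
  field_simp

lemma Sg_le (J : ℕ) : Sg J ≤ π ^ 2 / 6 := by
  have h0 : Sg J ≤ Sg (J + 1) := by
    unfold Sg
    have hsub : range J ⊆ range (J + 1) := range_subset_range.2 (by omega)
    calc _ ≤ ∑ j ∈ range J, ∑ k ∈ range (J + 1),
          1 / ((2 * (j:ℝ) + 1) * (2 * k + 1) * (2 * (j + k) + 1)) :=
          sum_le_sum fun j _ => sum_le_sum_of_subset_of_nonneg hsub fun k _ _ => by positivity
      _ ≤ _ := sum_le_sum_of_subset_of_nonneg hsub fun j _ _ => sum_nonneg fun k _ => by positivity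
  have h1 := Sg_a J
  have h2 := Sg_b (J + 1)
  have h3 := XY_le (2 * (J + 1))
  have h4 := Y_mono (show J ≤ 2 * (J + 1) by omega)
  linarith

/-- Integrals of finite double sums. -/
lemma int_dd (S R : Finset ℕ) (c : ℕ → ℕ → ℝ) (e : ℕ → ℕ → ℕ) :
    ∫ y in (-1:ℝ)..1, ∑ a ∈ S, ∑ b ∈ R, c a b * y ^ (e a b) =
      ∑ a ∈ S, ∑ b ∈ R, c a b * w (e a b) := by
  rw [intervalIntegral.integral_finset_sum]
  · refine sum_congr rfl fun a _ => ?_
    rw [intervalIntegral.integral_finset_sum]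
    · refine sum_congr rfl fun b _ => ?_
      rw [intervalIntegral.integral_const_mul]
      rfl
    · intro b _
      exact Continuous.intervalIntegrable (by fun_prop) _ _
  · intro a _
    exact Continuous.intervalIntegrable (by fun_prop) _ _

lemma pos (n J : ℕ) (μ : ℕ → ℝ) :
    0 ≤ (∑ a ∈ range n, ∑ b ∈ range n, (μ a * μ b) * w (a + b)) -
      2 * (∑ a ∈ range n, ∑ j ∈ range J, (μ a * (1 / (2 * (j:ℝ) + 1))) * w (a + 2 * j)) +
      ∑ j ∈ range J, ∑ k ∈ range J,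
        ((1 / (2 * (j:ℝ) + 1)) * (1 / (2 * (k:ℝ) + 1))) * w (2 * j + 2 * k) := by
  have h1 : ∀ y : ℝ, (∑ a ∈ range n, μ a * y ^ a -
      ∑ j ∈ range J, (1 / (2 * (j:ℝ) + 1)) * y ^ (2 * j)) ^ 2 =
      (∑ a ∈ range n, ∑ b ∈ range n, (μ a * μ b) * y ^ (a + b)) -
      2 * (∑ a ∈ range n, ∑ j ∈ range J, (μ a * (1 / (2 * (j:ℝ) + 1))) * y ^ (a + 2 * j)) +
      ∑ j ∈ range J, ∑ k ∈ range J,
        ((1 / (2 * (j:ℝ) + 1)) * (1 / (2 * (k:ℝ) + 1))) * y ^ (2 * j + 2 * k) := by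
    intro y
    rw [sub_sq, pow_two, pow_two (∑ j ∈ range J, (1 / (2 * (j:ℝ) + 1)) * y ^ (2 * j)), mul_assoc,
      sum_mul_sum, sum_mul_sum, sum_mul_sum]
    congr 1
    · congr 1
      · refine sum_congr rfl fun a _ => sum_congr rfl fun b _ => ?_
        rw [pow_add]; ring
      · congr 1
        refine sum_congr rfl fun a _ => sum_congr rfl fun b _ => ?_
        rw [pow_add]; ring
    · refine sum_congr rfl fun a _ => sum_congr rfl fun b _ => ?_
      rw [pow_add]; ring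
  have h2 : 0 ≤ ∫ y in (-1:ℝ)..1, (∑ a ∈ range n, μ a * y ^ a -
      ∑ j ∈ range J, (1 / (2 * (j:ℝ) + 1)) * y ^ (2 * j)) ^ 2 :=
    intervalIntegral.integral_nonneg (by norm_num) fun y _ => sq_nonneg _
  simp only [h1] at h2
  rw [intervalIntegral.integral_add, intervalIntegral.integral_sub,
    intervalIntegral.integral_const_mul, int_dd, int_dd, int_dd] at h2
  · exact h2
  all_goals exact Continuous.intervalIntegrable (by fun_prop) _ _

lemma even_sum (N : ℕ) (g : ℕ → ℝ) (h : ∀ l, g (2 * l + 1) = 0) :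
    ∑ a ∈ range (2 * N), g a = ∑ l ∈ range N, g (2 * l) := by
  induction N with
  | zero => simp
  | succ N ih =>
    rw [show 2 * (N + 1) = 2 * N + 1 + 1 by ring, sum_range_succ, sum_range_succ, ih, h, add_zero,
      sum_range_succ]

lemma pos_even (N J : ℕ) (μ : ℕ → ℝ) :
    2 * (∑ l ∈ range N, μ (2 * l) * T J l) - π ^ 2 / 3 ≤
      ∑ a ∈ range (2 * N), ∑ b ∈ range (2 * N), (μ a * μ b) * w (a + b) := by
  have h := pos (2 * N) J μ
  have h1 : ∑ a ∈ range (2 * N), ∑ j ∈ range J, (μ a * (1 / (2 * (j:ℝ) + 1))) * w (a + 2 * j) =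
      ∑ l ∈ range N, μ (2 * l) * T J l := by
    rw [even_sum]
    · refine sum_congr rfl fun l _ => ?_
      rw [T, mul_sum]
      refine sum_congr rfl fun j _ => ?_
      rw [show 2 * l + 2 * j = 2 * (l + j) by ring, w_even]
      push_cast
      have h1 : (2 * (j:ℝ) + 1) ≠ 0 := by positivity
      have h2 : (2 * ((l:ℝ) + j) + 1) ≠ 0 := by positivity
      have h3 : (2 * (j:ℝ) + 1 + 2 * l) ≠ 0 := by positivity
      field_simp
      ring
    · intro l
      refine sum_eq_zero fun j _ => ?_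
      rw [show 2 * l + 1 + 2 * j = 2 * (l + j) + 1 by ring, w_odd, mul_zero]
  have h2 : ∑ j ∈ range J, ∑ k ∈ range J,
        ((1 / (2 * (j:ℝ) + 1)) * (1 / (2 * (k:ℝ) + 1))) * w (2 * j + 2 * k) = 2 * Sg J := by
    rw [Sg, mul_sum]
    refine sum_congr rfl fun j _ => ?_
    rw [mul_sum]
    refine sum_congr rfl fun k _ => ?_
    rw [show 2 * j + 2 * k = 2 * (j + k) by ring, w_even]
    push_cast
    have h1 : (2 * (j:ℝ) + 1) ≠ 0 := by positivity
    have h2 : (2 * (k:ℝ) + 1) ≠ 0 := by positivity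
    have h3 : (2 * ((j:ℝ) + k) + 1) ≠ 0 := by positivity
    field_simp
  rw [h1, h2] at h
  have h3 := Sg_le J
  linarith

lemma pos_lim (n : ℕ) (μ : ℕ → ℝ) (hμ0 : μ 0 = 1) :
    π ^ 2 / 6 + 2 * (∑ l ∈ range n, μ (2 * (l + 1)) * (O (l + 1) / ((l:ℝ) + 1))) ≤
      ∑ a ∈ range (2 * (n + 1)), ∑ b ∈ range (2 * (n + 1)), (μ a * μ b) * w (a + b) := by
  have h1 : Tendsto (fun J => 2 * (∑ l ∈ range (n + 1), μ (2 * l) * T J l) - π ^ 2 / 3) atTop
      (𝓝 (2 * (∑ l ∈ range n, μ (2 * (l + 1)) * (O (l + 1) / ((l + 1 : ℕ):ℝ)) +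
        μ (2 * 0) * (π ^ 2 / 4)) - π ^ 2 / 3)) := by
    refine (Tendsto.const_mul 2 ?_).sub_const _
    simp only [sum_range_succ' (fun l => μ (2 * l) * T _ l)]
    refine Tendsto.add ?_ ?_
    · exact tendsto_finset_sum _ fun l _ => (T_tendsto (Nat.succ_pos l)).const_mul _
    · exact T_zero_tendsto.const_mul _
  have h2 := le_of_tendsto' h1 fun J => pos_even (n + 1) J μ
  refine le_trans (le_of_eq ?_) h2
  rw [mul_zero, hμ0]
  push_cast
  ring

/-- The inequality behind the calibration. -/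
theorem seq_bound {θ : ℝ} (h0 : 0 ≤ θ) (h1 : θ ≤ 1) (n : ℕ) (μ : ℕ → ℝ) (hμ0 : μ 0 = 1)
    (hμ : ∀ m, |μ m| ≤ θ ^ m) :
    π ^ 2 / 3 - 20 * ((n:ℝ) + 1) ^ 2 * θ ^ (2 * n) ≤
      2 * (∑ j ∈ range n, 2 / (2 * (j:ℝ) + 1) *
        ∑ l ∈ range (2 * j + 1), μ l * μ (2 * j - l)) -
      4 * (∑ i ∈ range n, ∑ j ∈ range n,
        μ (2 * (i + j + 1)) / ((2 * (i:ℝ) + 1) * (2 * j + 1))) := by
  set N := 2 * (n + 1) with hN
  -- the first sum
  set f : ℕ → ℕ → ℝ := fun a b => (μ a * μ b) * w (a + b) with hf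
  have e1 : ∑ j ∈ range n, 2 / (2 * (j:ℝ) + 1) *
        ∑ l ∈ range (2 * j + 1), μ l * μ (2 * j - l) =
      ∑ a ∈ range N, ∑ b ∈ range N, if a + b < 2 * n then f a b else 0 := by
    rw [← tri_eq N (2 * n) (by omega) f, even_sum]
    · refine sum_congr rfl fun j _ => ?_
      rw [mul_sum]
      refine sum_congr rfl fun l hl => ?_
      have hl' : l ≤ 2 * j := Nat.lt_succ_iff.1 (mem_range.1 hl)
      simp only [hf]
      rw [show l + (2 * j - l) = 2 * j by omega, w_even]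
      ring
    · intro l
      refine sum_eq_zero fun a ha => ?_
      have ha' : a ≤ 2 * l + 1 := Nat.lt_succ_iff.1 (mem_range.1 ha)
      simp only [hf]
      rw [show a + (2 * l + 1 - a) = 2 * l + 1 by omega, w_odd, mul_zero]
  have hpw : ∀ m, 2 * n ≤ m → θ ^ m ≤ θ ^ (2 * n) := fun m hm => pow_le_pow_of_le_one h0 h1 hm
  have e2 : |(∑ a ∈ range N, ∑ b ∈ range N, f a b) -
      ∑ a ∈ range N, ∑ b ∈ range N, if a + b < 2 * n then f a b else 0| ≤
      (N:ℝ) ^ 2 * (2 * θ ^ (2 * n)) := by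
    rw [← sum_sub_distrib]
    simp only [← sum_sub_distrib]
    have hb : ∀ a b, |f a b - if a + b < 2 * n then f a b else 0| ≤ 2 * θ ^ (2 * n) := by
      intro a b
      split_ifs with hab
      · rw [sub_self, abs_zero]; positivity
      · rw [sub_zero]
        simp only [hf]
        rw [abs_mul, abs_mul]
        have i1 := mul_le_mul (hμ a) (hμ b) (abs_nonneg _) (pow_nonneg h0 a)
        rw [← pow_add] at i1
        have i2 := i1.trans (hpw (a + b) (by omega))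
        have i3 := w_abs (a + b)
        calc |μ a| * |μ b| * |w (a + b)| ≤ θ ^ (2 * n) * 2 :=
              mul_le_mul i2 i3 (abs_nonneg _) (by positivity)
          _ = 2 * θ ^ (2 * n) := by ring
    refine (abs_sum_le_sum_abs _ _).trans ?_
    have i1 : ∀ a ∈ range N, |∑ b ∈ range N, (f a b - if a + b < 2 * n then f a b else 0)| ≤
        N * (2 * θ ^ (2 * n)) := by
      intro a _
      refine (abs_sum_le_sum_abs _ _).trans ((sum_le_sum fun b _ => hb a b).trans (le_of_eq ?_))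
      rw [sum_const, card_range, nsmul_eq_mul]
    refine (sum_le_sum i1).trans (le_of_eq ?_)
    rw [sum_const, card_range, nsmul_eq_mul]
    ring
  -- the second sum
  set g : ℕ → ℕ → ℝ := fun i j => μ (2 * (i + j + 1)) / ((2 * (i:ℝ) + 1) * (2 * j + 1)) with hg
  have e3 : ∑ l ∈ range n, μ (2 * (l + 1)) * (O (l + 1) / ((l:ℝ) + 1)) =
      ∑ i ∈ range n, ∑ j ∈ range n, if i + j < n then g i j else 0 := by
    rw [← tri_eq n n le_rfl g]
    refine sum_congr rfl fun m _ => ?_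
    have i1 : ∑ l ∈ range (m + 1), 1 / ((2 * (l:ℝ) + 1) * (2 * ((m - l : ℕ):ℝ) + 1)) =
        O (m + 1) / ((m:ℝ) + 1) := by
      have i2 : ∀ l ∈ range (m + 1), 1 / ((2 * (l:ℝ) + 1) * (2 * ((m - l : ℕ):ℝ) + 1)) =
          (1 / (2 * (l:ℝ) + 1) + 1 / (2 * ((m - l : ℕ):ℝ) + 1)) / (2 * ((m:ℝ) + 1)) := by
        intro l hl
        have hl' : l ≤ m := Nat.lt_succ_iff.1 (mem_range.1 hl)
        have hc : ((m - l : ℕ):ℝ) = (m:ℝ) - l := Nat.cast_sub hl'
        have hp : (0:ℝ) ≤ ((m - l : ℕ):ℝ) := Nat.cast_nonneg _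
        have h1 : (2 * (l:ℝ) + 1) ≠ 0 := by positivity
        have h2 : (2 * ((m - l : ℕ):ℝ) + 1) ≠ 0 := by positivity
        have h3 : ((m:ℝ) + 1) ≠ 0 := by positivity
        rw [div_add_div _ _ h1 h2, div_div, div_eq_div_iff (by positivity) (by positivity), hc]
        ring
      rw [sum_congr rfl i2, ← sum_div, sum_add_distrib]
      have i3 : ∑ l ∈ range (m + 1), 1 / (2 * ((m - l : ℕ):ℝ) + 1) = O (m + 1) := by
        rw [O, ← sum_range_reflect]
        refine sum_congr rfl fun l hl => ?_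
        have hl' : l ≤ m := Nat.lt_succ_iff.1 (mem_range.1 hl)
        rw [show m + 1 - 1 - l = m - l by omega, show m - (m - l) = l by omega]
      rw [i3]
      change (O (m + 1) + O (m + 1)) / (2 * ((m:ℝ) + 1)) = O (m + 1) / ((m:ℝ) + 1)
      have h3 : ((m:ℝ) + 1) ≠ 0 := by positivity
      field_simp
      ring
    rw [← i1, mul_sum]
    refine sum_congr rfl fun l hl => ?_
    have hl' : l ≤ m := Nat.lt_succ_iff.1 (mem_range.1 hl)
    simp only [hg]
    rw [show l + (m - l) + 1 = m + 1 by omega]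
    ring
  have e4 : |(∑ i ∈ range n, ∑ j ∈ range n, g i j) -
      ∑ i ∈ range n, ∑ j ∈ range n, if i + j < n then g i j else 0| ≤ (n:ℝ) ^ 2 * θ ^ (2 * n) := by
    rw [← sum_sub_distrib]
    simp only [← sum_sub_distrib]
    have hb : ∀ a b, |g a b - if a + b < n then g a b else 0| ≤ θ ^ (2 * n) := by
      intro a b
      split_ifs with hab
      · rw [sub_self, abs_zero]; positivity
      · rw [sub_zero]
        simp only [hg]
        have i1 := (hμ (2 * (a + b + 1))).trans (hpw (2 * (a + b + 1)) (by omega))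
        have i2 : (1:ℝ) ≤ (2 * (a:ℝ) + 1) * (2 * b + 1) := by
          have ha : (0:ℝ) ≤ a := Nat.cast_nonneg a
          have hb : (0:ℝ) ≤ b := Nat.cast_nonneg b
          nlinarith [mul_nonneg ha hb]
        rw [abs_div, abs_of_nonneg (by positivity : (0:ℝ) ≤ (2 * (a:ℝ) + 1) * (2 * b + 1))]
        exact (div_le_self (abs_nonneg _) i2).trans i1
    refine (abs_sum_le_sum_abs _ _).trans ?_
    have i1 : ∀ a ∈ range n, |∑ b ∈ range n, (g a b - if a + b < n then g a b else 0)| ≤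
        n * θ ^ (2 * n) := by
      intro a _
      refine (abs_sum_le_sum_abs _ _).trans ((sum_le_sum fun b _ => hb a b).trans (le_of_eq ?_))
      rw [sum_const, card_range, nsmul_eq_mul]
    refine (sum_le_sum i1).trans (le_of_eq ?_)
    rw [sum_const, card_range, nsmul_eq_mul]
    ring
  have h2 := pos_lim n μ hμ0
  rw [e3] at h2
  rw [e1]
  change π ^ 2 / 6 + 2 * _ ≤ ∑ a ∈ range N, ∑ b ∈ range N, f a b at h2
  have h3 := abs_le.1 e2
  have h4 := abs_le.1 e4
  have h5 : (N:ℝ) = 2 * (n + 1) := by rw [hN]; push_cast; ring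
  have h6 : (0:ℝ) ≤ θ ^ (2 * n) := pow_nonneg h0 _
  have h7 : (n:ℝ) ^ 2 * θ ^ (2 * n) ≤ ((n:ℝ) + 1) ^ 2 * θ ^ (2 * n) := by
    refine mul_le_mul_of_nonneg_right ?_ h6
    have : (0:ℝ) ≤ n := Nat.cast_nonneg n
    nlinarith
  have h8 : (N:ℝ) ^ 2 * (2 * θ ^ (2 * n)) = 8 * (((n:ℝ) + 1) ^ 2 * θ ^ (2 * n)) := by
    rw [h5]; ring
  rw [h8] at h3
  nlinarith [h3.1, h3.2, h4.1, h4.2]

end Pool.Agent.TH199.LT.Sc
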