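import Pool.Agent.TH199.LT.Sc6
import Pool.Agent.TH199.LT.Sc1

set_option autoImplicit false
set_option linter.unusedSectionVars false
set_option linter.deprecated false

open MeasureTheory Set Filter Topology Real

namespace Pool.Agent.TH199.LT.Tst

open Pool.Helper490

lemma tt_int (a b : ℝ) : Integrable (fun x => star (tu a x) * tu b x) := by
  have hc : Continuous (fun x => star (tu a x) * tu b x) := (tu_cont a).star.mul (tu_cont b)
  refine (Sech.int_sech.div_const π).mono' hc.aestronglyMeasurable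
    (Eventually.of_forall fun x => ?_)
  rw [tu_mul, norm_mul, Complex.norm_exp_ofReal_mul_I, mul_one, Complex.norm_real,
    Real.norm_eq_abs, abs_of_nonneg (div_nonneg (inv_nonneg.2 (cosh_pos x).le) pi_pos.le)]

lemma tt (a b : ℤ) : ∫ x, star (tu a x) * tu b x = if a = b then (1:ℂ) else 0 := by
  have h1 : (b:ℝ) - (a:ℝ) = ((b - a : ℤ):ℝ) := by push_cast; ring
  rw [tu_on h1]
  by_cases h : a = b
  · rw [if_pos h, if_pos (by omega)]
  · rw [if_neg h, if_neg (by omega)]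

lemma mu_on (c s c' s' : ℝ) (j k j' k' : ℤ) :
    ∫ x, star (mu c s j k x) * mu c' s' j' k' x =
      ((c * c' : ℝ) : ℂ) * (if j = j' then 1 else 0) +
      (((c * s' : ℝ) : ℂ) * (if j = k' then 1 else 0) +
      (((s * c' : ℝ) : ℂ) * (if k = j' then 1 else 0) +
      ((s * s' : ℝ) : ℂ) * (if k = k' then 1 else 0))) := by
  have e : ∀ x, star (mu c s j k x) * mu c' s' j' k' x =
      ((c * c' : ℝ) : ℂ) * (star (tu j x) * tu j' x) +
      (((c * s' : ℝ) : ℂ) * (star (tu j x) * tu k' x) +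
      (((s * c' : ℝ) : ℂ) * (star (tu k x) * tu j' x) +
      ((s * s' : ℝ) : ℂ) * (star (tu k x) * tu k' x))) := by
    intro x
    have h1 : star (c:ℂ) = c := Complex.conj_ofReal _
    have h2 : star (s:ℂ) = s := Complex.conj_ofReal _
    rw [mu, mu, star_add, star_mul', star_mul', h1, h2]
    push_cast
    ring
  simp only [e]
  have i1 : Integrable (fun x => ((c * c' : ℝ) : ℂ) * (star (tu j x) * tu j' x)) :=
    (tt_int _ _).const_mul _
  have i2 : Integrable (fun x => ((c * s' : ℝ) : ℂ) * (star (tu j x) * tu k' x)) :=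
    (tt_int _ _).const_mul _
  have i3 : Integrable (fun x => ((s * c' : ℝ) : ℂ) * (star (tu k x) * tu j' x)) :=
    (tt_int _ _).const_mul _
  have i4 : Integrable (fun x => ((s * s' : ℝ) : ℂ) * (star (tu k x) * tu k' x)) :=
    (tt_int _ _).const_mul _
  have i34 : Integrable (fun x => ((s * c' : ℝ) : ℂ) * (star (tu k x) * tu j' x) +
      ((s * s' : ℝ) : ℂ) * (star (tu k x) * tu k' x)) := i3.add i4
  have i234 : Integrable (fun x => ((c * s' : ℝ) : ℂ) * (star (tu j x) * tu k' x) +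
      (((s * c' : ℝ) : ℂ) * (star (tu k x) * tu j' x) +
      ((s * s' : ℝ) : ℂ) * (star (tu k x) * tu k' x))) := i2.add i34
  rw [integral_add i1 i234, integral_add i2 i34, integral_add i3 i4, integral_const_mul,
    integral_const_mul, integral_const_mul, integral_const_mul, tt, tt, tt, tt]

/-- The frequencies. -/
def jj (M n : ℕ) : ℤ := (n:ℤ) - M

/-- The partner frequencies. -/
def kk (M n : ℕ) : ℤ := if 0 ≤ jj M n then jj M n - (2 * M + 1) else jj M n + (2 * M + 1)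

/-- The gaps. -/
def gap (M n : ℕ) : ℤ := 2 * M + 1 - 2 * |jj M n|

lemma gap_pos {M n : ℕ} (hn : n < 2 * M + 1) : 1 ≤ gap M n := by
  unfold gap jj
  rcases abs_cases ((n:ℤ) - M) with ⟨h1, h2⟩ | ⟨h1, h2⟩ <;> rw [h1] <;> omega

lemma kk_sub (M n : ℕ) : kk M n - jj M n = -(2 * M + 1) ∨ kk M n - jj M n = 2 * M + 1 := by
  unfold kk
  split_ifs <;> omega

lemma kk_sq (M n : ℕ) : (kk M n) ^ 2 - (jj M n) ^ 2 = (2 * M + 1) * gap M n := by
  unfold kk gap
  split_ifs with h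
  · rw [abs_of_nonneg h]; ring
  · rw [abs_of_neg (by omega)]; ring

lemma jj_ne_kk {M n m : ℕ} (hn : n < 2 * M + 1) (hm : m < 2 * M + 1) : jj M n ≠ kk M m := by
  unfold kk
  split_ifs with h <;> unfold jj at * <;> omega

lemma kk_inj {M n m : ℕ} (hn : n < 2 * M + 1) (hm : m < 2 * M + 1) :
    kk M n = kk M m ↔ n = m := by
  unfold kk
  split_ifs with h1 h2 <;> unfold jj at * <;> omega

lemma jj_inj {M n m : ℕ} : jj M n = jj M m ↔ n = m := by
  unfold jj; omega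

/-- The coefficients. -/
noncomputable def ss (M n : ℕ) : ℝ := (gap M n : ℝ)⁻¹ / 2

noncomputable def cc (M n : ℕ) : ℝ := √(1 - ss M n ^ 2)

lemma ss_bd {M n : ℕ} (hn : n < 2 * M + 1) : 0 < ss M n ∧ ss M n ≤ 1 / 2 := by
  have h1 : (1:ℝ) ≤ gap M n := by exact_mod_cast gap_pos hn
  have h2 : (gap M n : ℝ)⁻¹ ≤ 1 := inv_le_one_of_one_le₀ h1
  have h3 : 0 < (gap M n : ℝ)⁻¹ := inv_pos.2 (by linarith)
  unfold ss
  constructor
  · positivity
  · linarith

lemma cc_sq {M n : ℕ} (hn : n < 2 * M + 1) : cc M n ^ 2 + ss M n ^ 2 = 1 := by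
  obtain ⟨h1, h2⟩ := ss_bd hn
  rw [cc, Real.sq_sqrt (by nlinarith)]
  ring

lemma cc_bd {M n : ℕ} (hn : n < 2 * M + 1) : 4 / 5 ≤ cc M n ∧ cc M n ≤ 1 := by
  obtain ⟨h1, h2⟩ := ss_bd hn
  constructor
  · rw [cc]
    refine Real.le_sqrt_of_sq_le ?_
    nlinarith
  · rw [cc]
    exact Real.sqrt_le_one.2 (by nlinarith [sq_nonneg (ss M n)])

/-- The sum of the inverse gaps. -/
noncomputable def HH (M : ℕ) : ℝ := ∑ n ∈ Finset.range (2 * M + 1), (gap M n : ℝ)⁻¹

/-- The modulation. -/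
noncomputable def EE (M : ℕ) : ℝ := ∑ n ∈ Finset.range (2 * M + 1), 2 * cc M n * ss M n

lemma EE_bd (M : ℕ) : 4 / 5 * HH M ≤ EE M ∧ EE M ≤ HH M := by
  constructor
  · rw [HH, EE, Finset.mul_sum]
    refine Finset.sum_le_sum fun n hn => ?_
    rw [Finset.mem_range] at hn
    obtain ⟨h1, h2⟩ := ss_bd hn
    obtain ⟨h3, h4⟩ := cc_bd hn
    have h5 : (gap M n : ℝ)⁻¹ = 2 * ss M n := by rw [ss]; ring
    rw [h5]
    nlinarith
  · rw [HH, EE]
    refine Finset.sum_le_sum fun n hn => ?_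
    rw [Finset.mem_range] at hn
    obtain ⟨h1, h2⟩ := ss_bd hn
    obtain ⟨h3, h4⟩ := cc_bd hn
    have h5 : (gap M n : ℝ)⁻¹ = 2 * ss M n := by rw [ss]; ring
    rw [h5]
    nlinarith

lemma HH_eq (M : ℕ) : HH M = Sc.O M + Sc.O (M + 1) := by
  rw [HH, show 2 * M + 1 = M + (M + 1) by ring, Finset.sum_range_add]
  congr 1
  · rw [Sc.O]
    refine Finset.sum_congr rfl fun n hn => ?_
    rw [Finset.mem_range] at hn
    have h1 : gap M n = 2 * n + 1 := by
      unfold gap jj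
      rw [abs_of_neg (by omega)]
      ring
    rw [h1]
    push_cast
    rw [one_div]
  · rw [Sc.O, ← Finset.sum_range_reflect]
    refine Finset.sum_congr rfl fun n hn => ?_
    rw [Finset.mem_range] at hn
    have h1 : gap M (M + (M + 1 - 1 - n)) = 2 * n + 1 := by
      unfold gap jj
      rw [abs_of_nonneg (by omega)]
      omega
    rw [h1]
    push_cast
    rw [one_div]

/-- The deduction from the modulated systems. -/
theorem mod_bound {C : ℝ} (hC : 0 ≤ C) (hκ : ∀ (N : ℕ) (u g : Fin N → ℝ → ℂ),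
      (∀ n, MemLp (u n) 2) →
      (∀ n, MemLp (g n) 2) → (∀ n a b, u n b - u n a = ∫ x in a..b, g n x) →
      (∀ n m, ∫ x, star (u n x) * u m x = if n = m then (1 : ℂ) else 0) →
      π ^ 2 / 3 * ∫ x, (∑ n, ‖u n x‖ ^ 2) ^ 3 ≤ (∑ n, ∫ x, ‖g n x‖ ^ 2) +
        C * ∫ x, (deriv (fun x => √(∑ n, ‖u n x‖ ^ 2)) x) ^ 2) {M : ℕ} (hM : 1 ≤ M)
      (hE : EE M < 2 * M + 1) :
    EE M ^ 2 / 4 ≤ -(1 / 24) + C / 8 + HH M / 2 +
      C * ((2 * M + 1) * EE M ^ 2 / (4 * (2 * M + 1 - EE M))) := by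
  have hpi := pi_pos
  have h := hκ (2 * M + 1)
    (fun n => mu (cc M n) (ss M n) (jj M n) (kk M n))
    (fun n => mg (cc M n) (ss M n) (jj M n) (kk M n))
    (fun n => mu_memLp _ _ _ _) (fun n => mg_memLp _ _ _ _) (fun n a b => mu_ftc _ _ _ _ a b)
    (fun n m => by
      rw [mu_on, if_neg (jj_ne_kk n.2 m.2), if_neg (jj_ne_kk m.2 n.2).symm]
      by_cases h3 : n = m
      · subst h3
        rw [if_pos rfl, if_pos rfl, if_pos rfl]
        have h4 := cc_sq n.2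
        have h5 : ((cc M n * cc M n : ℝ) : ℂ) + ((ss M n * ss M n : ℝ) : ℂ) = 1 := by
          rw [← Complex.ofReal_add, ← pow_two, ← pow_two, h4]
          simp
        simpa using h5
      · have h4 : (n:ℕ) ≠ m := fun h5 => h3 (Fin.ext h5)
        rw [if_neg (fun h5 => h4 (jj_inj.1 h5)), if_neg (fun h5 => h4 ((kk_inj n.2 m.2).1 h5)),
          if_neg h3]
        simp)
  have hden : ∀ x, ∑ n : Fin (2 * M + 1),
      ‖mu (cc M n) (ss M n) (jj M n) (kk M n) x‖ ^ 2 =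
      dn (2 * M + 1) (EE M) (2 * M + 1) x := by
    intro x
    have e1 : ∀ n : Fin (2 * M + 1), ‖mu (cc M n) (ss M n) (jj M n) (kk M n) x‖ ^ 2 =
        (fun n : ℕ => (cosh x)⁻¹ / π * (1 + 2 * cc M n * ss M n *
          cos (2 * ((2 * M + 1 : ℤ):ℝ) * ph x))) n := by
      intro n
      rw [mu_norm _ _ _ _ _ (cc_sq n.2)]
      simp only
      congr 3
      have h1 : ((kk M n:ℝ) - (jj M n:ℝ)) = ((kk M n - jj M n : ℤ):ℝ) := by push_cast; ring
      rw [h1]
      rcases kk_sub M n with h2 | h2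
      · rw [h2, ← cos_neg]
        congr 1
        push_cast
        ring
      · rw [h2]
    rw [Finset.sum_congr rfl fun n _ => e1 n, Fin.sum_univ_eq_sum_range
      (fun n : ℕ => (cosh x)⁻¹ / π * (1 + 2 * cc M n * ss M n *
          cos (2 * ((2 * M + 1 : ℤ):ℝ) * ph x))) (2 * M + 1), ← Finset.mul_sum,
      Finset.sum_add_distrib, ← Finset.sum_mul, Finset.sum_const, Finset.card_range, nsmul_eq_mul,
      dn, EE]
    push_cast
    ring
  have hkin : ∑ n : Fin (2 * M + 1), ∫ x, ‖mg (cc M n) (ss M n) (jj M n) (kk M n) x‖ ^ 2 =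
      (2 * (M:ℝ) + 1) / 8 + 2 * ((2 * (M:ℝ) + 1) * ((2 * (M:ℝ) + 1) ^ 2 - 1) / 12) +
        (2 * M + 1) * HH M / 2 := by
    have e1 : ∀ n : Fin (2 * M + 1),
        ∫ x, ‖mg (cc M n) (ss M n) (jj M n) (kk M n) x‖ ^ 2 =
        (fun n : ℕ => (1 / 8 + 2 * ((n:ℝ) - M) ^ 2) + (2 * M + 1) / 2 * (gap M n : ℝ)⁻¹) n := by
      intro n
      have h1 : ((kk M n:ℝ) - (jj M n:ℝ)) = ((kk M n - jj M n : ℤ):ℝ) := by push_cast; ring
      have h2 := kk_sub M n
      rw [mg_integral _ _ _ _ h1 (by omega) (by omega) (by omega)]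
      have h3 : ((kk M n:ℝ)) ^ 2 - (jj M n:ℝ) ^ 2 = (2 * M + 1) * gap M n := by
        exact_mod_cast kk_sq M n
      have h4 := cc_sq n.2
      have h5 : (jj M n:ℝ) = (n:ℕ) - M := by unfold jj; push_cast; ring
      have h6 : (gap M n : ℝ) ≠ 0 := by
        have : (1:ℝ) ≤ gap M n := by exact_mod_cast gap_pos n.2
        linarith
      have h7 : (2 * M + 1) / 2 * (gap M n : ℝ)⁻¹ =
          2 * ss M n ^ 2 * ((2 * M + 1) * gap M n) := by
        rw [ss]
        field_simp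
      simp only
      rw [h7, ← h5]
      linear_combination (1 / 8 + 2 * (jj M n:ℝ) ^ 2) * h4 + 2 * ss M n ^ 2 * h3
    rw [Finset.sum_congr rfl fun n _ => e1 n, Fin.sum_univ_eq_sum_range
      (fun n : ℕ => (1 / 8 + 2 * ((n:ℝ) - M) ^ 2) + (2 * M + 1) / 2 * (gap M n : ℝ)⁻¹)
      (2 * M + 1), Finset.sum_add_distrib, Finset.sum_add_distrib, ← Finset.mul_sum,
      ← Finset.mul_sum, sum_sq, Finset.sum_const, Finset.card_range, nsmul_eq_mul, HH]
    push_cast
    ring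
  simp only [hden] at h
  rw [hkin, cube_int _ _ (by omega)] at h
  have hE0 : 0 ≤ EE M := by
    have h1 := (EE_bd M).1
    have h2 : 0 ≤ HH M := by
      rw [HH_eq]
      exact add_nonneg (Sc.O_nonneg _) (Sc.O_nonneg _)
    linarith
  have hW := W_bound hE0 hE (m := 2 * M + 1) (by omega)
  have h2 := mul_le_mul_of_nonneg_left hW hC
  have hN : (0:ℝ) < 2 * M + 1 := by positivity
  have h3 := h.trans (add_le_add_right h2 _)
  have h4 := div_le_div_of_nonneg_right h3 hN.le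
  have hne : (2 * (M:ℝ) + 1 - EE M) ≠ 0 := by linarith
  have e5 : π ^ 2 / 3 * (((2 * (M:ℝ) + 1) ^ 3 + 3 / 2 * (2 * M + 1) * EE M ^ 2) / (2 * π ^ 2)) /
      (2 * M + 1) = (2 * (M:ℝ) + 1) ^ 2 / 6 + EE M ^ 2 / 4 := by
    field_simp
    ring
  have e6 : ((2 * (M:ℝ) + 1) / 8 + 2 * ((2 * (M:ℝ) + 1) * ((2 * (M:ℝ) + 1) ^ 2 - 1) / 12) +
        (2 * M + 1) * HH M / 2 + C * ((2 * (M:ℝ) + 1) / 8 +
          (((2 * M + 1 : ℤ)):ℝ) ^ 2 * EE M ^ 2 / (4 * (2 * M + 1 - EE M)))) / (2 * M + 1) =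
      1 / 8 + ((2 * (M:ℝ) + 1) ^ 2 - 1) / 6 + HH M / 2 + C * (1 / 8 +
        (2 * M + 1) * EE M ^ 2 / (4 * (2 * M + 1 - EE M))) := by
    push_cast
    field_simp
    ring
  rw [e5, e6] at h4
  linarith

lemma O_top : Tendsto Sc.O atTop atTop := by
  have h1 := tendsto_sum_range_one_div_nat_succ_atTop
  have h2 := h1.const_mul_atTop (show (0:ℝ) < 1 / 2 by norm_num)
  refine tendsto_atTop_mono (fun l => ?_) h2
  rw [Sc.O, Finset.mul_sum]
  refine Finset.sum_le_sum fun j _ => ?_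
  rw [div_mul_div_comm, one_mul]
  exact one_div_le_one_div_of_le (by positivity) (by linarith [(Nat.cast_nonneg j : (0:ℝ) ≤ j)])

lemma O_sqrt (l : ℕ) : Sc.O l ≤ 2 * √l := by
  induction l with
  | zero => simp [Sc.O_zero]
  | succ l ih =>
    rw [Sc.O_succ]
    have hl : (0:ℝ) ≤ l := Nat.cast_nonneg l
    have h1 : √(l:ℝ) ^ 2 = l := Real.sq_sqrt hl
    have h2 : √((l + 1 : ℕ):ℝ) ^ 2 = l + 1 := by rw [Real.sq_sqrt (by positivity)]; push_cast; ring
    have h3 := Real.sqrt_nonneg (l:ℝ)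
    have h4 : 0 < √((l + 1 : ℕ):ℝ) := Real.sqrt_pos.2 (by positivity)
    set a := √(l:ℝ)
    set b := √((l + 1 : ℕ):ℝ)
    have h5 : a ≤ l + 1 := by nlinarith [sq_nonneg (a - 1)]
    have h6 : b ≤ l + 1 := by nlinarith [sq_nonneg (b - 1)]
    have h7 : (b - a) * (b + a) = 1 := by nlinarith
    have h8 : 1 / (2 * (l:ℝ) + 1) ≤ 2 * (b - a) := by
      rw [div_le_iff₀ (by positivity)]
      have h9 : 0 < b - a := by
        by_contra hcon
        nlinarith
      nlinarith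
    linarith

/-- The semiclassical constant is not admissible if the coefficient is less than one. -/
theorem not_lt_one {C : ℝ} (hC : 0 ≤ C) (hC1 : C < 1)
    (hκ : ∀ (N : ℕ) (u g : Fin N → ℝ → ℂ),
      (∀ n, MemLp (u n) 2) →
      (∀ n, MemLp (g n) 2) → (∀ n a b, u n b - u n a = ∫ x in a..b, g n x) →
      (∀ n m, ∫ x, star (u n x) * u m x = if n = m then (1 : ℂ) else 0) →
      π ^ 2 / 3 * ∫ x, (∑ n, ‖u n x‖ ^ 2) ^ 3 ≤ (∑ n, ∫ x, ‖g n x‖ ^ 2) +
        C * ∫ x, (deriv (fun x => √(∑ n, ‖u n x‖ ^ 2)) x) ^ 2) : False := by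
  set δ : ℝ := (1 - C) / 2 with hδ
  have hδ0 : 0 < δ := by rw [hδ]; linarith
  have hδ1 : δ ≤ 1 / 2 := by rw [hδ]; linarith
  set K : ℝ := 1 + 16 / δ with hK
  have e1 := O_top.eventually_ge_atTop K
  obtain ⟨M₁, hM₁⟩ := exists_nat_ge (16 / δ ^ 2)
  obtain ⟨M, ⟨hM0, hM2⟩, hM1⟩ := (((e1.and (eventually_ge_atTop M₁))).and
    (eventually_ge_atTop 1)).exists
  have hH := HH_eq M
  obtain ⟨hE1, hE2⟩ := EE_bd M
  have hHK : K ≤ HH M := by
    rw [hH]
    have := Sc.O_nonneg (M + 1)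
    linarith
  have hHs : HH M ≤ δ * (2 * M + 1) := by
    have h1 := O_sqrt (M + 1)
    have h2 := Sc.O_mono (Nat.le_succ M)
    have h3 : HH M ≤ 4 * √((M + 1 : ℕ):ℝ) := by rw [hH]; linarith
    have h4 : √((M + 1 : ℕ):ℝ) ^ 2 = M + 1 := by rw [Real.sq_sqrt (by positivity)]; push_cast; ring
    have h5 : 0 < √((M + 1 : ℕ):ℝ) := Real.sqrt_pos.2 (by positivity)
    have h6 : 16 / δ ^ 2 ≤ M + 1 := by
      have : (M₁:ℝ) ≤ M := by exact_mod_cast hM2
      linarith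
    have h7 : 4 / δ ≤ √((M + 1 : ℕ):ℝ) := by
      refine Real.le_sqrt_of_sq_le ?_
      push_cast
      rw [div_pow]
      norm_num
      exact h6
    rw [div_le_iff₀ hδ0] at h7
    have hM : (0:ℝ) ≤ M := Nat.cast_nonneg M
    nlinarith
  have hN : (0:ℝ) < 2 * M + 1 := by positivity
  have hEN : EE M ≤ δ * (2 * M + 1) := hE2.trans hHs
  have hEN' : EE M < 2 * M + 1 := by nlinarith
  have h := mod_bound hC hκ hM1 hEN'
  have hK0 : 0 < 16 / δ := by positivity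
  have hK1 : 1 ≤ K := by rw [hK]; linarith
  have hH0 : 1 ≤ HH M := hK1.trans hHK
  -- the coefficient
  have h1 : C * ((2 * M + 1) * EE M ^ 2 / (4 * (2 * M + 1 - EE M))) ≤
      (1 - δ) * (EE M ^ 2 / 4) := by
    have h2 : 0 < 2 * (M:ℝ) + 1 - EE M := by linarith
    have h3 : C * ((2 * M + 1) * EE M ^ 2 / (4 * (2 * M + 1 - EE M))) =
        (C * (2 * M + 1) / (2 * M + 1 - EE M)) * (EE M ^ 2 / 4) := by
      field_simp
    rw [h3]
    refine mul_le_mul_of_nonneg_right ?_ (by positivity)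
    rw [div_le_iff₀ h2]
    have h4 : C ≤ (1 - δ) * (1 - δ) := by rw [hδ]; nlinarith
    nlinarith
  have h2 : δ * (EE M ^ 2 / 4) ≤ HH M / 2 + 1 / 8 := by nlinarith
  have h3 : (4 / 5 * HH M) ^ 2 ≤ EE M ^ 2 := pow_le_pow_left₀ (by positivity) hE1 2
  have h4 : δ * ((4 / 5 * HH M) ^ 2 / 4) ≤ HH M / 2 + 1 / 8 := by nlinarith
  have h5 : 16 < δ * HH M + δ * 0 := by
    have h6 : δ * K ≤ δ * HH M := mul_le_mul_of_nonneg_left hHK hδ0.le
    have h7 : δ * K = δ + 16 := by rw [hK]; field_simp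
    nlinarith
  nlinarith

end Pool.Agent.TH199.LT.Tst
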