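import Mathlib

set_option autoImplicit false

open MeasureTheory Set Filter Topology

namespace Pool.Agent.TH199.LT

/-- Absolute continuity on all compact intervals. -/
def LAC (f : ℝ → ℝ) : Prop := ∀ a b, AbsolutelyContinuousOnInterval f a b

namespace LAC

lemma add {f g : ℝ → ℝ} (hf : LAC f) (hg : LAC g) : LAC (fun x => f x + g x) :=
  fun a b => (hf a b).fun_add (hg a b)

lemma mul {f g : ℝ → ℝ} (hf : LAC f) (hg : LAC g) : LAC (fun x => f x * g x) :=
  fun a b => (hf a b).fun_mul (hg a b)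

lemma const_mul {f : ℝ → ℝ} (hf : LAC f) (c : ℝ) : LAC (fun x => c * f x) :=
  fun a b => (hf a b).const_mul c

lemma const (c : ℝ) : LAC (fun _ => c) := fun a b => by
  have : ContDiffOn ℝ 1 (fun _ : ℝ => c) (uIcc a b) := contDiffOn_const
  exact this.absolutelyContinuousOnInterval

lemma sum {ι : Type*} (s : Finset ι) {f : ι → ℝ → ℝ} (hf : ∀ i ∈ s, LAC (f i)) :
    LAC (fun x => ∑ i ∈ s, f i x) := by
  classical
  induction s using Finset.induction_on with
  | empty => simpa using const 0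
  | insert a s ha ih =>
    have h1 := (hf a (Finset.mem_insert_self a s)).add
      (ih fun i hi => hf i (Finset.mem_insert_of_mem hi))
    have e : (fun x => ∑ i ∈ insert a s, f i x) = fun x => f a x + ∑ i ∈ s, f i x := by
      funext x
      rw [Finset.sum_insert ha]
    rw [e]
    exact h1

lemma of_deriv {f f' : ℝ → ℝ} (hf : ∀ x, HasDerivAt f (f' x) x) (hc : Continuous f') : LAC f := by
  intro a b
  have h1 : ContDiff ℝ 1 f := by
    rw [contDiff_one_iff_deriv]
    refine ⟨fun x => (hf x).differentiableAt, ?_⟩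
    have : deriv f = f' := funext fun x => (hf x).deriv
    rw [this]
    exact hc
  exact h1.contDiffOn.absolutelyContinuousOnInterval

lemma of_integral {f f' : ℝ → ℝ} (hi : ∀ a b, IntervalIntegrable f' volume a b)
    (hf : ∀ a b, f b - f a = ∫ x in a..b, f' x) : LAC f := by
  intro a b
  have h1 := (hi a b).absolutelyContinuousOnInterval_intervalIntegral (c := a) left_mem_uIcc
  have h2 : AbsolutelyContinuousOnInterval (fun _ : ℝ => f a) a b := const (f a) a b
  have h3 := h2.fun_add h1
  have e : (fun x => f a + ∫ v in a..x, f' v) = f := by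
    funext x
    rw [← hf a x]
    ring
  rwa [e] at h3

/-- The fundamental theorem of calculus. -/
lemma ftc {f f' : ℝ → ℝ} (hf : LAC f) (hd : ∀ᵐ x, HasDerivAt f (f' x) x) (a b : ℝ) :
    ∫ x in a..b, f' x = f b - f a := by
  rw [← (hf a b).integral_deriv_eq_sub]
  refine intervalIntegral.integral_congr_ae ?_
  filter_upwards [hd] with x hx _
  exact hx.deriv.symm

/-- The total integral of the derivative. -/
lemma integral_eq {f f' : ℝ → ℝ} (hf : LAC f) (hd : ∀ᵐ x, HasDerivAt f (f' x) x)
    (hi : Integrable f') (hT : Tendsto f atTop (𝓝 0)) (hB : Tendsto f atBot (𝓝 0)) :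
    ∫ x, f' x = 0 := by
  have h1 : Tendsto (fun n : ℝ => ∫ x in (-n)..n, f' x) atTop (𝓝 (∫ x, f' x)) :=
    intervalIntegral_tendsto_integral hi tendsto_neg_atTop_atBot tendsto_id
  have h2 : Tendsto (fun n : ℝ => ∫ x in (-n)..n, f' x) atTop (𝓝 (0 - 0)) := by
    simp only [hf.ftc hd]
    exact hT.sub (hB.comp tendsto_neg_atTop_atBot)
  rw [sub_zero] at h2
  exact tendsto_nhds_unique h1 h2

end LAC

/-- A function controlled by an absolutely continuous one. -/
lemma ac_of_dist_le {f F : ℝ → ℝ} {a b C : ℝ} (hf : AbsolutelyContinuousOnInterval f a b)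
    (h : ∀ x ∈ uIcc a b, ∀ y ∈ uIcc a b, dist (F x) (F y) ≤ C * dist (f x) (f y)) :
    AbsolutelyContinuousOnInterval F a b := by
  unfold AbsolutelyContinuousOnInterval at hf ⊢
  have h1 := hf.const_mul |C|
  rw [mul_zero] at h1
  refine squeeze_zero' (Eventually.of_forall fun E => Finset.sum_nonneg fun i _ => dist_nonneg)
    ?_ h1
  rw [eventually_inf_principal]
  refine Eventually.of_forall fun E hE => ?_
  rw [Finset.mul_sum]
  refine Finset.sum_le_sum fun i hi => ?_
  have h2 := hE.1 i hi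
  refine (h _ h2.1 _ h2.2).trans ?_
  exact mul_le_mul_of_nonneg_right (le_abs_self C) dist_nonneg

/-- The inverse of a positive absolutely continuous function. -/
lemma ac_inv {f : ℝ → ℝ} {a b : ℝ} (hf : AbsolutelyContinuousOnInterval f a b)
    (hpos : ∀ x ∈ uIcc a b, 0 < f x) : AbsolutelyContinuousOnInterval (fun x => (f x)⁻¹) a b := by
  obtain ⟨z, hz, hmin⟩ := isCompact_uIcc.exists_isMinOn nonempty_uIcc hf.continuousOn
  have hm := hpos z hz
  refine ac_of_dist_le (C := (f z)⁻¹ * (f z)⁻¹) hf fun x hx y hy => ?_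
  have hx1 : f z ≤ f x := hmin hx
  have hy1 : f z ≤ f y := hmin hy
  have hx0 := hpos x hx
  have hy0 := hpos y hy
  rw [Real.dist_eq, Real.dist_eq]
  have e : (f x)⁻¹ - (f y)⁻¹ = ((f x)⁻¹ * (f y)⁻¹) * (f y - f x) := by field_simp
  rw [e, abs_mul, abs_sub_comm (f y) (f x)]
  refine mul_le_mul_of_nonneg_right ?_ (abs_nonneg _)
  rw [abs_of_pos (by positivity)]
  exact mul_le_mul (inv_anti₀ hm hx1) (inv_anti₀ hm hy1) (by positivity) (by positivity)

/-- A function with zero derivative almost everywhere. -/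
lemma ac_const {f : ℝ → ℝ} {a b : ℝ} (hf : AbsolutelyContinuousOnInterval f a b)
    (h0 : ∀ᵐ x, x ∈ uIcc a b → HasDerivAt f 0 x) : ∀ x ∈ uIcc a b, ∀ y ∈ uIcc a b, f x = f y := by
  obtain ⟨C, hC⟩ := hf.const_of_ae_hasDerivAt_zero h0
  intro x hx y hy
  rw [hC x hx, hC y hy]

end Pool.Agent.TH199.LT
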