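import Pool.Agent.Helper490.CalibAlg

set_option autoImplicit false

open Finset Pool.Helper490.Calib

namespace Pool.Agent.TH199.LT

variable {ι : Type*} (S : Finset ι) (w : ι → ℝ) (α β : ι → ℕ)

variable {n : ℕ}

/-- The pointwise inequality in coordinates, with both remainders. -/
theorem pointwise' (κ c0 c1 : ℝ) (e c d : Fin n → ℝ)
    (hsym : ∀ s t, P S w α β s t = P S w α β t s)
    (hK : ∀ i k j, 4 * κ ^ 2 * (P S w α β (e j) (e i) * P S w α β (e j) (e k)) +
      κ * D S w α β (e i) (e k) (e j) + c0 + c1 * (e i - e k) ^ 2 ≤ 0) :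
    κ * ∑ q ∈ S, w q *
      ((2 * (∑ i, e i ^ α q * (c i * d i)) + ∑ l ∈ range (α q),
          (∑ i, e i ^ l * c i ^ 2) * (∑ i, e i ^ (α q - 1 - l) * c i ^ 2)) *
        (∑ i, e i ^ β q * c i ^ 2) +
       (∑ i, e i ^ α q * c i ^ 2) * (2 * (∑ i, e i ^ β q * (c i * d i)) + ∑ l ∈ range (β q),
          (∑ i, e i ^ l * c i ^ 2) * (∑ i, e i ^ (β q - 1 - l) * c i ^ 2))) +
      c0 * (∑ i, c i ^ 2) ^ 3 +
      c1 * (2 * (∑ i, c i ^ 2) * ((∑ i, c i ^ 2) * (∑ i, e i ^ 2 * c i ^ 2) -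
        (∑ i, e i * c i ^ 2) ^ 2)) +
      ∑ i, (d i - c i * (2 * κ * ∑ j, P S w α β (e i) (e j) * c j ^ 2)) ^ 2 ≤ ∑ i, d i ^ 2 := by
  set p : Fin n → ℝ := fun i => c i ^ 2 with hp
  set η : Fin n → ℝ := fun i => 2 * κ * ∑ j, P S w α β (e i) (e j) * p j with hη
  -- first order part
  have h1 : κ * ∑ q ∈ S, w q * ((2 * (∑ i, e i ^ α q * (c i * d i))) * (∑ i, e i ^ β q * p i) +
      (∑ i, e i ^ α q * p i) * (2 * (∑ i, e i ^ β q * (c i * d i)))) =
      ∑ i, 2 * (c i * d i) * η i := by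
    have hA : ∀ q, (2 * (∑ i, e i ^ α q * (c i * d i))) * (∑ i, e i ^ β q * p i) =
        ∑ i, ∑ j, 2 * (c i * d i) * p j * (e i ^ α q * e j ^ β q) := by
      intro q
      rw [mul_assoc, sum_mul_sum, mul_sum]
      refine sum_congr rfl fun i _ => ?_
      rw [mul_sum]
      refine sum_congr rfl fun j _ => ?_
      ring
    have hB : ∀ q, (∑ i, e i ^ α q * p i) * (2 * (∑ i, e i ^ β q * (c i * d i))) =
        ∑ i, ∑ j, 2 * (c i * d i) * p j * (e j ^ α q * e i ^ β q) := by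
      intro q
      rw [mul_left_comm, mul_comm (∑ i, e i ^ α q * p i), sum_mul_sum, mul_sum]
      refine sum_congr rfl fun i _ => ?_
      rw [mul_sum]
      refine sum_congr rfl fun j _ => ?_
      ring
    simp_rw [hA, hB, ← sum_add_distrib]
    rw [swap2, mul_sum]
    refine sum_congr rfl fun i _ => ?_
    rw [hη]
    simp only
    rw [mul_sum, mul_sum, mul_sum]
    refine sum_congr rfl fun j _ => ?_
    have hs := hsym (e i) (e j)
    have e1 : ∑ q ∈ S, w q * (2 * (c i * d i) * p j * (e i ^ α q * e j ^ β q) +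
        2 * (c i * d i) * p j * (e j ^ α q * e i ^ β q)) =
        2 * (c i * d i) * p j * (P S w α β (e i) (e j) + P S w α β (e j) (e i)) := by
      simp only [P, ← sum_add_distrib, mul_sum]
      refine sum_congr rfl fun q _ => ?_
      ring
    rw [e1, ← hs]
    ring
  -- second order part
  have h2 : κ * ∑ q ∈ S, w q * ((∑ l ∈ range (α q),
          (∑ i, e i ^ l * p i) * (∑ i, e i ^ (α q - 1 - l) * p i)) * (∑ i, e i ^ β q * p i) +
       (∑ i, e i ^ α q * p i) * (∑ l ∈ range (β q),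
          (∑ i, e i ^ l * p i) * (∑ i, e i ^ (β q - 1 - l) * p i))) =
      ∑ j, ∑ i, ∑ k, p j * p i * p k * (κ * D S w α β (e i) (e k) (e j)) := by
    have hA : ∀ q, (∑ l ∈ range (α q),
          (∑ i, e i ^ l * p i) * (∑ i, e i ^ (α q - 1 - l) * p i)) * (∑ i, e i ^ β q * p i) +
       (∑ i, e i ^ α q * p i) * (∑ l ∈ range (β q),
          (∑ i, e i ^ l * p i) * (∑ i, e i ^ (β q - 1 - l) * p i)) =
        ∑ j, ∑ i, ∑ k, p j * p i * p k *
          (e j ^ β q * gs (α q) (e i) (e k) + e j ^ α q * gs (β q) (e i) (e k)) := by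
      intro q
      rw [conv, conv, mul_comm (∑ i, ∑ k, p i * p k * gs (α q) (e i) (e k)), sum_mul, sum_mul,
        ← sum_add_distrib]
      refine sum_congr rfl fun j _ => ?_
      rw [mul_sum, mul_sum, ← sum_add_distrib]
      refine sum_congr rfl fun i _ => ?_
      rw [mul_sum, mul_sum, ← sum_add_distrib]
      refine sum_congr rfl fun k _ => ?_
      ring
    simp_rw [hA]
    rw [swap3, mul_sum]
    refine sum_congr rfl fun j _ => ?_
    rw [mul_sum]
    refine sum_congr rfl fun i _ => ?_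
    rw [mul_sum]
    refine sum_congr rfl fun k _ => ?_
    simp only [D, mul_sum]
    refine sum_congr rfl fun q _ => ?_
    ring
  -- the square
  have h3 : ∑ i, p i * η i ^ 2 = ∑ j, ∑ i, ∑ k, p j * p i * p k *
      (4 * κ ^ 2 * (P S w α β (e j) (e i) * P S w α β (e j) (e k))) := by
    refine sum_congr rfl fun j _ => ?_
    rw [hη]
    simp only
    rw [mul_pow, pow_two (∑ i, P S w α β (e j) (e i) * p i), sum_mul_sum, mul_sum, mul_sum]
    refine sum_congr rfl fun i _ => ?_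
    rw [mul_sum, mul_sum]
    refine sum_congr rfl fun k _ => ?_
    ring
  have h4 : c0 * (∑ i, p i) ^ 3 = ∑ j, ∑ i, ∑ k, p j * p i * p k * c0 := by
    rw [pow_succ, pow_two, sum_mul_sum, sum_mul, mul_sum]
    refine sum_congr rfl fun j _ => ?_
    rw [sum_mul_sum, mul_sum]
    refine sum_congr rfl fun i _ => ?_
    rw [mul_sum]
    refine sum_congr rfl fun k _ => ?_
    ring
  have h4' : c1 * (2 * (∑ i, p i) * ((∑ i, p i) * (∑ i, e i ^ 2 * p i) -
        (∑ i, e i * p i) ^ 2)) =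
      ∑ j, ∑ i, ∑ k, p j * p i * p k * (c1 * (e i - e k) ^ 2) := by
    have hin : ∑ i, ∑ k, p i * p k * (e i - e k) ^ 2 =
        2 * ((∑ i, p i) * (∑ i, e i ^ 2 * p i) - (∑ i, e i * p i) ^ 2) := by
      have i1 : ∑ i, ∑ k, p i * p k * (e i - e k) ^ 2 =
          ∑ i, ∑ k, ((e i ^ 2 * p i) * p k + p i * (e k ^ 2 * p k) -
            2 * ((e i * p i) * (e k * p k))) :=
        sum_congr rfl fun i _ => sum_congr rfl fun k _ => by ring
      rw [i1]
      simp only [sum_sub_distrib, sum_add_distrib, ← mul_sum, ← sum_mul]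
      ring
    have i2 : ∑ j, ∑ i, ∑ k, p j * p i * p k * (c1 * (e i - e k) ^ 2) =
        ∑ j, p j * (c1 * ∑ i, ∑ k, p i * p k * (e i - e k) ^ 2) := by
      refine sum_congr rfl fun j _ => ?_
      rw [mul_sum, mul_sum]
      refine sum_congr rfl fun i _ => ?_
      rw [mul_sum, mul_sum]
      refine sum_congr rfl fun k _ => ?_
      ring
    rw [i2, ← sum_mul, hin]
    ring
  have hsplit : κ * ∑ q ∈ S, w q *
      ((2 * (∑ i, e i ^ α q * (c i * d i)) + ∑ l ∈ range (α q),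
          (∑ i, e i ^ l * p i) * (∑ i, e i ^ (α q - 1 - l) * p i)) *
        (∑ i, e i ^ β q * p i) +
       (∑ i, e i ^ α q * p i) * (2 * (∑ i, e i ^ β q * (c i * d i)) + ∑ l ∈ range (β q),
          (∑ i, e i ^ l * p i) * (∑ i, e i ^ (β q - 1 - l) * p i))) =
      ∑ i, 2 * (c i * d i) * η i +
      ∑ j, ∑ i, ∑ k, p j * p i * p k * (κ * D S w α β (e i) (e k) (e j)) := by
    rw [← h1, ← h2, ← mul_add, ← sum_add_distrib]
    congr 1
    refine sum_congr rfl fun q _ => ?_
    ring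
  have h5 : ∑ i, 2 * (c i * d i) * η i + ∑ i, (d i - c i * η i) ^ 2 =
      ∑ i, d i ^ 2 + ∑ i, p i * η i ^ 2 := by
    rw [← sum_add_distrib, ← sum_add_distrib]
    refine sum_congr rfl fun i _ => ?_
    have : p i = c i ^ 2 := rfl
    rw [this]
    ring
  have hp0 : ∀ i, 0 ≤ p i := fun i => sq_nonneg _
  have h6 : ∑ i, p i * η i ^ 2 +
      ∑ j, ∑ i, ∑ k, p j * p i * p k * (κ * D S w α β (e i) (e k) (e j)) +
      c0 * (∑ i, p i) ^ 3 + c1 * (2 * (∑ i, p i) * ((∑ i, p i) * (∑ i, e i ^ 2 * p i) -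
        (∑ i, e i * p i) ^ 2)) ≤ 0 := by
    rw [h3, h4, h4', ← sum_add_distrib, ← sum_add_distrib, ← sum_add_distrib]
    refine sum_nonpos fun j _ => ?_
    rw [← sum_add_distrib, ← sum_add_distrib, ← sum_add_distrib]
    refine sum_nonpos fun i _ => ?_
    rw [← sum_add_distrib, ← sum_add_distrib, ← sum_add_distrib]
    refine sum_nonpos fun k _ => ?_
    have hh := hK i k j
    have hpos : 0 ≤ p j * p i * p k := mul_nonneg (mul_nonneg (hp0 j) (hp0 i)) (hp0 k)
    have : p j * p i * p k * (4 * κ ^ 2 * (P S w α β (e j) (e i) * P S w α β (e j) (e k))) +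
        p j * p i * p k * (κ * D S w α β (e i) (e k) (e j)) + p j * p i * p k * c0 +
        p j * p i * p k * (c1 * (e i - e k) ^ 2) =
        p j * p i * p k * (4 * κ ^ 2 * (P S w α β (e j) (e i) * P S w α β (e j) (e k)) +
        κ * D S w α β (e i) (e k) (e j) + c0 + c1 * (e i - e k) ^ 2) := by ring
    rw [this]
    exact mul_nonpos_of_nonneg_of_nonpos hpos hh
  rw [hsplit]
  linarith

end Pool.Agent.TH199.LT
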