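import Pool.Agent.TH199.LT.SysH

set_option autoImplicit false
set_option linter.unusedSectionVars false
set_option linter.deprecated false

open MeasureTheory Set Filter Topology Real
open scoped RealInnerProductSpace
open Pool.Helper490.Calib

namespace Pool.Agent.TH199.LT

variable {E : Type*} [NormedAddCommGroup E] [InnerProductSpace ℝ E] [FiniteDimensional ℝ E]

namespace SysH

variable {u g : ℝ → E} (h : SysH u g)
include h

lemma rho_top : Tendsto (fun x => ‖u x‖ ^ 2) atTop (𝓝 0) := by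
  have h1 : Tendsto (fun x => ∫ t in (0:ℝ)..x, 2 * ⟪u t, g t⟫) atTop
      (𝓝 (∫ t in Ioi (0:ℝ), 2 * ⟪u t, g t⟫)) :=
    intervalIntegral_tendsto_integral_Ioi 0 h.rho'_int.integrableOn tendsto_id
  have h2 : Tendsto (fun x => ‖u x‖ ^ 2) atTop
      (𝓝 ((∫ t in Ioi (0:ℝ), 2 * ⟪u t, g t⟫) + ‖u 0‖ ^ 2)) := by
    have h3 := h1.add_const (‖u 0‖ ^ 2)
    refine h3.congr fun x => ?_
    rw [h.rho_ftc]
    ring
  have h4 := IntegrableAtFilter.eq_zero_of_tendsto (μ := volume)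
    ⟨univ, univ_mem, h.hui.integrableOn⟩ (fun s hs => ?_) h2
  · rwa [h4] at h2
  · obtain ⟨a, ha⟩ := mem_atTop_sets.1 hs
    exact measure_eq_top_mono (s := Ici a) (fun y hy => ha y hy) (by simp)

lemma rho_bot : Tendsto (fun x => ‖u x‖ ^ 2) atBot (𝓝 0) := by
  have h1 : Tendsto (fun x => ∫ t in x..(0:ℝ), 2 * ⟪u t, g t⟫) atBot
      (𝓝 (∫ t in Iic (0:ℝ), 2 * ⟪u t, g t⟫)) :=
    intervalIntegral_tendsto_integral_Iic 0 h.rho'_int.integrableOn tendsto_id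
  have h2 : Tendsto (fun x => ‖u x‖ ^ 2) atBot
      (𝓝 (‖u 0‖ ^ 2 - ∫ t in Iic (0:ℝ), 2 * ⟪u t, g t⟫)) := by
    have h3 := h1.const_sub (‖u 0‖ ^ 2)
    refine h3.congr fun x => ?_
    rw [h.rho_ftc]
    ring
  have h4 := IntegrableAtFilter.eq_zero_of_tendsto (μ := volume)
    ⟨univ, univ_mem, h.hui.integrableOn⟩ (fun s hs => ?_) h2
  · rwa [h4] at h2
  · obtain ⟨a, ha⟩ := mem_atBot_sets.1 hs
    exact measure_eq_top_mono (s := Iic a) (fun y hy => ha y hy) (by simp)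

lemma rho_bdd : ∃ M, 0 ≤ M ∧ ∀ x, ‖u x‖ ^ 2 ≤ M := by
  refine ⟨‖u 0‖ ^ 2 + ∫ x, |2 * ⟪u x, g x⟫|, by positivity, fun x => ?_⟩
  have h1 := h.rho_ftc 0 x
  have h2 : |∫ t in (0:ℝ)..x, 2 * ⟪u t, g t⟫| ≤ ∫ x, |2 * ⟪u x, g x⟫| := by
    refine (intervalIntegral.norm_integral_le_integral_norm_uIoc (f := fun t => 2 * ⟪u t, g t⟫)).trans
      ?_
    exact setIntegral_le_integral h.rho'_int.abs (Eventually.of_forall fun y => abs_nonneg _)
  have h3 := le_abs_self (∫ t in (0:ℝ)..x, 2 * ⟪u t, g t⟫)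
  linarith

lemma rho3_int : Integrable (fun x => (‖u x‖ ^ 2) ^ 3) := by
  obtain ⟨M, hM0, hM⟩ := h.rho_bdd
  have hc : Continuous fun x => (‖u x‖ ^ 2) ^ 3 := (h.uc.norm.pow 2).pow 3
  refine (h.hui.const_mul (M ^ 2)).mono' hc.aestronglyMeasurable (Eventually.of_forall fun x => ?_)
  have h0 : 0 ≤ ‖u x‖ ^ 2 := sq_nonneg _
  rw [Real.norm_eq_abs, abs_of_nonneg (by positivity)]
  calc (‖u x‖ ^ 2) ^ 3 = (‖u x‖ ^ 2) ^ 2 * ‖u x‖ ^ 2 := by ring
    _ ≤ M ^ 2 * ‖u x‖ ^ 2 :=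
      mul_le_mul_of_nonneg_right (pow_le_pow_left₀ h0 (hM x) 2) h0

/-- The variance term. -/
noncomputable def _root_.Pool.Agent.TH199.LT.vr (u : ℝ → E) (x : ℝ) : ℝ :=
  2 * ‖u x‖ ^ 2 * (‖u x‖ ^ 2 * mo u 2 x - mo u 1 x ^ 2)

lemma vr_cont : Continuous (vr u) := by
  unfold vr
  exact (continuous_const.mul (h.uc.norm.pow 2)).mul
    (((h.uc.norm.pow 2).mul (h.mo_cont 2)).sub ((h.mo_cont 1).pow 2))

lemma vr_int : Integrable (vr u) := by
  obtain ⟨M, hM0, hM⟩ := h.rho_bdd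
  refine (h.hui.const_mul (4 * M ^ 2)).mono' h.vr_cont.aestronglyMeasurable
    (Eventually.of_forall fun x => ?_)
  have h0 : 0 ≤ ‖u x‖ ^ 2 := sq_nonneg _
  have h1 := h.mo_bound x 1
  have h2 := h.mo_bound x 2
  have hMx := hM x
  rw [Real.norm_eq_abs, vr, abs_mul, abs_mul, abs_two, abs_of_nonneg h0]
  have h3 : |‖u x‖ ^ 2 * mo u 2 x - mo u 1 x ^ 2| ≤ 2 * M ^ 2 := by
    refine (abs_sub _ _).trans ?_
    rw [abs_mul, abs_of_nonneg h0, abs_pow]
    have i1 : ‖u x‖ ^ 2 * |mo u 2 x| ≤ M * M :=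
      mul_le_mul hMx (h2.trans hMx) (abs_nonneg _) hM0
    have i2 : |mo u 1 x| ^ 2 ≤ M ^ 2 := pow_le_pow_left₀ (abs_nonneg _) (h1.trans hMx) 2
    nlinarith
  calc 2 * ‖u x‖ ^ 2 * |‖u x‖ ^ 2 * mo u 2 x - mo u 1 x ^ 2| ≤ 2 * ‖u x‖ ^ 2 * (2 * M ^ 2) :=
        mul_le_mul_of_nonneg_left h3 (by positivity)
    _ = 4 * M ^ 2 * ‖u x‖ ^ 2 := by ring

section kernel

variable {ι : Type*} (S : Finset ι) (w : ι → ℝ) (α β : ι → ℕ) (κ : ℝ)

/-- The calibration field. -/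
noncomputable def _root_.Pool.Agent.TH199.LT.VV (u : ℝ → E) (S : Finset ι) (w : ι → ℝ)
    (α β : ι → ℕ) (κ : ℝ) (x : ℝ) : E :=
  ∑ q ∈ S, (2 * κ * w q * mo u (β q) x) • (Bop u x ^ α q) (u x)

lemma VV_cont : Continuous (VV u S w α β κ) := by
  unfold VV
  refine continuous_finset_sum _ fun q _ => ?_
  exact (continuous_const.mul (h.mo_cont _)).smul ((h.Bpow_cont _).clm_apply h.uc)

lemma VV_norm (M : ℝ) (hM : ∀ x, ‖u x‖ ^ 2 ≤ M) (x : ℝ) : ‖VV u S w α β κ x‖ ≤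
    (∑ q ∈ S, |2 * κ * w q| * M) * ‖u x‖ := by
  unfold VV
  rw [Finset.sum_mul]
  refine (norm_sum_le _ _).trans (Finset.sum_le_sum fun q _ => ?_)
  rw [norm_smul, Real.norm_eq_abs, abs_mul]
  have h1 := (h.mo_bound x (β q)).trans (hM x)
  have h2 : ‖(Bop u x ^ α q) (u x)‖ ≤ ‖u x‖ :=
    le_of_sq_le_sq (h.Bpow_norm x (α q)) (norm_nonneg _)
  have hM0 : 0 ≤ M := (sq_nonneg _).trans (hM x)
  exact mul_le_mul (mul_le_mul_of_nonneg_left h1 (abs_nonneg _)) h2 (norm_nonneg _)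
    (by positivity)

lemma VV_memLp : MemLp (VV u S w α β κ) 2 := by
  obtain ⟨M, hM0, hM⟩ := h.rho_bdd
  exact h.hu2.of_le_mul (h.VV_cont S w α β κ).aestronglyMeasurable
    (Eventually.of_forall fun x => h.VV_norm S w α β κ M hM x)

lemma gV_int : Integrable (fun x => ‖g x - VV u S w α β κ x‖ ^ 2) :=
  (h.hg2.sub (h.VV_memLp S w α β κ)).integrable_norm_pow (by norm_num)

/-- The calibration argument for a polynomial kernel, with both remainders. -/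
theorem calibrated' (c0 c1 : ℝ)
    (hsym : ∀ s t, P S w α β s t = P S w α β t s)
    (hK : ∀ s ∈ Icc (-(1 / 2) : ℝ) (1 / 2), ∀ r ∈ Icc (-(1 / 2) : ℝ) (1 / 2),
        ∀ t ∈ Icc (-(1 / 2) : ℝ) (1 / 2),
      4 * κ ^ 2 * (P S w α β t s * P S w α β t r) + κ * D S w α β s r t + c0 +
        c1 * (s - r) ^ 2 ≤ 0) :
    c0 * (∫ x, (‖u x‖ ^ 2) ^ 3) + c1 * (∫ x, vr u x) + ∫ x, ‖g x - VV u S w α β κ x‖ ^ 2 ≤
      ∫ x, ‖g x‖ ^ 2 := by
  obtain ⟨M, hM0, hM⟩ := h.rho_bdd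
  set Dm : ℕ → ℝ → ℝ := fun a x =>
    2 * muv u x (g x) a + ∑ l ∈ Finset.range a, mo u l x * mo u (a - 1 - l) x with hDm
  set Φ : ℝ → ℝ := fun x => κ * ∑ q ∈ S, w q * (mo u (α q) x * mo u (β q) x) with hΦ
  set Φ' : ℝ → ℝ := fun x => κ * ∑ q ∈ S, w q *
    (Dm (α q) x * mo u (β q) x + mo u (α q) x * Dm (β q) x) with hΦ'
  have hΦd : ∀ᵐ x, HasDerivAt Φ (Φ' x) x := by
    filter_upwards [h.ud] with x hx
    refine HasDerivAt.const_mul κ ?_
    refine HasDerivAt.fun_sum fun q _ => ?_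
    exact ((h.mo_deriv x hx (α q)).mul (h.mo_deriv x hx (β q))).const_mul (w q)
  have hΦl : LAC Φ := LAC.const_mul (LAC.sum _ fun q _ =>
    LAC.const_mul (LAC.mul (h.mo_lac _) (h.mo_lac _)) _) _
  have hDmc : ∀ a, AEStronglyMeasurable (Dm a) volume := fun a => by
    have h1 : AEStronglyMeasurable (fun x => muv u x (g x) a) volume :=
      h.gm.inner ((h.Bpow_cont a).clm_apply h.uc).aestronglyMeasurable
    have h2 : Continuous fun x => ∑ l ∈ Finset.range a, mo u l x * mo u (a - 1 - l) x :=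
      continuous_finset_sum _ fun l _ => (h.mo_cont l).mul (h.mo_cont _)
    exact (h1.const_mul 2).add h2.aestronglyMeasurable
  have hΦ'c : AEStronglyMeasurable Φ' volume := by
    have hterm : ∀ q ∈ S, AEStronglyMeasurable (fun x => w q *
      (Dm (α q) x * mo u (β q) x + mo u (α q) x * Dm (β q) x)) volume := fun q _ =>
      (((hDmc _).mul (h.mo_cont _).aestronglyMeasurable).add
        ((h.mo_cont _).aestronglyMeasurable.mul (hDmc _))).const_mul _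
    have h3 : AEStronglyMeasurable (fun x => ∑ q ∈ S, w q *
      (Dm (α q) x * mo u (β q) x + mo u (α q) x * Dm (β q) x)) volume :=
      Finset.aestronglyMeasurable_fun_sum S hterm
    exact h3.const_mul κ
  -- bounds
  have hDmb : ∀ a x, |Dm a x| ≤ (‖u x‖ ^ 2 + ‖g x‖ ^ 2) + a * (M * ‖u x‖ ^ 2) := by
    intro a x
    refine (abs_add_le _ _).trans (add_le_add (h.muv_bound x (g x) a) ?_)
    refine (Finset.abs_sum_le_sum_abs _ _).trans ?_
    have : ∀ l ∈ Finset.range a, |mo u l x * mo u (a - 1 - l) x| ≤ M * ‖u x‖ ^ 2 := by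
      intro l _
      rw [abs_mul]
      exact mul_le_mul ((h.mo_bound x l).trans (hM x)) (h.mo_bound x _) (abs_nonneg _) hM0
    refine (Finset.sum_le_sum this).trans ?_
    rw [Finset.sum_const, Finset.card_range, nsmul_eq_mul]
  have hterm : ∀ q x, |Dm (α q) x * mo u (β q) x + mo u (α q) x * Dm (β q) x| ≤
      ((‖u x‖ ^ 2 + ‖g x‖ ^ 2) + α q * (M * ‖u x‖ ^ 2)) * M +
      M * ((‖u x‖ ^ 2 + ‖g x‖ ^ 2) + β q * (M * ‖u x‖ ^ 2)) := by
    intro q x
    refine (abs_add_le _ _).trans (add_le_add ?_ ?_)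
    · rw [abs_mul]
      exact mul_le_mul (hDmb _ x) ((h.mo_bound x _).trans (hM x)) (abs_nonneg _) (by positivity)
    · rw [abs_mul]
      exact mul_le_mul ((h.mo_bound x _).trans (hM x)) (hDmb _ x) (abs_nonneg _) hM0
  have hΦ'i : Integrable Φ' := by
    have hdom : Integrable (fun x => |κ| * ∑ q ∈ S, |w q| *
        (((‖u x‖ ^ 2 + ‖g x‖ ^ 2) + α q * (M * ‖u x‖ ^ 2)) * M +
      M * ((‖u x‖ ^ 2 + ‖g x‖ ^ 2) + β q * (M * ‖u x‖ ^ 2)))) := by
      refine Integrable.const_mul (integrable_finset_sum _ fun q _ => Integrable.const_mul ?_ _) _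
      refine Integrable.add (Integrable.mul_const ?_ _) (Integrable.const_mul ?_ _)
      · exact (h.hui.add h.hgi).add ((h.hui.const_mul _).const_mul _)
      · exact (h.hui.add h.hgi).add ((h.hui.const_mul _).const_mul _)
    refine hdom.mono' hΦ'c (Eventually.of_forall fun x => ?_)
    rw [Real.norm_eq_abs]
    simp only [hΦ']
    rw [abs_mul]
    refine mul_le_mul_of_nonneg_left ?_ (abs_nonneg _)
    refine (Finset.abs_sum_le_sum_abs _ _).trans (Finset.sum_le_sum fun q _ => ?_)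
    rw [abs_mul]
    exact mul_le_mul_of_nonneg_left (hterm q x) (abs_nonneg _)
  have hΦb : ∀ x, |Φ x| ≤ |κ| * (∑ q ∈ S, |w q|) * (‖u x‖ ^ 2) ^ 2 := by
    intro x
    simp only [hΦ]
    rw [abs_mul, mul_assoc]
    refine mul_le_mul_of_nonneg_left ?_ (abs_nonneg _)
    rw [Finset.sum_mul]
    refine (Finset.abs_sum_le_sum_abs _ _).trans (Finset.sum_le_sum fun q _ => ?_)
    rw [abs_mul, abs_mul, pow_two]
    refine mul_le_mul_of_nonneg_left ?_ (abs_nonneg _)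
    exact mul_le_mul (h.mo_bound x _) (h.mo_bound x _) (abs_nonneg _) (sq_nonneg _)
  have hΦT : Tendsto Φ atTop (𝓝 0) := by
    refine squeeze_zero_norm hΦb ?_
    have := (h.rho_top.pow 2).const_mul (|κ| * (∑ q ∈ S, |w q|))
    simpa using this
  have hΦB : Tendsto Φ atBot (𝓝 0) := by
    refine squeeze_zero_norm hΦb ?_
    have := (h.rho_bot.pow 2).const_mul (|κ| * (∑ q ∈ S, |w q|))
    simpa using this
  have hzero : ∫ x, Φ' x = 0 := hΦl.integral_eq hΦd hΦ'i hΦT hΦB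
  -- pointwise inequality
  have hpt : ∀ x, Φ' x + c0 * (‖u x‖ ^ 2) ^ 3 + c1 * vr u x + ‖g x - VV u S w α β κ x‖ ^ 2 ≤
      ‖g x‖ ^ 2 := by
    intro x
    obtain ⟨n, b, e, he, hbe, hcf⟩ := h.coords x
    have key := pointwise' S w α β κ c0 c1 e (fun i => ⟪b i, u x⟫) (fun i => ⟪b i, g x⟫) hsym
      (fun i k j => hK (e i) (he i) (e k) (he k) (e j) (he j))
    have hmo : ∀ a, mo u a x = ∑ i, e i ^ a * ⟪b i, u x⟫ ^ 2 := by
      intro a
      rw [mo, exp_inner b]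
      refine Finset.sum_congr rfl fun i _ => ?_
      rw [hcf]
      ring
    have hmu : ∀ a, muv u x (g x) a = ∑ i, e i ^ a * (⟪b i, u x⟫ * ⟪b i, g x⟫) := by
      intro a
      rw [muv, exp_inner b]
      refine Finset.sum_congr rfl fun i _ => ?_
      rw [hcf]
      ring
    have hnu : ‖u x‖ ^ 2 = ∑ i, ⟪b i, u x⟫ ^ 2 := by
      rw [← real_inner_self_eq_norm_sq, exp_inner b]
      exact Finset.sum_congr rfl fun i _ => (pow_two _).symm
    have hng : ‖g x‖ ^ 2 = ∑ i, ⟪b i, g x⟫ ^ 2 := by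
      rw [← real_inner_self_eq_norm_sq, exp_inner b]
      exact Finset.sum_congr rfl fun i _ => (pow_two _).symm
    have hV : ∀ i, ⟪b i, VV u S w α β κ x⟫ =
        ⟪b i, u x⟫ * (2 * κ * ∑ j, P S w α β (e i) (e j) * ⟪b j, u x⟫ ^ 2) := by
      intro i
      have i1 : ⟪b i, VV u S w α β κ x⟫ = ∑ q ∈ S, ∑ j,
          2 * κ * w q * (e j ^ β q * ⟪b j, u x⟫ ^ 2) * (e i ^ α q * ⟪b i, u x⟫) := by
        unfold VV
        rw [inner_sum]
        refine Finset.sum_congr rfl fun q _ => ?_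
        rw [real_inner_smul_right, hcf, hmo, Finset.mul_sum, Finset.sum_mul]
      have i2 : ⟪b i, u x⟫ * (2 * κ * ∑ j, P S w α β (e i) (e j) * ⟪b j, u x⟫ ^ 2) =
          ∑ j, ∑ q ∈ S, 2 * κ * w q * (e j ^ β q * ⟪b j, u x⟫ ^ 2) *
            (e i ^ α q * ⟪b i, u x⟫) := by
        rw [Finset.mul_sum, Finset.mul_sum]
        refine Finset.sum_congr rfl fun j _ => ?_
        unfold P
        rw [Finset.sum_mul, Finset.mul_sum, Finset.mul_sum]
        refine Finset.sum_congr rfl fun q _ => ?_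
        ring
      rw [i1, i2, Finset.sum_comm]
    have hgV : ‖g x - VV u S w α β κ x‖ ^ 2 = ∑ i, (⟪b i, g x⟫ - ⟪b i, u x⟫ *
        (2 * κ * ∑ j, P S w α β (e i) (e j) * ⟪b j, u x⟫ ^ 2)) ^ 2 := by
      rw [← real_inner_self_eq_norm_sq, exp_inner b]
      refine Finset.sum_congr rfl fun i _ => ?_
      rw [inner_sub_right, hV]
      ring
    rw [hgV, hng]
    simp only [hΦ', hDm, vr, hmo, hmu, hnu]
    simp only [pow_one] at key ⊢
    linarith [key]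
  have i1 : Integrable (fun x => Φ' x + c0 * (‖u x‖ ^ 2) ^ 3) :=
    hΦ'i.add (h.rho3_int.const_mul c0)
  have i2 : Integrable (fun x => Φ' x + c0 * (‖u x‖ ^ 2) ^ 3 + c1 * vr u x) :=
    i1.add (h.vr_int.const_mul c1)
  have i3 := h.gV_int S w α β κ
  have hint : ∫ x, (Φ' x + c0 * (‖u x‖ ^ 2) ^ 3 + c1 * vr u x +
      ‖g x - VV u S w α β κ x‖ ^ 2) ≤ ∫ x, ‖g x‖ ^ 2 :=
    integral_mono (i2.add i3) h.hgi hpt
  rw [integral_add i2 i3, integral_add i1 (h.vr_int.const_mul c1),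
    integral_add hΦ'i (h.rho3_int.const_mul c0), hzero, integral_const_mul, integral_const_mul,
    zero_add] at hint
  exact hint

end kernel

end SysH

end Pool.Agent.TH199.LT
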