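import Pool.Agent.TH199.LT.Form

set_option autoImplicit false
set_option linter.unusedSectionVars false
set_option linter.deprecated false

open MeasureTheory Set Filter Topology Real
open scoped RealInnerProductSpace ENNReal
open Pool.Helper490.Calib
open Pool.Helper490

namespace Pool.Agent.TH199.LT

lemma sol_eq {κ : ℝ} (hκ : 0 < κ) (x₀ x : ℝ) : sol κ x₀ x = √(κ / π) * Sech.w (κ * (x - x₀)) := by
  have hpi := pi_pos
  rw [sol, Sech.w, ← div_div, Real.sqrt_div (by positivity), div_eq_mul_inv]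

/-- The derivative of the optimiser. -/
noncomputable def sol' (κ x₀ x : ℝ) : ℝ := √(κ / π) * (Sech.w' (κ * (x - x₀)) * κ)

lemma sol_deriv {κ : ℝ} (hκ : 0 < κ) (x₀ x : ℝ) : HasDerivAt (sol κ x₀) (sol' κ x₀ x) x := by
  have e : sol κ x₀ = fun x => √(κ / π) * Sech.w (κ * (x - x₀)) := funext fun x => sol_eq hκ x₀ x
  rw [e]
  have h1 : HasDerivAt (fun x => κ * (x - x₀)) κ x := by
    simpa using ((hasDerivAt_id x).sub_const x₀).const_mul κ
  exact ((Sech.w_deriv (κ * (x - x₀))).comp x h1).const_mul _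

lemma integral_sol'_sq {κ : ℝ} (hκ : 0 < κ) (x₀ : ℝ) : ∫ x, sol' κ x₀ x ^ 2 = κ ^ 2 / 8 := by
  have hpi := pi_pos
  have e : ∀ x, sol' κ x₀ x ^ 2 = κ ^ 3 / π * (fun y => Sech.w' y ^ 2) (κ * (x - x₀)) := by
    intro x
    simp only [sol']
    rw [mul_pow, Real.sq_sqrt (by positivity)]
    ring
  simp only [e]
  rw [integral_const_mul, integral_comp_affine (fun y => Sech.w' y ^ 2) hκ x₀,
    Sech.integral_w'_sq]
  field_simp

lemma integral_sol_six {κ : ℝ} (hκ : 0 < κ) (x₀ : ℝ) :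
    ∫ x, (sol κ x₀ x ^ 2) ^ 3 = κ ^ 2 / (2 * π ^ 2) := by
  have hpi := pi_pos
  have e : ∀ x, (sol κ x₀ x ^ 2) ^ 3 = κ ^ 3 / π ^ 3 * (fun y => (cosh y)⁻¹ ^ 3) (κ * (x - x₀)) := by
    intro x
    rw [sol_sq hκ]
    simp only
    rw [mul_pow, div_pow]
  simp only [e]
  rw [integral_const_mul, integral_comp_affine (fun y => (cosh y)⁻¹ ^ 3) hκ x₀,
    Sech.integral_sech3]
  field_simp

/-- A weak derivative of the optimiser. -/
lemma ae_deriv_sol {κ : ℝ} (hκ : 0 < κ) (x₀ : ℝ) (z : ℂ) (hz : ‖z‖ = 1) (u g : ℝ → ℂ)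
    (hg2 : MemLp g 2) (hug : ∀ a b, u b - u a = ∫ x in a..b, g x)
    (hu : ∀ x, u x = z * (sol κ x₀ x : ℂ)) : ∫ x, ‖g x‖ ^ 2 = κ ^ 2 / 8 := by
  have h1 : LocallyIntegrable g volume := hg2.locallyIntegrable (by norm_num)
  rw [← integral_sol'_sq hκ x₀]
  refine integral_congr_ae ?_
  filter_upwards [_root_.LocallyIntegrable.ae_hasDerivAt_integral h1] with x hx
  have h2 := (hx 0).const_add (u 0)
  have e : (fun x => u 0 + ∫ t in (0:ℝ)..x, g t) = u := by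
    funext y
    rw [← hug 0 y]
    abel
  rw [e] at h2
  have e2 : u = fun x => z * (sol κ x₀ x : ℂ) := funext hu
  have h3 : HasDerivAt u (z * (sol' κ x₀ x : ℂ)) x := by
    rw [e2]
    exact ((sol_deriv hκ x₀ x).ofReal_comp).const_mul z
  rw [h2.unique h3, norm_mul, hz, one_mul, Complex.norm_real, Real.norm_eq_abs, sq_abs]

lemma ae_deriv_zero (u g : ℝ → ℂ)
    (hg2 : MemLp g 2) (hug : ∀ a b, u b - u a = ∫ x in a..b, g x)
    (hu : ∀ x, u x = 0) : ∫ x, ‖g x‖ ^ 2 = 0 := by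
  have h1 : LocallyIntegrable g volume := hg2.locallyIntegrable (by norm_num)
  rw [← integral_zero ℝ ℝ (μ := volume)]
  refine integral_congr_ae ?_
  filter_upwards [_root_.LocallyIntegrable.ae_hasDerivAt_integral h1] with x hx
  have h2 := (hx 0).const_add (u 0)
  have e : (fun x => u 0 + ∫ t in (0:ℝ)..x, g t) = u := by
    funext y
    rw [← hug 0 y]
    abel
  rw [e] at h2
  have e2 : u = fun _ => 0 := funext hu
  have h3 : HasDerivAt u 0 x := by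
    rw [e2]
    exact hasDerivAt_const x 0
  rw [h2.unique h3]
  simp

/-- The systems of the equality case do give equality. -/
theorem family_conv {N : ℕ} (u g : Fin N → ℝ → ℂ)
    (hg2 : ∀ n, MemLp (g n) 2)
    (hug : ∀ n a b, u n b - u n a = ∫ x in a..b, g n x)
    (h : (∀ n x, u n x = 0) ∨ ∃ n₀ : Fin N, (∀ n, n ≠ n₀ → ∀ x, u n x = 0) ∧
      ∃ κ x₀ : ℝ, 0 < κ ∧ ∃ z : ℂ, ‖z‖ = 1 ∧ ∀ x, u n₀ x = z * (sol κ x₀ x : ℂ)) :
    ∑ n, ∫ x, ‖g n x‖ ^ 2 = π ^ 2 / 4 * ∫ x, (∑ n, ‖u n x‖ ^ 2) ^ 3 := by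
  have hpi := pi_pos
  rcases h with h | ⟨n₀, hn, κ, x₀, hκ, z, hz, hu⟩
  · have e1 : ∀ n, ∫ x, ‖g n x‖ ^ 2 = 0 := fun n => ae_deriv_zero (u n) (g n) (hg2 n) (hug n) (h n)
    simp only [e1, h]
    simp
  · have e1 : ∀ n, n ≠ n₀ → ∫ x, ‖g n x‖ ^ 2 = 0 := fun n h1 =>
      ae_deriv_zero (u n) (g n) (hg2 n) (hug n) (hn n h1)
    rw [Finset.sum_eq_single n₀ (fun n _ h1 => e1 n h1) (fun h1 => absurd (Finset.mem_univ _) h1),
      ae_deriv_sol hκ x₀ z hz (u n₀) (g n₀) (hg2 n₀) (hug n₀) hu]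
    have e2 : ∀ x, ∑ n, ‖u n x‖ ^ 2 = sol κ x₀ x ^ 2 := by
      intro x
      rw [Finset.sum_eq_single n₀ (fun n _ h1 => by rw [hn n h1 x]; simp)
        (fun h1 => absurd (Finset.mem_univ _) h1), hu x, norm_mul, hz, one_mul, Complex.norm_real,
        Real.norm_eq_abs, sq_abs]
    simp only [e2]
    rw [integral_sol_six hκ]
    field_simp
    ring

end Pool.Agent.TH199.LT
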