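import Pool.Agent.TH199.LT.Stab

set_option autoImplicit false
set_option linter.unusedSectionVars false
set_option linter.deprecated false

open MeasureTheory Set Filter Topology Real
open scoped RealInnerProductSpace
open Pool.Helper490.Calib

namespace Pool.Agent.TH199.LT

variable {E : Type*} [NormedAddCommGroup E] [InnerProductSpace ℝ E] [FiniteDimensional ℝ E]

/-- The rescaled optimiser profile: `1 / cosh`. -/
lemma cos_of_T {t : ℝ} {y : ℝ} (hc : 0 < cos t) (h : (1 + sin t) / cos t = exp y) :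
    cos t = (cosh y)⁻¹ := by
  have hsc := sin_sq_add_cos_sq t
  have h1s : 0 < 1 + sin t := by
    have h1 : 0 < (1 + sin t) / cos t := by rw [h]; exact exp_pos y
    exact (div_pos_iff_of_pos_right hc).1 h1
  have h2 : exp (-y) = cos t / (1 + sin t) := by
    rw [exp_neg, ← h, inv_div]
  rw [cosh_eq, h2, ← h]
  field_simp
  nlinarith

namespace SysH

variable {u g : ℝ → E} (h : SysH u g)
include h

/-- The direction is constant as long as `u` has no zero. -/
lemma dir (φ : ℝ → ℝ) (hode : ∀ᵐ x, u x ≠ 0 → g x = φ x • u x) {a b : ℝ}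
    (hne : ∀ x ∈ uIcc a b, u x ≠ 0) (x y : ℝ) (hx : x ∈ uIcc a b) (hy : y ∈ uIcc a b) :
    ‖u x‖⁻¹ • u x = ‖u y‖⁻¹ • u y := by
  -- the norm is absolutely continuous
  have hpos : ∀ x ∈ uIcc a b, 0 < ‖u x‖ := fun x hx => norm_pos_iff.2 (hne x hx)
  have hρ := h.rho_lac a b
  obtain ⟨z, hz, hmin⟩ := isCompact_uIcc.exists_isMinOn nonempty_uIcc
    (h.uc.norm.continuousOn (s := uIcc a b))
  have hm := hpos z hz
  have hnac : AbsolutelyContinuousOnInterval (fun x => ‖u x‖) a b := by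
    refine ac_of_dist_le (C := (2 * ‖u z‖)⁻¹) hρ fun x hx y hy => ?_
    have hx1 : ‖u z‖ ≤ ‖u x‖ := hmin hx
    have hy1 : ‖u z‖ ≤ ‖u y‖ := hmin hy
    rw [Real.dist_eq, Real.dist_eq, inv_mul_eq_div, le_div_iff₀ (by positivity)]
    have e : ‖u x‖ ^ 2 - ‖u y‖ ^ 2 = (‖u x‖ - ‖u y‖) * (‖u x‖ + ‖u y‖) := by ring
    rw [e, abs_mul, abs_of_pos (by linarith : 0 < ‖u x‖ + ‖u y‖)]
    exact mul_le_mul_of_nonneg_left (by linarith) (abs_nonneg _)
  have hiac := ac_inv hnac hpos
  have key : ∀ v : E, ‖u x‖⁻¹ * ⟪u x, v⟫ = ‖u y‖⁻¹ * ⟪u y, v⟫ := by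
    intro v
    refine ac_const (hiac.fun_mul (h.inner_lac v a b)) ?_ x hx y hy
    filter_upwards [h.ud, hode] with t ht1 ht2 ht
    have hut := hne t ht
    have hg := ht2 hut
    have hnt := hpos t ht
    have h1 : HasDerivAt (fun x => ‖u x‖ ^ 2) (2 * ⟪u t, g t⟫) t := ht1.norm_sq
    have h2 : HasDerivAt (fun x => √(‖u x‖ ^ 2)) ((2 * ⟪u t, g t⟫) / (2 * √(‖u t‖ ^ 2))) t :=
      h1.sqrt (by positivity)
    have e2 : (fun x => √(‖u x‖ ^ 2)) = fun x => ‖u x‖ := by
      funext x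
      exact Real.sqrt_sq (norm_nonneg _)
    rw [e2, Real.sqrt_sq hnt.le, hg, real_inner_smul_right, real_inner_self_eq_norm_sq] at h2
    have h3 := h2.inv hnt.ne'
    have h4 : HasDerivAt (fun x => ⟪u x, v⟫) ⟪g t, v⟫ t := by
      have := ht1.inner ℝ (hasDerivAt_const t v)
      simpa using this
    have h5 := h3.mul h4
    refine h5.congr_deriv ?_
    simp only [Pi.inv_apply]
    rw [hg, real_inner_smul_left]
    field_simp
    ring
  refine ext_inner_right ℝ fun v => ?_
  rw [real_inner_smul_left, real_inner_smul_left]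
  exact key v

/-- Explicit form on an interval without zeros. -/
lemma local_form (heq : ∫ x, ‖g x‖ ^ 2 = π ^ 2 / 4 * ∫ x, (‖u x‖ ^ 2) ^ 3) (x₁ : ℝ)
    (h1 : u x₁ ≠ 0) : ∃ (c τ : ℝ), 0 < c ∧ ∀ y, (∀ x ∈ uIcc x₁ y, u x ≠ 0) →
      ‖u y‖ ^ 2 = c * (cosh (π * c * (y - x₁) + τ))⁻¹ ∧
      u y = ‖u y‖ • (‖u x₁‖⁻¹ • u x₁) := by
  have hpi := pi_pos
  set e : E := ‖u x₁‖⁻¹ • u x₁ with he
  have hn1 : 0 < ‖u x₁‖ := norm_pos_iff.2 h1
  have hen : ‖e‖ = 1 := by
    rw [he, norm_smul, norm_inv, norm_norm, inv_mul_cancel₀ hn1.ne']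
  set L : ℝ → ℝ := fun x => ⟪e, Bop u x e⟫ with hL
  have hLd : ∀ x, HasDerivAt L (⟪u x, e⟫ ^ 2) x := by
    intro x
    have h2 := (hasDerivAt_const x e).inner ℝ ((h.Bop_deriv x).clm_apply (hasDerivAt_const x e))
    refine h2.congr_deriv ?_
    simp only [inner_zero_left, map_zero, add_zero, zero_add, Pool.Helper490.Calib.R_apply,
      real_inner_smul_right]
    rw [real_inner_comm (u x) e]
    ring
  have hode := h.ode heq
  -- the facts on an interval without zeros
  have hmain : ∀ y, (∀ x ∈ uIcc x₁ y, u x ≠ 0) → ∀ x ∈ uIcc x₁ y,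
      u x = ‖u x‖ • e ∧ L x = mo u 1 x / ‖u x‖ ^ 2 ∧ L x ∈ Ioo (-(1 / 2) : ℝ) (1 / 2) ∧
      ⟪u x, e⟫ ^ 2 = ‖u x‖ ^ 2 := by
    intro y hne x hx
    have h2 := h.dir _ hode hne x x₁ hx left_mem_uIcc
    have hnx : 0 < ‖u x‖ := norm_pos_iff.2 (hne x hx)
    have h3 : u x = ‖u x‖ • e := by
      rw [he, ← h2, smul_smul, mul_inv_cancel₀ hnx.ne', one_smul]
    have heig := h.eig_of_vr (h.vr_zero heq x) (hne x hx)
    have hlm := h.lam_mem (hne x hx) heig
    have h4 : L x = mo u 1 x / ‖u x‖ ^ 2 := by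
      have h5 : ‖u x‖ ^ 2 * L x = mo u 1 x := by
        have h6 : ⟪u x, Bop u x (u x)⟫ = ‖u x‖ ^ 2 * L x := by
          conv_lhs => rw [h3]
          rw [map_smul, real_inner_smul_left, real_inner_smul_right]
          simp only [hL]
          ring
        rw [← h6, h.mo_one]
      rw [← h5]
      field_simp
    refine ⟨h3, h4, ?_, ?_⟩
    · rw [h4]; exact hlm
    · conv_lhs => rw [h3]
      rw [real_inner_smul_left, real_inner_self_eq_norm_sq, hen]
      ring
  have hcosx : ∀ y, (∀ x ∈ uIcc x₁ y, u x ≠ 0) → ∀ x ∈ uIcc x₁ y, 0 < cos (π * L x) := by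
    intro y hne x hx
    obtain ⟨-, -, h3, -⟩ := hmain y hne x hx
    exact cos_pos_of_mem_Ioo ⟨by nlinarith [h3.1], by nlinarith [h3.2]⟩
  have hne1 : ∀ x ∈ uIcc x₁ x₁, u x ≠ 0 := by
    intro x hx
    rw [uIcc_self, mem_singleton_iff] at hx
    rw [hx]; exact h1
  have hcos1 : 0 < cos (π * L x₁) := hcosx x₁ hne1 x₁ left_mem_uIcc
  set c : ℝ := ‖u x₁‖ ^ 2 * (cos (π * L x₁))⁻¹ with hc
  have hc0 : 0 < c := by positivity
  set T : ℝ → ℝ := fun x => (1 + sin (π * L x)) / cos (π * L x) with hT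
  have hT1 : 0 < T x₁ := by
    have hs : 0 < 1 + sin (π * L x₁) := by
      have h2 := sin_sq_add_cos_sq (π * L x₁)
      nlinarith [neg_one_le_sin (π * L x₁)]
    exact div_pos hs hcos1
  refine ⟨c, log (T x₁), hc0, fun y hne => ?_⟩
  have hm := hmain y hne
  have hcp := hcosx y hne
  -- `ρ / cos (π L)` is constant
  have hLc : ContDiff ℝ 1 L := by
    rw [contDiff_one_iff_deriv]
    refine ⟨fun x => (hLd x).differentiableAt, ?_⟩
    have e1 : deriv L = fun x => ⟪u x, e⟫ ^ 2 := funext fun x => (hLd x).deriv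
    rw [e1]
    exact (h.uc.inner continuous_const).pow 2
  have hinv : AbsolutelyContinuousOnInterval (fun x => (cos (π * L x))⁻¹) x₁ y := by
    have h2 : ContDiffOn ℝ 1 (fun x => (cos (π * L x))⁻¹) (uIcc x₁ y) := by
      refine ContDiffOn.inv ?_ fun x hx => (hcp x hx).ne'
      exact (contDiff_cos.comp (contDiff_const.mul hLc)).contDiffOn
    exact h2.absolutelyContinuousOnInterval
  have hcosd : ∀ x, HasDerivAt (fun x => cos (π * L x)) (-sin (π * L x) * (π * ⟪u x, e⟫ ^ 2)) x :=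
    fun x => ((hLd x).const_mul π).cos
  have hsind : ∀ x, HasDerivAt (fun x => sin (π * L x)) (cos (π * L x) * (π * ⟪u x, e⟫ ^ 2)) x :=
    fun x => ((hLd x).const_mul π).sin
  have hq : ∀ x ∈ uIcc x₁ y, ‖u x‖ ^ 2 * (cos (π * L x))⁻¹ = c := by
    intro x hx
    refine ac_const ((h.rho_lac x₁ y).fun_mul hinv) ?_ x hx x₁ left_mem_uIcc
    filter_upwards [h.ud, hode] with t ht1 ht2 ht
    obtain ⟨-, h4, -, h6⟩ := hm t ht
    have hg := ht2 (hne t ht)
    rw [← h4] at hg
    have hct := (hcp t ht).ne'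
    have h7 : HasDerivAt (fun x => ‖u x‖ ^ 2) (2 * ⟪u t, g t⟫) t := ht1.norm_sq
    have h8 := h7.mul ((hcosd t).inv hct)
    refine h8.congr_deriv ?_
    simp only [Pi.inv_apply]
    rw [hg, real_inner_smul_right, real_inner_self_eq_norm_sq, h6, tan_eq_sin_div_cos]
    field_simp
    ring
  have hρc : ∀ x ∈ uIcc x₁ y, ‖u x‖ ^ 2 = c * cos (π * L x) := by
    intro x hx
    rw [← hq x hx, mul_assoc, inv_mul_cancel₀ (hcp x hx).ne', mul_one]
  -- the equation for `T`
  have hTd : ∀ x ∈ uIcc x₁ y, HasDerivAt (fun x => T x * exp (-(π * c * (x - x₁)))) 0 x := by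
    intro x hx
    have hct := (hcp x hx).ne'
    obtain ⟨-, -, -, h6⟩ := hm x hx
    have h2 := (((hsind x).const_add 1).div (hcosd x) hct).mul
      ((((hasDerivAt_id x).sub_const x₁).const_mul (π * c)).neg.exp)
    refine h2.congr_deriv ?_
    simp only [id, Pi.div_apply, Pi.neg_apply]
    rw [h6, hρc x hx]
    have hsc := sin_sq_add_cos_sq (π * L x)
    have e1 : (cos (π * L x) * (π * (c * cos (π * L x))) * cos (π * L x) -
        (1 + sin (π * L x)) * (-sin (π * L x) * (π * (c * cos (π * L x))))) /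
        cos (π * L x) ^ 2 = π * c * ((1 + sin (π * L x)) / cos (π * L x)) := by
      rw [div_eq_iff (pow_ne_zero 2 hct), eq_comm]
      field_simp
      have e2 : cos (π * L x) ^ 2 = 1 - sin (π * L x) ^ 2 := by linarith
      rw [e2]
      ring
    rw [e1]
    ring
  have hTconst : T y * exp (-(π * c * (y - x₁))) = T x₁ := by
    have h2 : AbsolutelyContinuousOnInterval (fun x => T x * exp (-(π * c * (x - x₁)))) x₁ y := by
      have h3 : ContDiffOn ℝ 1 (fun x => T x * exp (-(π * c * (x - x₁)))) (uIcc x₁ y) := by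
        refine ContDiffOn.mul ?_ (by fun_prop)
        refine ContDiffOn.div ?_ ?_ fun x hx => (hcp x hx).ne'
        · exact (contDiff_const.add (contDiff_sin.comp (contDiff_const.mul hLc))).contDiffOn
        · exact (contDiff_cos.comp (contDiff_const.mul hLc)).contDiffOn
      exact h3.absolutelyContinuousOnInterval
    have h4 := ac_const h2 (Eventually.of_forall fun x hx => hTd x hx) y right_mem_uIcc x₁
      left_mem_uIcc
    simpa using h4
  have hTy : T y = exp (π * c * (y - x₁) + log (T x₁)) := by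
    rw [exp_add, exp_log hT1, ← hTconst, exp_neg]
    field_simp
  have hcy := hcp y right_mem_uIcc
  refine ⟨?_, (hm y right_mem_uIcc).1⟩
  rw [hρc y right_mem_uIcc, cos_of_T hcy hTy]

/-- There are no zeros. -/
theorem global_form (heq : ∫ x, ‖g x‖ ^ 2 = π ^ 2 / 4 * ∫ x, (‖u x‖ ^ 2) ^ 3) (x₁ : ℝ)
    (h1 : u x₁ ≠ 0) : ∃ (c τ : ℝ), 0 < c ∧ ∀ y,
      ‖u y‖ ^ 2 = c * (cosh (π * c * (y - x₁) + τ))⁻¹ ∧
      u y = ‖u y‖ • (‖u x₁‖⁻¹ • u x₁) := by
  obtain ⟨c, τ, hc, hloc⟩ := h.local_form heq x₁ h1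
  refine ⟨c, τ, hc, ?_⟩
  set F : ℝ → ℝ := fun y => ‖u y‖ ^ 2 - c * (cosh (π * c * (y - x₁) + τ))⁻¹ with hF
  have hFc : Continuous F := by
    have h2 : Continuous fun y : ℝ => cosh (π * c * (y - x₁) + τ) :=
      continuous_cosh.comp (by fun_prop)
    exact (h.uc.norm.pow 2).sub (continuous_const.mul (h2.inv₀ fun y => (cosh_pos _).ne'))
  have hno : ∀ y, u y ≠ 0 := by
    intro y hy
    rcases le_total x₁ y with hxy | hxy
    · -- first zero to the right
      set Z : Set ℝ := {z | x₁ ≤ z ∧ u z = 0} with hZ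
      have hZc : IsClosed Z := by
        have h2 : Z = Ici x₁ ∩ u ⁻¹' {0} := by
          ext z; simp [hZ]
        rw [h2]
        exact isClosed_Ici.inter (isClosed_singleton.preimage h.uc)
      have hZb : BddBelow Z := ⟨x₁, fun z hz => hz.1⟩
      have hb := hZc.csInf_mem ⟨y, hxy, hy⟩ hZb
      set b := sInf Z with hbdef
      have hxb : x₁ < b := lt_of_le_of_ne hb.1 (by rintro h2; rw [h2] at h1; exact h1 hb.2)
      have hlt : ∀ x ∈ Ico x₁ b, F x = 0 := by
        intro x hx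
        have h3 := (hloc x fun z hz => ?_).1
        · simp only [hF]; linarith
        · rw [uIcc_of_le hx.1] at hz
          intro h4
          have := csInf_le hZb ⟨hz.1, h4⟩
          linarith [hz.2, hx.2]
      have h5 : F b = 0 := by
        have h6 : Set.EqOn F (fun _ => 0) (closure (Ico x₁ b)) :=
          Set.EqOn.closure hlt hFc continuous_const
        exact h6 (by rw [closure_Ico hxb.ne]; exact right_mem_Icc.2 hxb.le)
      simp only [hF, hb.2, norm_zero] at h5
      have h7 : 0 < c * (cosh (π * c * (b - x₁) + τ))⁻¹ := mul_pos hc (inv_pos.2 (cosh_pos _))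
      norm_num at h5
      rcases h5 with h5 | h5
      · exact hc.ne' h5
      · exact (cosh_pos _).ne' h5
    · set Z : Set ℝ := {z | z ≤ x₁ ∧ u z = 0} with hZ
      have hZc : IsClosed Z := by
        have h2 : Z = Iic x₁ ∩ u ⁻¹' {0} := by
          ext z; simp [hZ]
        rw [h2]
        exact isClosed_Iic.inter (isClosed_singleton.preimage h.uc)
      have hZb : BddAbove Z := ⟨x₁, fun z hz => hz.1⟩
      have hb := hZc.csSup_mem ⟨y, hxy, hy⟩ hZb
      set b := sSup Z with hbdef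
      have hxb : b < x₁ := lt_of_le_of_ne hb.1 (by rintro h2; rw [← h2] at h1; exact h1 hb.2)
      have hlt : ∀ x ∈ Ioc b x₁, F x = 0 := by
        intro x hx
        have h3 := (hloc x fun z hz => ?_).1
        · simp only [hF]; linarith
        · rw [uIcc_of_ge hx.2] at hz
          intro h4
          have := le_csSup hZb ⟨hz.2, h4⟩
          linarith [hz.1, hx.1]
      have h5 : F b = 0 := by
        have h6 : Set.EqOn F (fun _ => 0) (closure (Ioc b x₁)) :=
          Set.EqOn.closure hlt hFc continuous_const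
        exact h6 (by rw [closure_Ioc hxb.ne]; exact left_mem_Icc.2 hxb.le)
      simp only [hF, hb.2, norm_zero] at h5
      norm_num at h5
      rcases h5 with h5 | h5
      · exact hc.ne' h5
      · exact (cosh_pos _).ne' h5
  intro y
  exact hloc y fun x _ => hno x

end SysH

end Pool.Agent.TH199.LT
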