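import Pool.Agent.Helper490.LTH1C
import Pool.Agent.TH199.LT.Ode

set_option autoImplicit false
set_option linter.unusedSectionVars false
set_option linter.deprecated false

open MeasureTheory Set Filter Topology Real
open scoped RealInnerProductSpace ENNReal
open Pool.Helper490.Calib

namespace Pool.Agent.TH199.LT

/-- Bessel's inequality for the real coordinates of an orthogonal family of functions of norm at
most one. -/
lemma bessel_of_weighted {N : ℕ} (ν : Fin N → ℝ) (hν : ∀ n, ν n ≤ 1) (u : Fin N → ℝ → ℂ)
    (hm : ∀ n, AEStronglyMeasurable (u n) volume) (h2 : ∀ n, Integrable (fun x => ‖u n x‖ ^ 2))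
    (ho : ∀ n m, ∫ x, star (u n x) * u m x = if n = m then (ν n : ℂ) else 0)
    (v : EuclideanSpace ℝ (Fin N ⊕ Fin N)) :
    ∫ x, ⟪realify (fun n => u n x), v⟫ ^ 2 ≤ ‖v‖ ^ 2 := by
  have hij : ∀ n m, Integrable (fun x => star (u n x) * u m x) := by
    intro n m
    have hm : AEStronglyMeasurable (fun x => star (u n x) * u m x) volume :=
      ((hm n).star).mul (hm m)
    refine ((h2 n).add (h2 m)).mono' hm (Eventually.of_forall fun x => ?_)
    rw [norm_mul, norm_star]
    simp only [Pi.add_apply]
    nlinarith [sq_nonneg (‖u n x‖ - ‖u m x‖), norm_nonneg (u n x), norm_nonneg (u m x)]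
  set z : Fin N → ℂ := fun n => ⟨v (Sum.inl n), v (Sum.inr n)⟩ with hz
  set g : ℝ → ℂ := fun x => ∑ n, star (z n) * u n x with hg
  have hinner : ∀ x, ⟪realify (fun n => u n x), v⟫ = (g x).re := fun x => realify_inner _ v
  have hexp : ∀ x, star (g x) * g x =
      ∑ n, ∑ m, (z n * star (z m)) * (star (u n x) * u m x) := by
    intro x
    simp only [hg, star_sum, star_mul', star_star]
    rw [Finset.sum_mul_sum]
    refine Finset.sum_congr rfl fun n _ => Finset.sum_congr rfl fun m _ => ?_
    ring
  have hgi : Integrable (fun x => star (g x) * g x) := by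
    simp only [hexp]
    exact integrable_finsetSum _ fun n _ => integrable_finsetSum _ fun m _ =>
      (hij n m).const_mul _
  have hgint : ∫ x, star (g x) * g x = ((∑ n, ν n * ‖z n‖ ^ 2 : ℝ) : ℂ) := by
    simp only [hexp]
    rw [integral_finsetSum _ fun n _ => integrable_finsetSum _ fun m _ =>
      (hij n m).const_mul _]
    push_cast
    refine Finset.sum_congr rfl fun n _ => ?_
    rw [integral_finsetSum _ fun m _ => (hij n m).const_mul _]
    simp only [integral_const_mul, ho]
    simp only [mul_ite, mul_zero, Finset.sum_ite_eq, Finset.mem_univ, if_true]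
    rw [← Complex.ofReal_pow, ← Complex.normSq_eq_norm_sq, mul_comm]
    congr 1
    exact Complex.mul_conj _
  have hnorm : ∀ x, ((‖g x‖ ^ 2 : ℝ) : ℂ) = star (g x) * g x := by
    intro x
    rw [mul_comm]
    rw [← Complex.normSq_eq_norm_sq]
    exact (Complex.mul_conj _).symm
  have hgi2 : Integrable (fun x => ‖g x‖ ^ 2) := by
    have := hgi.re
    refine this.congr (Eventually.of_forall fun x => ?_)
    simp only [← hnorm]
    exact Complex.ofReal_re _
  have hval : ∫ x, ‖g x‖ ^ 2 = ∑ n, ν n * ‖z n‖ ^ 2 := by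
    have h1 : ((∫ x, ‖g x‖ ^ 2 : ℝ) : ℂ) = ((∑ n, ν n * ‖z n‖ ^ 2 : ℝ) : ℂ) := by
      rw [← hgint, ← integral_complex_ofReal]
      exact integral_congr_ae (Eventually.of_forall fun x => hnorm x)
    exact_mod_cast h1
  have hv : ‖v‖ ^ 2 = ∑ n, ‖z n‖ ^ 2 := by
    rw [EuclideanSpace.norm_sq_eq, Fintype.sum_sum_type, ← Finset.sum_add_distrib]
    refine Finset.sum_congr rfl fun n _ => ?_
    rw [sqn]
    simp [hz]
  have hle : ∫ x, ‖g x‖ ^ 2 ≤ ‖v‖ ^ 2 := by
    rw [hv, hval]
    refine Finset.sum_le_sum fun n _ => ?_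
    have := hν n
    nlinarith [sq_nonneg ‖z n‖]
  refine le_trans ?_ hle
  refine integral_mono_of_nonneg (Eventually.of_forall fun x => sq_nonneg _) hgi2
    (Eventually.of_forall fun x => ?_)
  simp only [hinner]
  rw [sqn]
  nlinarith [sq_nonneg (g x).im]

/-- The real picture of a family of complex functions. -/
theorem sys_of_family {N : ℕ} (ν : Fin N → ℝ) (hν : ∀ n, ν n ≤ 1) (u g : Fin N → ℝ → ℂ)
    (hu2 : ∀ n, MemLp (u n) 2) (hg2 : ∀ n, MemLp (g n) 2)
    (hug : ∀ n a b, u n b - u n a = ∫ x in a..b, g n x)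
    (ho : ∀ n m, ∫ x, star (u n x) * u m x = if n = m then (ν n : ℂ) else 0) :
    SysH (fun x => realify fun n => u n x) (fun x => realify fun n => g n x) := by
  have hui : ∀ n, Integrable (fun x => ‖u n x‖ ^ 2) := fun n =>
    (hu2 n).integrable_norm_pow (by norm_num)
  have hmem : ∀ f : Fin N → ℝ → ℂ, (∀ n, MemLp (f n) 2) →
      MemLp (fun x => realify fun n => f n x) 2 := by
    intro f hf
    have hfm : AEStronglyMeasurable (fun x => fun n => f n x) volume :=
      (aemeasurable_pi_lambda _ fun n => (hf n).1.aemeasurable).aestronglyMeasurable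
    have hm : AEStronglyMeasurable (fun x => realify fun n => f n x) volume :=
      (realifyL N).continuous.comp_aestronglyMeasurable hfm
    rw [memLp_two_iff_integrable_sq_norm hm]
    simp only [realify_norm]
    exact integrable_finsetSum _ fun n _ => (hf n).integrable_norm_pow (by norm_num)
  have hII : ∀ n a b, IntervalIntegrable (g n) volume a b := by
    intro n a b
    have h1 : LocallyIntegrable (g n) volume := (hg2 n).locallyIntegrable (by norm_num)
    exact intervalIntegrable_iff.2 ((h1.integrableOn_isCompact isCompact_uIcc).mono_set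
      uIoc_subset_uIcc)
  refine ⟨?_, hmem u hu2, hmem g hg2,
    fun v => bessel_of_weighted ν hν u (fun n => (hu2 n).1) hui ho v⟩
  intro a b
  have hpi : IntervalIntegrable (fun x => fun n => g n x) volume a b := by
    rw [intervalIntegrable_iff]
    exact Integrable.of_eval fun n => intervalIntegrable_iff.1 (hII n a b)
  have h1 := (realifyL N).intervalIntegral_comp_comm hpi
  simp only [realifyL_apply] at h1
  rw [h1, ← realifyL_apply, ← realifyL_apply, ← realifyL_apply, ← map_sub]
  congr 1
  funext n
  rw [Pi.sub_apply, hug n a b]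
  have h2 := (ContinuousLinearMap.proj (R := ℝ) (φ := fun _ : Fin N => ℂ) n).intervalIntegral_comp_comm hpi
  simpa using h2

end Pool.Agent.TH199.LT
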