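import Pool.Agent.TH199.LT.Conv

set_option autoImplicit false
set_option linter.unusedSectionVars false
set_option linter.deprecated false

open MeasureTheory Set Filter Topology Real
open scoped RealInnerProductSpace ENNReal
open Pool.Helper490

namespace Pool.Agent.TH199.LT

/-- The truncated optimiser, supported in `[-R, R]`. -/
noncomputable def tr (R x : ℝ) : ℝ := max (Sech.w x - Sech.w R) 0

/-- Its derivative. -/
noncomputable def tr' (R x : ℝ) : ℝ := if |x| < R then Sech.w' x else 0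

lemma w_le {x y : ℝ} (h : |x| ≤ |y|) : Sech.w y ≤ Sech.w x := by
  rw [Sech.w, Sech.w]
  exact inv_anti₀ (Sech.scp x) (Real.sqrt_le_sqrt (Real.cosh_le_cosh.2 h))

lemma w_lt {x y : ℝ} (h : |x| < |y|) : Sech.w y < Sech.w x := by
  rw [Sech.w, Sech.w]
  exact inv_strictAnti₀ (Sech.scp x) (Real.sqrt_lt_sqrt (cosh_pos x).le (Real.cosh_lt_cosh.2 h))

lemma tr_out {R x : ℝ} (hR : 0 < R) (h : R ≤ |x|) : tr R x = 0 := by
  rw [tr, max_eq_right]
  have := w_le (x := R) (y := x) (by rwa [abs_of_pos hR])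
  linarith

lemma tr_in {R x : ℝ} (hR : 0 < R) (h : |x| ≤ R) : tr R x = Sech.w x - Sech.w R := by
  rw [tr, max_eq_left]
  have := w_le (x := x) (y := R) (by rwa [abs_of_pos hR])
  linarith

lemma tr_nonneg (R x : ℝ) : 0 ≤ tr R x := le_max_right _ _

lemma tr_le (R x : ℝ) : tr R x ≤ Sech.w x :=
  max_le (by have := Sech.w_pos R; linarith) (Sech.w_pos x).le

lemma tr_cont (R : ℝ) : Continuous (tr R) := (Sech.w_cont.sub continuous_const).max continuous_const

lemma tr'_meas (R : ℝ) : Measurable (tr' R) := by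
  unfold tr'
  refine Measurable.ite ?_ Sech.w'_cont.measurable measurable_const
  exact measurableSet_lt (by fun_prop) measurable_const

lemma tr'_sq_le (R x : ℝ) : tr' R x ^ 2 ≤ Sech.w' x ^ 2 := by
  unfold tr'
  split_ifs
  · exact le_rfl
  · simpa using sq_nonneg (Sech.w' x)

lemma tr_deriv {R x : ℝ} (hR : 0 < R) (hx : |x| ≠ R) : HasDerivAt (tr R) (tr' R x) x := by
  rcases lt_or_gt_of_ne hx with h | h
  · rw [tr', if_pos h]
    have h1 : HasDerivAt (fun x => Sech.w x - Sech.w R) (Sech.w' x) x := (Sech.w_deriv x).sub_const _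
    refine h1.congr_of_eventuallyEq ?_
    have h2 : ∀ᶠ y in 𝓝 x, |y| < R := continuous_abs.continuousAt.eventually_lt
      continuousAt_const h
    filter_upwards [h2] with y hy
    exact tr_in hR hy.le
  · rw [tr', if_neg (not_lt.2 (le_of_lt h))]
    have h1 : HasDerivAt (fun _ : ℝ => (0 : ℝ)) 0 x := hasDerivAt_const x 0
    refine h1.congr_of_eventuallyEq ?_
    have h2 : ∀ᶠ y in 𝓝 x, R < |y| := continuousAt_const.eventually_lt
      continuous_abs.continuousAt h
    filter_upwards [h2] with y hy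
    exact tr_out hR hy.le

lemma tr_sq_int (R : ℝ) : Integrable fun x => tr R x ^ 2 := by
  refine Sech.int_w_sq.mono' ((tr_cont R).pow 2).aestronglyMeasurable (Eventually.of_forall fun x => ?_)
  rw [Real.norm_eq_abs, abs_of_nonneg (sq_nonneg _)]
  exact pow_le_pow_left₀ (tr_nonneg R x) (tr_le R x) 2

lemma tr'_sq_int (R : ℝ) : Integrable fun x => tr' R x ^ 2 := by
  refine Sech.int_w'_sq.mono' ((tr'_meas R).pow_const 2).aestronglyMeasurable
    (Eventually.of_forall fun x => ?_)
  rw [Real.norm_eq_abs, abs_of_nonneg (sq_nonneg _)]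
  exact tr'_sq_le R x

lemma w_six_int : Integrable fun x => (Sech.w x ^ 2) ^ 3 := by
  simp only [Sech.w_sq]; exact Sech.int_sech3

lemma tr_six_int (R : ℝ) : Integrable fun x => (tr R x ^ 2) ^ 3 := by
  refine w_six_int.mono' (((tr_cont R).pow 2).pow 3).aestronglyMeasurable
    (Eventually.of_forall fun x => ?_)
  rw [Real.norm_eq_abs, abs_of_nonneg (by positivity)]
  have := pow_le_pow_left₀ (tr_nonneg R x) (tr_le R x) 2
  exact pow_le_pow_left₀ (sq_nonneg _) this 3

lemma tr'_memLp (R : ℝ) : MemLp (tr' R) 2 := by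
  rw [memLp_two_iff_integrable_sq_norm (tr'_meas R).aestronglyMeasurable]
  simp only [Real.norm_eq_abs, sq_abs]
  exact tr'_sq_int R

lemma tr'_ii (R a b : ℝ) : IntervalIntegrable (tr' R) volume a b := by
  have h1 : LocallyIntegrable (tr' R) volume := (tr'_memLp R).locallyIntegrable (by norm_num)
  exact intervalIntegrable_iff.2 ((h1.integrableOn_isCompact isCompact_uIcc).mono_set
    uIoc_subset_uIcc)

lemma tr_ftc {R : ℝ} (hR : 0 < R) (a b : ℝ) : tr R b - tr R a = ∫ x in a..b, tr' R x := by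
  symm
  refine integral_eq_of_hasDerivAt_off_countable (tr R) (tr' R) (s := {R, -R})
    (Set.toFinite _).countable (tr_cont R).continuousOn ?_ (tr'_ii R a b)
  intro x hx
  refine tr_deriv hR fun h => hx.2 ?_
  rcases abs_cases x with ⟨h1, -⟩ | ⟨h1, -⟩
  · left; rw [← h, h1]
  · right; rw [mem_singleton_iff, ← h, h1]; ring

lemma tr_sq_le : ∀ R, ∫ x, tr R x ^ 2 ≤ π := by
  intro R
  rw [← Sech.integral_w_sq]
  refine integral_mono (tr_sq_int R) Sech.int_w_sq fun x => ?_
  exact pow_le_pow_left₀ (tr_nonneg R x) (tr_le R x) 2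

lemma tr'_sq_le' : ∀ R, ∫ x, tr' R x ^ 2 ≤ π / 8 := by
  intro R
  rw [← Sech.integral_w'_sq]
  exact integral_mono (tr'_sq_int R) Sech.int_w'_sq fun x => tr'_sq_le R x

lemma tr_sq_pos {R : ℝ} (hR : 0 < R) : 0 < ∫ x, tr R x ^ 2 := by
  rw [integral_pos_iff_support_of_nonneg (fun x => sq_nonneg _) (tr_sq_int R)]
  have h1 : Ioo (-R) R ⊆ Function.support fun x => tr R x ^ 2 := by
    intro x hx
    have h2 : |x| < |R| := by rw [abs_of_pos hR]; exact abs_lt.2 hx
    have h3 := w_lt h2
    have h4 : tr R x = Sech.w x - Sech.w R := tr_in hR (by rw [abs_of_pos hR] at h2; exact h2.le)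
    rw [Function.mem_support, h4]
    have : 0 < Sech.w x - Sech.w R := by linarith
    positivity
  refine lt_of_lt_of_le ?_ (measure_mono h1)
  rw [Real.volume_Ioo]
  simp [hR]

lemma w_tendsto : Tendsto Sech.w atTop (𝓝 0) := by
  have h1 : Tendsto (fun x => cosh x) atTop atTop := by
    refine tendsto_atTop_mono (fun x => ?_) Sech.tendsto_sinh_top
    exact (Real.sinh_lt_cosh x).le
  have h2 : Tendsto (fun x => √(cosh x)) atTop atTop := Real.tendsto_sqrt_atTop.comp h1
  exact tendsto_inv_atTop_zero.comp h2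

lemma tr_six_tendsto : Tendsto (fun R => ∫ x, (tr R x ^ 2) ^ 3) atTop (𝓝 (π / 2)) := by
  rw [← Sech.integral_w_six]
  refine tendsto_integral_filter_of_dominated_convergence (fun x => (Sech.w x ^ 2) ^ 3)
    (Eventually.of_forall fun R => (tr_six_int R).aestronglyMeasurable)
    (Eventually.of_forall fun R => Eventually.of_forall fun x => ?_) w_six_int
    (Eventually.of_forall fun x => ?_)
  · rw [Real.norm_eq_abs, abs_of_nonneg (by positivity)]
    have := pow_le_pow_left₀ (tr_nonneg R x) (tr_le R x) 2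
    exact pow_le_pow_left₀ (sq_nonneg _) this 3
  · have h1 : Tendsto (fun R => tr R x) atTop (𝓝 (max (Sech.w x - 0) 0)) :=
      (tendsto_const_nhds.sub w_tendsto).max tendsto_const_nhds
    rw [sub_zero, max_eq_left (Sech.w_pos x).le] at h1
    exact (h1.pow 2).pow 3

end Pool.Agent.TH199.LT
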