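import Pool.Agent.TH199.LT.Near

set_option autoImplicit false
set_option linter.unusedSectionVars false
set_option linter.deprecated false

open MeasureTheory Set Filter Topology Real
open scoped RealInnerProductSpace ENNReal
open Pool.Helper490
open Pool.Helper490.Calib

namespace Pool.Agent.TH199.LT

/-- The norm of the truncated optimiser. -/
noncomputable def nr (R : ℝ) : ℝ := √(∫ x, tr R x ^ 2)

lemma nr_sq {R : ℝ} (hR : 0 < R) : nr R ^ 2 = ∫ x, tr R x ^ 2 := Real.sq_sqrt (tr_sq_pos hR).le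

lemma nr_pos {R : ℝ} (hR : 0 < R) : 0 < nr R := Real.sqrt_pos.2 (tr_sq_pos hR)

/-- The family of translates. -/
noncomputable def fu (R : ℝ) (N : ℕ) (n : Fin N) (x : ℝ) : ℂ :=
  (((nr R)⁻¹ * tr R (x - 2 * R * (n : ℝ)) : ℝ) : ℂ)

/-- The derivatives of the translates. -/
noncomputable def fg (R : ℝ) (N : ℕ) (n : Fin N) (x : ℝ) : ℂ :=
  (((nr R)⁻¹ * tr' R (x - 2 * R * (n : ℝ)) : ℝ) : ℂ)

lemma fu_norm (R : ℝ) (N : ℕ) (n : Fin N) (x : ℝ) :
    ‖fu R N n x‖ ^ 2 = (nr R ^ 2)⁻¹ * tr R (x - 2 * R * (n : ℝ)) ^ 2 := by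
  rw [fu, Complex.norm_real, Real.norm_eq_abs, sq_abs, mul_pow, inv_pow]

lemma fg_norm (R : ℝ) (N : ℕ) (n : Fin N) (x : ℝ) :
    ‖fg R N n x‖ ^ 2 = (nr R ^ 2)⁻¹ * tr' R (x - 2 * R * (n : ℝ)) ^ 2 := by
  rw [fg, Complex.norm_real, Real.norm_eq_abs, sq_abs, mul_pow, inv_pow]

lemma fu_cont (R : ℝ) (N : ℕ) (n : Fin N) : Continuous (fu R N n) := by
  unfold fu
  refine Complex.continuous_ofReal.comp (continuous_const.mul ((tr_cont R).comp ?_))
  fun_prop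

lemma fg_meas (R : ℝ) (N : ℕ) (n : Fin N) : Measurable (fg R N n) := by
  unfold fg
  refine Complex.measurable_ofReal.comp (((tr'_meas R).comp ?_).const_mul _)
  fun_prop

lemma fu_memLp (R : ℝ) (N : ℕ) (n : Fin N) : MemLp (fu R N n) 2 := by
  rw [memLp_two_iff_integrable_sq_norm (fu_cont R N n).aestronglyMeasurable]
  simp only [fu_norm]
  exact ((tr_sq_int R).comp_sub_right _).const_mul _

lemma fg_memLp (R : ℝ) (N : ℕ) (n : Fin N) : MemLp (fg R N n) 2 := by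
  rw [memLp_two_iff_integrable_sq_norm (fg_meas R N n).aestronglyMeasurable]
  simp only [fg_norm]
  exact ((tr'_sq_int R).comp_sub_right _).const_mul _

lemma fu_ftc {R : ℝ} (hR : 0 < R) (N : ℕ) (n : Fin N) (a b : ℝ) :
    fu R N n b - fu R N n a = ∫ x in a..b, fg R N n x := by
  simp only [fu, fg]
  rw [intervalIntegral.integral_ofReal, ← Complex.ofReal_sub, ← mul_sub,
    intervalIntegral.integral_const_mul,
    intervalIntegral.integral_comp_sub_right (fun x => tr' R x), ← tr_ftc hR]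

lemma fu_disj {R : ℝ} (hR : 0 < R) (N : ℕ) (n m : Fin N) (hnm : n ≠ m) (x : ℝ) :
    tr R (x - 2 * R * (n : ℝ)) * tr R (x - 2 * R * (m : ℝ)) = 0 := by
  by_contra h
  have h1 : |x - 2 * R * (n : ℝ)| < R := by
    by_contra h2
    exact h (by rw [tr_out hR (not_lt.1 h2), zero_mul])
  have h2 : |x - 2 * R * (m : ℝ)| < R := by
    by_contra h2
    exact h (by rw [tr_out hR (not_lt.1 h2), mul_zero])
  rw [abs_lt] at h1 h2
  rcases lt_or_gt_of_ne hnm with h3 | h3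
  · have h4 : ((n : ℕ) : ℝ) + 1 ≤ ((m : ℕ) : ℝ) := by exact_mod_cast h3
    nlinarith
  · have h4 : ((m : ℕ) : ℝ) + 1 ≤ ((n : ℕ) : ℝ) := by exact_mod_cast h3
    nlinarith

lemma fu_on {R : ℝ} (hR : 0 < R) (N : ℕ) (n m : Fin N) :
    ∫ x, star (fu R N n x) * fu R N m x = if n = m then (1 : ℂ) else 0 := by
  have h1 : ∀ x, star (fu R N n x) * fu R N m x =
      (((nr R ^ 2)⁻¹ * (tr R (x - 2 * R * (n : ℝ)) * tr R (x - 2 * R * (m : ℝ))) : ℝ) : ℂ) := by
    intro x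
    have : star (fu R N n x) = fu R N n x := Complex.conj_ofReal _
    rw [this, fu, fu]
    push_cast
    ring
  simp only [h1]
  rw [integral_complex_ofReal]
  split_ifs with h
  · rw [h]
    have h2 : ∫ x, (nr R ^ 2)⁻¹ * (tr R (x - 2 * R * (m : ℝ)) * tr R (x - 2 * R * (m : ℝ))) = 1 := by
      rw [integral_const_mul,
        integral_sub_right_eq_self (μ := volume) (fun x => tr R x * tr R x) (2 * R * (m : ℝ))]
      simp only [← pow_two]
      rw [← nr_sq hR]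
      have := nr_pos hR
      field_simp
    rw [h2]; simp
  · simp only [fu_disj hR N n m h, mul_zero]
    simp

/-- The constant of `N` functions is at most `π² / 4`. -/
theorem le_of_system {N : ℕ} (hN : 1 ≤ N) {K : ℝ}
    (hK : ∀ u g : Fin N → ℝ → ℂ, (∀ n, MemLp (u n) 2) → (∀ n, MemLp (g n) 2) →
      (∀ n a b, u n b - u n a = ∫ x in a..b, g n x) →
      (∀ n m, ∫ x, star (u n x) * u m x = if n = m then (1 : ℂ) else 0) →
      K * ∫ x, (∑ n, ‖u n x‖ ^ 2) ^ 3 ≤ ∑ n, ∫ x, ‖g n x‖ ^ 2) : K ≤ π ^ 2 / 4 := by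
  have hpi := pi_pos
  rcases le_or_gt K 0 with hK0 | hK0
  · have : 0 < π ^ 2 / 4 := by positivity
    linarith
  have key : ∀ R : ℝ, 0 < R → K * ∫ x, (tr R x ^ 2) ^ 3 ≤ π ^ 3 / 8 := by
    intro R hR
    have hn := nr_pos hR
    have h1 := hK (fu R N) (fg R N) (fu_memLp R N) (fg_memLp R N) (fu_ftc hR N) (fu_on hR N)
    have hint := (sharp_H1_complex (fu R N) (fg R N) (fu_memLp R N) (fg_memLp R N) (fu_ftc hR N)
      (fu_on hR N)).1
    have h6 : ∀ n : Fin N, ∫ x, (‖fu R N n x‖ ^ 2) ^ 3 =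
        (nr R ^ 2)⁻¹ ^ 3 * ∫ x, (tr R x ^ 2) ^ 3 := by
      intro n
      simp only [fu_norm, mul_pow]
      rw [integral_const_mul,
        integral_sub_right_eq_self (μ := volume) (fun x => (tr R x ^ 2) ^ 3) (2 * R * (n : ℝ))]
    have h6i : ∀ n : Fin N, Integrable fun x => (‖fu R N n x‖ ^ 2) ^ 3 := by
      intro n
      simp only [fu_norm, mul_pow _ _ 3]
      exact ((tr_six_int R).comp_sub_right _).const_mul _
    have hlow : (N : ℝ) * ((nr R ^ 2)⁻¹ ^ 3 * ∫ x, (tr R x ^ 2) ^ 3) ≤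
        ∫ x, (∑ n, ‖fu R N n x‖ ^ 2) ^ 3 := by
      have h2 : (N : ℝ) * ((nr R ^ 2)⁻¹ ^ 3 * ∫ x, (tr R x ^ 2) ^ 3) =
          ∫ x, ∑ n, (‖fu R N n x‖ ^ 2) ^ 3 := by
        rw [integral_finsetSum _ fun n _ => h6i n]
        simp only [h6]
        simp
      rw [h2]
      refine integral_mono (integrable_finsetSum _ fun n _ => h6i n) hint fun x => ?_
      simp only
      have h3 : ∀ n ∈ Finset.univ, (‖fu R N n x‖ ^ 2) ^ 3 ≤
          ‖fu R N n x‖ ^ 2 * (∑ n, ‖fu R N n x‖ ^ 2) ^ 2 := by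
        intro n hn
        have h4 : ‖fu R N n x‖ ^ 2 ≤ ∑ n, ‖fu R N n x‖ ^ 2 :=
          Finset.single_le_sum (f := fun n => ‖fu R N n x‖ ^ 2) (fun i _ => sq_nonneg _) hn
        have h5 := pow_le_pow_left₀ (sq_nonneg _) h4 2
        nlinarith [sq_nonneg ‖fu R N n x‖]
      refine (Finset.sum_le_sum h3).trans ?_
      rw [← Finset.sum_mul]
      apply le_of_eq
      ring
    have hkin : ∑ n, ∫ x, ‖fg R N n x‖ ^ 2 = (N : ℝ) * ((nr R ^ 2)⁻¹ * ∫ x, tr' R x ^ 2) := by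
      have h2 : ∀ n : Fin N, ∫ x, ‖fg R N n x‖ ^ 2 = (nr R ^ 2)⁻¹ * ∫ x, tr' R x ^ 2 := by
        intro n
        simp only [fg_norm]
        rw [integral_const_mul,
          integral_sub_right_eq_self (μ := volume) (fun x => tr' R x ^ 2) (2 * R * (n : ℝ))]
      simp only [h2]
      simp
    have hN' : (0 : ℝ) < N := by exact_mod_cast hN
    have h7 : K * ((N : ℝ) * ((nr R ^ 2)⁻¹ ^ 3 * ∫ x, (tr R x ^ 2) ^ 3)) ≤
        (N : ℝ) * ((nr R ^ 2)⁻¹ * ∫ x, tr' R x ^ 2) :=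
      (mul_le_mul_of_nonneg_left hlow hK0.le).trans (h1.trans_eq hkin)
    have h8 : K * ∫ x, (tr R x ^ 2) ^ 3 ≤ (nr R ^ 2) ^ 2 * ∫ x, tr' R x ^ 2 := by
      have h9 : 0 < (nr R ^ 2) ^ 3 / N := by positivity
      have h10 := mul_le_mul_of_nonneg_left h7 h9.le
      have e1 : (nr R ^ 2) ^ 3 / N * (K * ((N : ℝ) * ((nr R ^ 2)⁻¹ ^ 3 * ∫ x, (tr R x ^ 2) ^ 3))) =
          K * ∫ x, (tr R x ^ 2) ^ 3 := by
        field_simp
      have e2 : (nr R ^ 2) ^ 3 / N * ((N : ℝ) * ((nr R ^ 2)⁻¹ * ∫ x, tr' R x ^ 2)) =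
          (nr R ^ 2) ^ 2 * ∫ x, tr' R x ^ 2 := by
        field_simp
      rwa [e1, e2] at h10
    refine h8.trans ?_
    rw [nr_sq hR]
    have h11 := tr_sq_le R
    have h12 := tr'_sq_le' R
    have h13 : 0 ≤ ∫ x, tr R x ^ 2 := (tr_sq_pos hR).le
    have h14 : (∫ x, tr R x ^ 2) ^ 2 ≤ π ^ 2 := pow_le_pow_left₀ h13 h11 2
    have h15 : 0 ≤ ∫ x, tr' R x ^ 2 := integral_nonneg fun x => sq_nonneg _
    calc (∫ x, tr R x ^ 2) ^ 2 * ∫ x, tr' R x ^ 2 ≤ π ^ 2 * (π / 8) :=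
          mul_le_mul h14 h12 h15 (by positivity)
      _ = π ^ 3 / 8 := by ring
  have hlim : K * (π / 2) ≤ π ^ 3 / 8 := by
    refine le_of_tendsto (tr_six_tendsto.const_mul K) ?_
    filter_upwards [eventually_gt_atTop 0] with R hR
    exact key R hR
  have : K * (π / 2) ≤ π ^ 2 / 4 * (π / 2) := by linarith
  exact le_of_mul_le_mul_right this (by positivity)

end Pool.Agent.TH199.LT
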