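import Pool.Agent.TH199.LT.CalH
import Pool.Agent.TH199.LT.Sc1

set_option autoImplicit false
set_option linter.unusedSectionVars false
set_option linter.deprecated false

open MeasureTheory Set Filter Topology Real
open scoped RealInnerProductSpace
open Pool.Helper490.Calib

namespace Pool.Agent.TH199.LT

variable {E : Type*} [NormedAddCommGroup E] [InnerProductSpace ℝ E] [FiniteDimensional ℝ E]

/-- The derivative of the moments. -/
noncomputable def dmo (u g : ℝ → E) (a : ℕ) (x : ℝ) : ℝ :=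
  2 * muv u x (g x) a + ∑ l ∈ Finset.range a, mo u l x * mo u (a - 1 - l) x

/-- The derivative of the calibration. -/
noncomputable def dPhi (u g : ℝ → E) (n : ℕ) (c : ℕ → ℝ) (x : ℝ) : ℝ :=
  ∑ j ∈ Finset.range n, c j *
    (dmo u g 0 x * mo u (2 * j + 1) x + mo u 0 x * dmo u g (2 * j + 1) x)

namespace SysH

variable {u g : ℝ → E} (h : SysH u g)
include h

lemma mo_bound2 (x : ℝ) (a : ℕ) : |mo u a x| * 2 ^ a ≤ ‖u x‖ ^ 2 := by
  obtain ⟨n, b, e, he, -, hc⟩ := h.coords x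
  rw [mo, exp_inner b, ← real_inner_self_eq_norm_sq, exp_inner b (u x) (u x)]
  have h2 : (0:ℝ) < 2 ^ a := by positivity
  rw [← le_div_iff₀ h2, Finset.sum_div]
  refine (Finset.abs_sum_le_sum_abs _ _).trans (Finset.sum_le_sum fun i _ => ?_)
  have h1 : |e i| ≤ 1 / 2 := abs_le.2 ⟨by linarith [(he i).1], by linarith [(he i).2]⟩
  have h3 : |e i| ^ a ≤ (1 / 2) ^ a := pow_le_pow_left₀ (abs_nonneg _) h1 a
  rw [hc, abs_mul, abs_mul, abs_pow]
  have h4 : ⟪b i, u x⟫ * ⟪b i, u x⟫ = |⟪b i, u x⟫| * |⟪b i, u x⟫| := (abs_mul_abs_self _).symm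
  rw [h4, le_div_iff₀ h2]
  have h5 : 0 ≤ |⟪b i, u x⟫| * |⟪b i, u x⟫| := by positivity
  have h6 : |e i| ^ a * 2 ^ a ≤ 1 := by
    calc |e i| ^ a * 2 ^ a ≤ (1 / 2) ^ a * 2 ^ a := mul_le_mul_of_nonneg_right h3 h2.le
      _ = 1 := by rw [← mul_pow]; norm_num
  calc |⟪b i, u x⟫| * (|e i| ^ a * |⟪b i, u x⟫|) * 2 ^ a =
        (|e i| ^ a * 2 ^ a) * (|⟪b i, u x⟫| * |⟪b i, u x⟫|) := by ring
    _ ≤ 1 * (|⟪b i, u x⟫| * |⟪b i, u x⟫|) := mul_le_mul_of_nonneg_right h6 h5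
    _ = _ := one_mul _

lemma dmo_meas (a : ℕ) : AEStronglyMeasurable (dmo u g a) volume := by
  have h1 : AEStronglyMeasurable (fun x => muv u x (g x) a) volume :=
    h.gm.inner ((h.Bpow_cont a).clm_apply h.uc).aestronglyMeasurable
  have h2 : Continuous fun x => ∑ l ∈ Finset.range a, mo u l x * mo u (a - 1 - l) x :=
    continuous_finset_sum _ fun l _ => (h.mo_cont l).mul (h.mo_cont _)
  exact (h1.const_mul 2).add h2.aestronglyMeasurable

theorem dPhi_int (n : ℕ) (c : ℕ → ℝ) :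
    Integrable (dPhi u g n c) ∧ ∫ x, dPhi u g n c x = 0 := by
  obtain ⟨M, hM0, hM⟩ := h.rho_bdd
  set Φ : ℝ → ℝ := fun x => ∑ j ∈ Finset.range n, c j * (mo u 0 x * mo u (2 * j + 1) x) with hΦ
  have hΦd : ∀ᵐ x, HasDerivAt Φ (dPhi u g n c x) x := by
    filter_upwards [h.ud] with x hx
    refine HasDerivAt.fun_sum fun j _ => ?_
    exact ((h.mo_deriv x hx 0).mul (h.mo_deriv x hx (2 * j + 1))).const_mul (c j)
  have hΦl : LAC Φ := LAC.sum _ fun j _ => LAC.const_mul (LAC.mul (h.mo_lac _) (h.mo_lac _)) _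
  have hΦ'c : AEStronglyMeasurable (dPhi u g n c) volume := by
    have hterm : ∀ j ∈ Finset.range n, AEStronglyMeasurable (fun x => c j *
      (dmo u g 0 x * mo u (2 * j + 1) x + mo u 0 x * dmo u g (2 * j + 1) x)) volume := fun j _ =>
      (((h.dmo_meas _).mul (h.mo_cont _).aestronglyMeasurable).add
        ((h.mo_cont _).aestronglyMeasurable.mul (h.dmo_meas _))).const_mul _
    exact Finset.aestronglyMeasurable_fun_sum _ hterm
  have hDmb : ∀ a x, |dmo u g a x| ≤ (‖u x‖ ^ 2 + ‖g x‖ ^ 2) + a * (M * ‖u x‖ ^ 2) := by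
    intro a x
    refine (abs_add_le _ _).trans (add_le_add (h.muv_bound x (g x) a) ?_)
    refine (Finset.abs_sum_le_sum_abs _ _).trans ?_
    have : ∀ l ∈ Finset.range a, |mo u l x * mo u (a - 1 - l) x| ≤ M * ‖u x‖ ^ 2 := by
      intro l _
      rw [abs_mul]
      exact mul_le_mul ((h.mo_bound x l).trans (hM x)) (h.mo_bound x _) (abs_nonneg _) hM0
    refine (Finset.sum_le_sum this).trans ?_
    rw [Finset.sum_const, Finset.card_range, nsmul_eq_mul]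
  have hterm : ∀ j x, |dmo u g 0 x * mo u (2 * j + 1) x + mo u 0 x * dmo u g (2 * j + 1) x| ≤
      ((‖u x‖ ^ 2 + ‖g x‖ ^ 2) + (0:ℕ) * (M * ‖u x‖ ^ 2)) * M +
      M * ((‖u x‖ ^ 2 + ‖g x‖ ^ 2) + (2 * j + 1 : ℕ) * (M * ‖u x‖ ^ 2)) := by
    intro j x
    refine (abs_add_le _ _).trans (add_le_add ?_ ?_)
    · rw [abs_mul]
      exact mul_le_mul (hDmb _ x) ((h.mo_bound x _).trans (hM x)) (abs_nonneg _) (by positivity)
    · rw [abs_mul]
      exact mul_le_mul ((h.mo_bound x _).trans (hM x)) (hDmb _ x) (abs_nonneg _) hM0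
  have hΦ'i : Integrable (dPhi u g n c) := by
    have hdom : Integrable (fun x => ∑ j ∈ Finset.range n, |c j| *
        (((‖u x‖ ^ 2 + ‖g x‖ ^ 2) + (0:ℕ) * (M * ‖u x‖ ^ 2)) * M +
      M * ((‖u x‖ ^ 2 + ‖g x‖ ^ 2) + (2 * j + 1 : ℕ) * (M * ‖u x‖ ^ 2)))) := by
      refine integrable_finset_sum _ fun q _ => Integrable.const_mul ?_ _
      refine Integrable.add (Integrable.mul_const ?_ _) (Integrable.const_mul ?_ _)
      · exact (h.hui.add h.hgi).add ((h.hui.const_mul _).const_mul _)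
      · exact (h.hui.add h.hgi).add ((h.hui.const_mul _).const_mul _)
    refine hdom.mono' hΦ'c (Eventually.of_forall fun x => ?_)
    rw [Real.norm_eq_abs, dPhi]
    refine (Finset.abs_sum_le_sum_abs _ _).trans (Finset.sum_le_sum fun q _ => ?_)
    rw [abs_mul]
    exact mul_le_mul_of_nonneg_left (hterm q x) (abs_nonneg _)
  have hΦb : ∀ x, |Φ x| ≤ (∑ j ∈ Finset.range n, |c j|) * (‖u x‖ ^ 2) ^ 2 := by
    intro x
    simp only [hΦ]
    rw [Finset.sum_mul]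
    refine (Finset.abs_sum_le_sum_abs _ _).trans (Finset.sum_le_sum fun q _ => ?_)
    rw [abs_mul, abs_mul, pow_two]
    refine mul_le_mul_of_nonneg_left ?_ (abs_nonneg _)
    exact mul_le_mul (h.mo_bound x _) (h.mo_bound x _) (abs_nonneg _) (sq_nonneg _)
  have hΦT : Tendsto Φ atTop (𝓝 0) := by
    refine squeeze_zero_norm hΦb ?_
    have := (h.rho_top.pow 2).const_mul (∑ j ∈ Finset.range n, |c j|)
    simpa using this
  have hΦB : Tendsto Φ atBot (𝓝 0) := by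
    refine squeeze_zero_norm hΦb ?_
    have := (h.rho_bot.pow 2).const_mul (∑ j ∈ Finset.range n, |c j|)
    simpa using this
  exact ⟨hΦ'i, hΦl.integral_eq hΦd hΦ'i hΦT hΦB⟩

/-- The derivative of the square root of the density. -/
noncomputable def _root_.Pool.Agent.TH199.LT.rr (u g : ℝ → E) (x : ℝ) : ℝ := ⟪u x, g x⟫ / ‖u x‖

omit h in
lemma rr_sq_le (x : ℝ) : rr u g x ^ 2 ≤ ‖g x‖ ^ 2 := by
  rw [rr, div_pow]
  rcases eq_or_ne (‖u x‖) 0 with h0 | h0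
  · rw [h0]; simp
  · rw [div_le_iff₀ (by positivity)]
    have h1 := abs_real_inner_le_norm (u x) (g x)
    have h2 := pow_le_pow_left₀ (abs_nonneg _) h1 2
    rw [sq_abs, mul_pow] at h2
    linarith

lemma rr_int : Integrable (fun x => rr u g x ^ 2) := by
  have hm : AEStronglyMeasurable (rr u g) volume := by
    have h1 : AEMeasurable (fun x => ⟪u x, g x⟫) volume :=
      (h.uc.aestronglyMeasurable.inner h.gm).aemeasurable
    have h2 : AEMeasurable (fun x => ‖u x‖) volume := h.uc.norm.aemeasurable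
    exact (h1.div h2).aestronglyMeasurable
  refine h.hgi.mono' (hm.pow 2) (Eventually.of_forall fun x => ?_)
  rw [Real.norm_eq_abs, abs_of_nonneg (sq_nonneg _)]
  exact rr_sq_le x

/-- The pointwise inequality. -/
theorem pointwise_sc {θ : ℝ} (h0 : 0 < θ) (h1 : θ ≤ 1) (n : ℕ) (x : ℝ) :
    θ ^ 2 * (π ^ 2 / 3 - 20 * ((n:ℝ) + 1) ^ 2 * θ ^ (2 * n)) * (‖u x‖ ^ 2) ^ 3 ≤
      ‖g x‖ ^ 2 + 3 * rr u g x ^ 2 +
        dPhi u g n (fun j => 2 * θ * (2 * θ) ^ (2 * j + 1) / (2 * (j:ℝ) + 1)) x := by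
  set c : ℕ → ℝ := fun j => 2 * θ * (2 * θ) ^ (2 * j + 1) / (2 * (j:ℝ) + 1) with hc
  have hmo0 : mo u 0 x = ‖u x‖ ^ 2 := congrFun h.mo_zero x
  rcases eq_or_ne (u x) 0 with hu0 | hu0
  · have hmo : ∀ a, mo u a x = 0 := fun a => by simp [mo, hu0]
    have e1 : dPhi u g n c x = 0 := by
      unfold dPhi
      refine Finset.sum_eq_zero fun j _ => ?_
      rw [hmo, hmo]; ring
    rw [e1, hu0]
    simp
    positivity
  have hρ : 0 < ‖u x‖ ^ 2 := by positivity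
  set ρ := ‖u x‖ ^ 2 with hρd
  set y : E := ∑ j ∈ Finset.range n, c j • (Bop u x ^ (2 * j + 1)) (u x) with hy
  set G : ℝ := ∑ j ∈ Finset.range n, c j * mo u (2 * j + 1) x with hG
  set Gg : ℝ := ∑ j ∈ Finset.range n, c j * muv u x (g x) (2 * j + 1) with hGg
  set M : ℝ := ∑ j ∈ Finset.range n, c j * ∑ l ∈ Finset.range (2 * j + 1),
    mo u l x * mo u (2 * j - l) x with hM
  set q : ℝ := ⟪u x, g x⟫ with hq
  have hyG : ⟪u x, y⟫ = G := by
    rw [hy, inner_sum, hG]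
    refine Finset.sum_congr rfl fun j _ => ?_
    rw [real_inner_smul_right, mo]
  have hyg : ⟪g x, y⟫ = Gg := by
    rw [hy, inner_sum, hGg]
    refine Finset.sum_congr rfl fun j _ => ?_
    rw [real_inner_smul_right, muv]
  have hyy : ‖y‖ ^ 2 = ∑ i ∈ Finset.range n, ∑ j ∈ Finset.range n,
      c i * c j * mo u (2 * (i + j + 1)) x := by
    rw [← real_inner_self_eq_norm_sq, hy, sum_inner]
    refine Finset.sum_congr rfl fun i _ => ?_
    rw [inner_sum]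
    refine Finset.sum_congr rfl fun j _ => ?_
    rw [real_inner_smul_left, real_inner_smul_right, h.Bop_pow_symm,
      ← ContinuousLinearMap.mul_apply, ← pow_add, mo,
      show 2 * i + 1 + (2 * j + 1) = 2 * (i + j + 1) by ring]
    ring
  have hdP : dPhi u g n c x = 2 * q * G + ρ * (2 * Gg + M) := by
    unfold dPhi dmo
    have e1 : ∀ j ∈ Finset.range n, c j *
        ((2 * muv u x (g x) 0 + ∑ l ∈ Finset.range 0, mo u l x * mo u (0 - 1 - l) x) *
            mo u (2 * j + 1) x +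
          mo u 0 x * (2 * muv u x (g x) (2 * j + 1) +
            ∑ l ∈ Finset.range (2 * j + 1), mo u l x * mo u (2 * j + 1 - 1 - l) x)) =
        2 * q * (c j * mo u (2 * j + 1) x) + ρ * (2 * (c j * muv u x (g x) (2 * j + 1)) +
          c j * ∑ l ∈ Finset.range (2 * j + 1), mo u l x * mo u (2 * j - l) x) := by
      intro j _
      rw [hmo0, Finset.range_zero, Finset.sum_empty, Nat.add_sub_cancel]
      have e2 : muv u x (g x) 0 = q := by
        rw [muv, pow_zero, ContinuousLinearMap.one_apply, hq, real_inner_comm]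
      rw [e2]
      ring
    rw [Finset.sum_congr rfl e1, Finset.sum_add_distrib, ← Finset.mul_sum, ← Finset.mul_sum,
      Finset.sum_add_distrib, ← Finset.mul_sum]
  -- Cauchy-Schwarz
  have hCS : (q + ρ * G) ^ 2 ≤ ρ * (‖g x‖ ^ 2 + 2 * ρ * Gg + ρ ^ 2 * ‖y‖ ^ 2) := by
    have i1 := abs_real_inner_le_norm (u x) (g x + ρ • y)
    have i2 := pow_le_pow_left₀ (abs_nonneg _) i1 2
    rw [sq_abs, mul_pow, inner_add_right, real_inner_smul_right, hyG] at i2
    have i3 : ‖g x + ρ • y‖ ^ 2 = ‖g x‖ ^ 2 + 2 * ρ * Gg + ρ ^ 2 * ‖y‖ ^ 2 := by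
      rw [norm_add_sq_real, real_inner_smul_right, hyg, norm_smul, mul_pow, Real.norm_eq_abs,
        sq_abs]
      ring
    rw [i3] at i2
    exact i2
  have hrr : rr u g x ^ 2 = q ^ 2 / ρ := by
    rw [rr, div_pow]
  have hA : 0 ≤ ‖g x‖ ^ 2 + 3 * rr u g x ^ 2 + 2 * q * G + 2 * ρ * Gg + ρ ^ 2 * ‖y‖ ^ 2 := by
    rw [hrr]
    have i1 : 0 ≤ (2 * q + ρ * G) ^ 2 / ρ := by positivity
    have i2 : (q + ρ * G) ^ 2 / ρ ≤ ‖g x‖ ^ 2 + 2 * ρ * Gg + ρ ^ 2 * ‖y‖ ^ 2 := by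
      rw [div_le_iff₀ hρ]
      linarith
    have i3 : (2 * q + ρ * G) ^ 2 / ρ = (q + ρ * G) ^ 2 / ρ + 3 * (q ^ 2 / ρ) + 2 * q * G := by
      field_simp
      ring
    linarith
  -- the sequence inequality
  set μ : ℕ → ℝ := fun m => mo u m x * (2 * θ) ^ m / ρ with hμ
  have hμ0 : μ 0 = 1 := by
    simp only [hμ]
    rw [hmo0, pow_zero, mul_one, div_self hρ.ne']
  have hμb : ∀ m, |μ m| ≤ θ ^ m := by
    intro m
    simp only [hμ]
    rw [abs_div, abs_mul, abs_of_pos hρ, abs_of_pos (by positivity : (0:ℝ) < (2 * θ) ^ m),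
      div_le_iff₀ hρ, mul_pow]
    have i1 := h.mo_bound2 x m
    have i2 : (0:ℝ) ≤ θ ^ m := by positivity
    calc |mo u m x| * (2 ^ m * θ ^ m) = θ ^ m * (|mo u m x| * 2 ^ m) := by ring
      _ ≤ θ ^ m * ρ := mul_le_mul_of_nonneg_left i1 i2
  have hseq := Sc.seq_bound h0.le h1 n μ hμ0 hμb
  have hMT : M = 2 * θ ^ 2 * ρ ^ 2 * ∑ j ∈ Finset.range n, 2 / (2 * (j:ℝ) + 1) *
        ∑ l ∈ Finset.range (2 * j + 1), μ l * μ (2 * j - l) := by
    rw [hM, Finset.mul_sum]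
    refine Finset.sum_congr rfl fun j _ => ?_
    have e1 : ∑ l ∈ Finset.range (2 * j + 1), μ l * μ (2 * j - l) =
        (2 * θ) ^ (2 * j) / ρ ^ 2 *
          ∑ l ∈ Finset.range (2 * j + 1), mo u l x * mo u (2 * j - l) x := by
      rw [Finset.mul_sum]
      refine Finset.sum_congr rfl fun l hl => ?_
      have hl' : l ≤ 2 * j := Nat.lt_succ_iff.1 (Finset.mem_range.1 hl)
      simp only [hμ]
      have e2 : (2 * θ) ^ (2 * j) = (2 * θ) ^ l * (2 * θ) ^ (2 * j - l) := by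
        rw [← pow_add]
        congr 1
        omega
      rw [e2]
      field_simp
    rw [e1]
    simp only [hc]
    have h2 : (2 * (j:ℝ) + 1) ≠ 0 := by positivity
    rw [pow_succ]
    field_simp
  have hyD : ρ * ‖y‖ ^ 2 = 4 * θ ^ 2 * ρ ^ 2 * ∑ i ∈ Finset.range n, ∑ j ∈ Finset.range n,
        μ (2 * (i + j + 1)) / ((2 * (i:ℝ) + 1) * (2 * j + 1)) := by
    rw [hyy, Finset.mul_sum, Finset.mul_sum]
    refine Finset.sum_congr rfl fun i _ => ?_
    rw [Finset.mul_sum, Finset.mul_sum]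
    refine Finset.sum_congr rfl fun j _ => ?_
    simp only [hc, hμ]
    have h2 : (2 * (j:ℝ) + 1) ≠ 0 := by positivity
    have h3 : (2 * (i:ℝ) + 1) ≠ 0 := by positivity
    have e2 : (2 * θ) ^ (2 * (i + j + 1)) = (2 * θ) ^ (2 * i + 1) * (2 * θ) ^ (2 * j + 1) := by
      rw [← pow_add]
      congr 1
      omega
    rw [e2]
    field_simp
    ring
  have hfin : θ ^ 2 * (π ^ 2 / 3 - 20 * ((n:ℝ) + 1) ^ 2 * θ ^ (2 * n)) * ρ ^ 3 ≤
      ρ * (M - ρ * ‖y‖ ^ 2) := by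
    rw [hMT, hyD]
    have i1 : 0 ≤ θ ^ 2 * ρ ^ 3 := by positivity
    have i2 := mul_le_mul_of_nonneg_left hseq i1
    linarith
  rw [hdP]
  nlinarith [hA, hfin]

/-- The semiclassical inequality with a gradient term. -/
theorem semiclassical : π ^ 2 / 3 * (∫ x, (‖u x‖ ^ 2) ^ 3) ≤
    (∫ x, ‖g x‖ ^ 2) + 3 * ∫ x, rr u g x ^ 2 := by
  set I := ∫ x, (‖u x‖ ^ 2) ^ 3 with hI
  set A := (∫ x, ‖g x‖ ^ 2) + 3 * ∫ x, rr u g x ^ 2 with hA
  have h1 : ∀ θ : ℝ, 0 < θ → θ ≤ 1 → ∀ n : ℕ,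
      θ ^ 2 * (π ^ 2 / 3 - 20 * ((n:ℝ) + 1) ^ 2 * θ ^ (2 * n)) * I ≤ A := by
    intro θ h0 h1 n
    have hd := h.dPhi_int n (fun j => 2 * θ * (2 * θ) ^ (2 * j + 1) / (2 * (j:ℝ) + 1))
    have i1 : Integrable (fun x => ‖g x‖ ^ 2 + 3 * rr u g x ^ 2) :=
      h.hgi.add (h.rr_int.const_mul 3)
    have i2 := integral_mono
      (h.rho3_int.const_mul (θ ^ 2 * (π ^ 2 / 3 - 20 * ((n:ℝ) + 1) ^ 2 * θ ^ (2 * n))))
      (i1.add hd.1) (fun x => h.pointwise_sc h0 h1 n x)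
    rw [integral_const_mul] at i2
    have i3 : ∫ x, (‖g x‖ ^ 2 + 3 * rr u g x ^ 2 +
        dPhi u g n (fun j => 2 * θ * (2 * θ) ^ (2 * j + 1) / (2 * (j:ℝ) + 1)) x) = A := by
      rw [integral_add i1 hd.1, hd.2, add_zero,
        integral_add h.hgi (h.rr_int.const_mul 3), integral_const_mul]
    exact i2.trans (le_of_eq i3)
  have h2 : ∀ θ : ℝ, 0 < θ → θ < 1 → θ ^ 2 * (π ^ 2 / 3) * I ≤ A := by
    intro θ h0 hlt
    have hr0 : 0 ≤ θ ^ 2 := sq_nonneg θ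
    have hr1 : |θ ^ 2| < 1 := by
      rw [abs_of_nonneg hr0]
      nlinarith
    have t2 := tendsto_pow_const_mul_const_pow_of_abs_lt_one 2 hr1
    have t1 := tendsto_pow_const_mul_const_pow_of_abs_lt_one 1 hr1
    have t0 := tendsto_pow_const_mul_const_pow_of_abs_lt_one 0 hr1
    have t3 : Tendsto (fun n : ℕ => ((n:ℝ) + 1) ^ 2 * θ ^ (2 * n)) atTop (𝓝 0) := by
      have t4 := (t2.add (t1.const_mul 2)).add t0
      simp only [mul_zero, add_zero] at t4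
      refine t4.congr fun n => ?_
      rw [pow_mul]
      ring
    have t5 : Tendsto (fun n : ℕ => θ ^ 2 * (π ^ 2 / 3 - 20 * ((n:ℝ) + 1) ^ 2 * θ ^ (2 * n)) * I)
        atTop (𝓝 (θ ^ 2 * (π ^ 2 / 3 - 20 * 0) * I)) := by
      refine (((t3.const_mul 20).const_sub (π ^ 2 / 3)).const_mul (θ ^ 2)).mul_const I |>.congr
        fun n => ?_
      ring
    have h3 := le_of_tendsto' t5 fun n => h1 θ h0 hlt.le n
    simpa using h3
  have t : Tendsto (fun θ : ℝ => θ ^ 2 * (π ^ 2 / 3) * I) (𝓝[<] 1)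
      (𝓝 (1 ^ 2 * (π ^ 2 / 3) * I)) := by
    have hc : Continuous fun θ : ℝ => θ ^ 2 * (π ^ 2 / 3) * I := by fun_prop
    exact (hc.tendsto 1).mono_left nhdsWithin_le_nhds
  have h3 := le_of_tendsto t (by
    have : Ioo (0:ℝ) 1 ∈ 𝓝[<] (1:ℝ) := Ioo_mem_nhdsLT (by norm_num)
    filter_upwards [this] with θ hθ
    exact h2 θ hθ.1 hθ.2)
  simpa using h3

end SysH

end Pool.Agent.TH199.LT
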