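import Pool.Agent.TH199.LT.Sc2
import Pool.Agent.TH199.LT.Fam

set_option autoImplicit false
set_option linter.unusedSectionVars false
set_option linter.deprecated false

open MeasureTheory Set Filter Topology Real
open scoped RealInnerProductSpace ENNReal
open Pool.Helper490.Calib

namespace Pool.Agent.TH199.LT

lemma LAC.ae_diff {f : ℝ → ℝ} (hf : LAC f) : ∀ᵐ x, DifferentiableAt ℝ f x := by
  have h : ∀ n : ℕ, ∀ᵐ x, x ∈ uIcc (-(n:ℝ)) n → DifferentiableAt ℝ f x := fun n =>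
    (hf _ _).ae_differentiableAt
  filter_upwards [ae_all_iff.2 h] with x hx
  obtain ⟨n, hn⟩ := exists_nat_ge |x|
  exact hx n (mem_uIcc.2 (Or.inl ⟨(abs_le.1 hn).1, (abs_le.1 hn).2⟩))

variable {E : Type*} [NormedAddCommGroup E] [InnerProductSpace ℝ E] [FiniteDimensional ℝ E]

namespace SysH

variable {u g : ℝ → E} (h : SysH u g)
include h

lemma norm_lac : LAC fun x => ‖u x‖ := by
  have hF : LAC fun x => ∫ t in (0:ℝ)..x, ‖g t‖ := by
    refine LAC.of_integral (f' := fun x => ‖g x‖) (fun a b => (h.gi a b).norm) fun a b => ?_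
    exact intervalIntegral.integral_interval_sub_left (h.gi 0 b).norm (h.gi 0 a).norm
  intro a b
  refine ac_of_dist_le (C := 1) (hF a b) fun x _ y _ => ?_
  rw [one_mul, Real.dist_eq, Real.dist_eq,
    intervalIntegral.integral_interval_sub_left (h.gi 0 x).norm (h.gi 0 y).norm]
  refine (abs_norm_sub_norm_le _ _).trans ?_
  rw [h.hug y x]
  exact intervalIntegral.norm_integral_le_abs_integral_norm

lemma norm_deriv : ∀ᵐ x, HasDerivAt (fun x => ‖u x‖) (rr u g x) x := by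
  filter_upwards [h.ud, h.norm_lac.ae_diff] with x hx hd
  rcases eq_or_ne (u x) 0 with h0 | h0
  · have hmin : IsLocalMin (fun x => ‖u x‖) x := Eventually.of_forall fun y => by
      simp [h0]
    have h1 := hmin.deriv_eq_zero
    have h2 : rr u g x = 0 := by simp [rr, h0]
    rw [h2, ← h1]
    exact hd.hasDerivAt
  · have h1 : HasDerivAt (fun x => ‖u x‖ ^ 2) (2 * ⟪u x, g x⟫) x := hx.norm_sq
    have h2 : ‖u x‖ ^ 2 ≠ 0 := by positivity
    have h3 := h1.sqrt h2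
    simp only [Real.sqrt_sq (norm_nonneg _)] at h3
    refine h3.congr_deriv ?_
    have h4 : ‖u x‖ ≠ 0 := by positivity
    rw [rr]
    field_simp

lemma norm_deriv_eq : (fun x => deriv (fun x => ‖u x‖) x) =ᵐ[volume] rr u g := by
  filter_upwards [h.norm_deriv] with x hx
  exact hx.deriv

lemma rr_meas : AEStronglyMeasurable (rr u g) volume := by
  have h1 : AEMeasurable (fun x => ⟪u x, g x⟫) volume :=
    (h.uc.aestronglyMeasurable.inner h.gm).aemeasurable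
  have h2 : AEMeasurable (fun x => ‖u x‖) volume := h.uc.norm.aemeasurable
  exact (h1.div h2).aestronglyMeasurable

lemma norm_deriv_memLp : MemLp (fun x => deriv (fun x => ‖u x‖) x) 2 := by
  have h1 : MemLp (rr u g) 2 := (memLp_two_iff_integrable_sq h.rr_meas).2 h.rr_int
  exact (memLp_congr_ae h.norm_deriv_eq).2 h1

lemma norm_ftc (a b : ℝ) : ‖u b‖ - ‖u a‖ = ∫ x in a..b, deriv (fun x => ‖u x‖) x := by
  have h1 : ∀ᵐ x, HasDerivAt (fun x => ‖u x‖) (deriv (fun x => ‖u x‖) x) x := by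
    filter_upwards [h.norm_lac.ae_diff] with x hx
    exact hx.hasDerivAt
  exact (h.norm_lac.ftc h1 a b).symm

lemma norm_deriv_sq : ∫ x, (deriv (fun x => ‖u x‖) x) ^ 2 = ∫ x, rr u g x ^ 2 := by
  refine integral_congr_ae ?_
  filter_upwards [h.norm_deriv_eq] with x hx
  rw [hx]

lemma weiz_le : ∫ x, rr u g x ^ 2 ≤ ∫ x, ‖g x‖ ^ 2 :=
  integral_mono h.rr_int h.hgi fun x => rr_sq_le x

end SysH

/-- The inequality for families. -/
theorem family_sc {N : ℕ} (ν : Fin N → ℝ) (hν : ∀ n, ν n ≤ 1) (u g : Fin N → ℝ → ℂ)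
    (hu2 : ∀ n, MemLp (u n) 2) (hg2 : ∀ n, MemLp (g n) 2)
    (hug : ∀ n a b, u n b - u n a = ∫ x in a..b, g n x)
    (ho : ∀ n m, ∫ x, star (u n x) * u m x = if n = m then (ν n : ℂ) else 0) :
    MemLp (fun x => √(∑ n, ‖u n x‖ ^ 2)) 2 ∧
    MemLp (deriv fun x => √(∑ n, ‖u n x‖ ^ 2)) 2 ∧
    (∀ a b, √(∑ n, ‖u n b‖ ^ 2) - √(∑ n, ‖u n a‖ ^ 2) =
      ∫ x in a..b, deriv (fun x => √(∑ n, ‖u n x‖ ^ 2)) x) ∧
    Integrable (fun x => (∑ n, ‖u n x‖ ^ 2) ^ 3) ∧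
    ∫ x, (deriv (fun x => √(∑ n, ‖u n x‖ ^ 2)) x) ^ 2 ≤ ∑ n, ∫ x, ‖g n x‖ ^ 2 ∧
    π ^ 2 / 3 * (∫ x, (∑ n, ‖u n x‖ ^ 2) ^ 3) ≤
      (∑ n, ∫ x, ‖g n x‖ ^ 2) + 3 * ∫ x, (deriv (fun x => √(∑ n, ‖u n x‖ ^ 2)) x) ^ 2 := by
  have h := sys_of_family ν hν u g hu2 hg2 hug ho
  set U : ℝ → EuclideanSpace ℝ (Fin N ⊕ Fin N) := fun x => realify fun n => u n x with hU
  set G : ℝ → EuclideanSpace ℝ (Fin N ⊕ Fin N) := fun x => realify fun n => g n x with hG
  have hgi : ∀ n, Integrable (fun x => ‖g n x‖ ^ 2) := fun n =>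
    (hg2 n).integrable_norm_pow (by norm_num)
  have hUn : ∀ x, √(∑ n, ‖u n x‖ ^ 2) = ‖U x‖ := by
    intro x
    have h1 : ‖U x‖ ^ 2 = ∑ n, ‖u n x‖ ^ 2 := by simp only [hU, realify_norm]
    rw [← h1, Real.sqrt_sq (norm_nonneg _)]
  have hUn2 : ∀ x, (∑ n, ‖u n x‖ ^ 2) = ‖U x‖ ^ 2 := fun x => by simp only [hU, realify_norm]
  have hGn : ∑ n, ∫ x, ‖g n x‖ ^ 2 = ∫ x, ‖G x‖ ^ 2 := by
    simp only [hG, realify_norm]
    rw [integral_finsetSum _ fun n _ => hgi n]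
  simp only [hUn]
  rw [hGn]
  simp only [hUn2]
  refine ⟨h.hu2.norm, h.norm_deriv_memLp, h.norm_ftc, h.rho3_int, ?_, ?_⟩
  · rw [h.norm_deriv_sq]
    exact h.weiz_le
  · rw [h.norm_deriv_sq]
    exact h.semiclassical

end Pool.Agent.TH199.LT
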