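import Pool.Agent.Helper490.LTSech

set_option autoImplicit false
set_option linter.unusedSectionVars false
set_option linter.deprecated false

open MeasureTheory Set Filter Topology Real

namespace Pool.Agent.TH199.LT.Tst

open Pool.Helper490

/-- The phase. -/
noncomputable def ph (x : ℝ) : ℝ := arctan (sinh x)

lemma ph_deriv (x : ℝ) : HasDerivAt ph (cosh x)⁻¹ x := Sech.arctan_sinh_deriv x

/-- The test functions. -/
noncomputable def tu (j x : ℝ) : ℂ :=
  ((Sech.w x / √π : ℝ) : ℂ) * Complex.exp (((2 * j * ph x : ℝ) : ℂ) * Complex.I)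

/-- Their derivatives. -/
noncomputable def tg (j x : ℝ) : ℂ :=
  (((Sech.w' x / √π : ℝ) : ℂ) + ((2 * j * (cosh x)⁻¹ * (Sech.w x / √π) : ℝ) : ℂ) * Complex.I) *
    Complex.exp (((2 * j * ph x : ℝ) : ℂ) * Complex.I)

lemma tu_deriv (j x : ℝ) : HasDerivAt (tu j) (tg j x) x := by
  have h1 : HasDerivAt (fun x => ((Sech.w x / √π : ℝ) : ℂ)) ((Sech.w' x / √π : ℝ) : ℂ) x :=
    ((Sech.w_deriv x).div_const _).ofReal_comp
  have h2 : HasDerivAt (fun x => (((2 * j * ph x : ℝ) : ℂ) * Complex.I))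
      (((2 * j * (cosh x)⁻¹ : ℝ) : ℂ) * Complex.I) x :=
    (((ph_deriv x).const_mul (2 * j)).ofReal_comp).mul_const _
  refine (h1.mul h2.cexp).congr_deriv ?_
  rw [tg]
  push_cast
  ring

lemma tu_norm (j x : ℝ) : ‖tu j x‖ ^ 2 = (cosh x)⁻¹ / π := by
  have hpi := pi_pos
  rw [tu, norm_mul, Complex.norm_exp_ofReal_mul_I, mul_one, Complex.norm_real, Real.norm_eq_abs,
    sq_abs, div_pow, Sech.w_sq, Real.sq_sqrt hpi.le]

lemma tg_norm (j x : ℝ) :
    ‖tg j x‖ ^ 2 = Sech.w' x ^ 2 / π + 4 * j ^ 2 / π * (cosh x)⁻¹ ^ 3 := by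
  have hpi := pi_pos
  rw [tg, norm_mul, Complex.norm_exp_ofReal_mul_I, mul_one, ← Complex.normSq_eq_norm_sq,
    Complex.normSq_add_mul_I, mul_pow, div_pow, div_pow, Sech.w_sq, Real.sq_sqrt hpi.le]
  ring

lemma tu_cont (j : ℝ) : Continuous (tu j) :=
  continuous_iff_continuousAt.2 fun x => (tu_deriv j x).continuousAt

lemma ph_cont : Continuous ph := continuous_iff_continuousAt.2 fun x => (ph_deriv x).continuousAt

lemma cosh_inv_cont : Continuous fun x : ℝ => (cosh x)⁻¹ :=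
  continuous_cosh.inv₀ fun x => (cosh_pos x).ne'

lemma tg_cont (j : ℝ) : Continuous (tg j) := by
  unfold tg
  refine Continuous.mul (Continuous.add ?_ (Continuous.mul ?_ continuous_const)) ?_
  · exact Complex.continuous_ofReal.comp (Sech.w'_cont.div_const _)
  · exact Complex.continuous_ofReal.comp
      ((continuous_const.mul cosh_inv_cont).mul (Sech.w_cont.div_const _))
  · exact Complex.continuous_exp.comp
      ((Complex.continuous_ofReal.comp (continuous_const.mul ph_cont)).mul continuous_const)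

lemma tu_memLp (j : ℝ) : MemLp (tu j) 2 := by
  rw [memLp_two_iff_integrable_sq_norm (tu_cont j).aestronglyMeasurable]
  simp only [tu_norm]
  exact Sech.int_sech.div_const _

lemma tg_int (j : ℝ) : Integrable (fun x => ‖tg j x‖ ^ 2) := by
  simp only [tg_norm]
  exact (Sech.int_w'_sq.div_const _).add (Sech.int_sech3.const_mul _)

lemma tg_memLp (j : ℝ) : MemLp (tg j) 2 := by
  rw [memLp_two_iff_integrable_sq_norm (tg_cont j).aestronglyMeasurable]
  exact tg_int j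

lemma tg_integral (j : ℝ) : ∫ x, ‖tg j x‖ ^ 2 = 1 / 8 + 2 * j ^ 2 := by
  have hpi := pi_pos
  simp only [tg_norm]
  rw [integral_add (Sech.int_w'_sq.div_const _) (Sech.int_sech3.const_mul _), integral_div,
    integral_const_mul, Sech.integral_w'_sq, Sech.integral_sech3]
  field_simp
  ring

lemma tu_ftc (j a b : ℝ) : tu j b - tu j a = ∫ x in a..b, tg j x := by
  rw [intervalIntegral.integral_eq_sub_of_hasDerivAt (f := tu j)]
  · intro x _
    exact tu_deriv j x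
  · exact (tg_cont j).intervalIntegrable _ _

lemma tu_mul (j k x : ℝ) : star (tu j x) * tu k x =
    (((cosh x)⁻¹ / π : ℝ) : ℂ) * Complex.exp (((2 * (k - j) * ph x : ℝ) : ℂ) * Complex.I) := by
  have hpi := pi_pos
  have h1 : star (Complex.exp (((2 * j * ph x : ℝ) : ℂ) * Complex.I)) =
      Complex.exp (-(((2 * j * ph x : ℝ) : ℂ) * Complex.I)) := by
    change (starRingEnd ℂ) _ = _
    rw [← Complex.exp_conj]
    congr 1
    rw [map_mul, Complex.conj_ofReal, Complex.conj_I]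
    ring
  have h2 : star (((Sech.w x / √π : ℝ) : ℂ)) = ((Sech.w x / √π : ℝ) : ℂ) :=
    Complex.conj_ofReal _
  rw [tu, tu, star_mul', h1, h2]
  have h3 : (((cosh x)⁻¹ / π : ℝ) : ℂ) =
      ((Sech.w x / √π : ℝ) : ℂ) * ((Sech.w x / √π : ℝ) : ℂ) := by
    rw [← Complex.ofReal_mul]
    congr 1
    rw [← pow_two, div_pow, Sech.w_sq, Real.sq_sqrt hpi.le]
  have h4 : (((2 * (k - j) * ph x : ℝ) : ℂ) * Complex.I) =
      -(((2 * j * ph x : ℝ) : ℂ) * Complex.I) + (((2 * k * ph x : ℝ) : ℂ) * Complex.I) := by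
    push_cast
    ring
  rw [h3, h4, Complex.exp_add]
  ring

lemma tu_on {j k : ℝ} {m : ℤ} (hm : k - j = m) :
    ∫ x, star (tu j x) * tu k x = if m = 0 then (1 : ℂ) else 0 := by
  have hpi := pi_pos
  simp only [tu_mul, hm]
  split_ifs with h0
  · rw [h0]
    have e : ∀ x : ℝ, (((cosh x)⁻¹ / π : ℝ) : ℂ) *
        Complex.exp (((2 * ((0:ℤ):ℝ) * ph x : ℝ) : ℂ) * Complex.I) =
        (((cosh x)⁻¹ / π : ℝ) : ℂ) := by
      intro x
      simp
    simp only [e]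
    rw [integral_complex_ofReal, integral_div, Sech.integral_sech, div_self hpi.ne']
    simp
  · have hm0 : (m:ℂ) ≠ 0 := by exact_mod_cast h0
    have hpc : (π:ℂ) ≠ 0 := by exact_mod_cast hpi.ne'
    have hd : ∀ x : ℝ, HasDerivAt (fun x : ℝ =>
        Complex.exp (((2 * (m:ℝ) * ph x : ℝ) : ℂ) * Complex.I) / (2 * m * π * Complex.I))
        ((((cosh x)⁻¹ / π : ℝ) : ℂ) *
          Complex.exp (((2 * (m:ℝ) * ph x : ℝ) : ℂ) * Complex.I)) x := by
      intro x
      have h2 : HasDerivAt (fun x => (((2 * (m:ℝ) * ph x : ℝ) : ℂ) * Complex.I))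
          (((2 * (m:ℝ) * (cosh x)⁻¹ : ℝ) : ℂ) * Complex.I) x :=
        (((ph_deriv x).const_mul (2 * (m:ℝ))).ofReal_comp).mul_const _
      refine (h2.cexp.div_const _).congr_deriv ?_
      have hI := Complex.I_ne_zero
      push_cast
      field_simp
    have hint : Integrable (fun x : ℝ => (((cosh x)⁻¹ / π : ℝ) : ℂ) *
          Complex.exp (((2 * (m:ℝ) * ph x : ℝ) : ℂ) * Complex.I)) := by
      have hc : Continuous (fun x : ℝ => (((cosh x)⁻¹ / π : ℝ) : ℂ) *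
          Complex.exp (((2 * (m:ℝ) * ph x : ℝ) : ℂ) * Complex.I)) :=
        (Complex.continuous_ofReal.comp (cosh_inv_cont.div_const _)).mul
          (Complex.continuous_exp.comp
            ((Complex.continuous_ofReal.comp (continuous_const.mul ph_cont)).mul continuous_const))
      refine (Sech.int_sech.div_const π).mono' hc.aestronglyMeasurable
        (Eventually.of_forall fun x => ?_)
      rw [norm_mul, Complex.norm_exp_ofReal_mul_I, mul_one, Complex.norm_real, Real.norm_eq_abs,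
        abs_of_nonneg (div_nonneg (inv_nonneg.2 (cosh_pos x).le) hpi.le)]
    have hlim : ∀ {l : Filter ℝ} {t : ℝ}, Tendsto ph l (𝓝 t) → Tendsto (fun x : ℝ =>
        Complex.exp (((2 * (m:ℝ) * ph x : ℝ) : ℂ) * Complex.I) / (2 * m * π * Complex.I)) l
        (𝓝 (Complex.exp (((2 * (m:ℝ) * t : ℝ) : ℂ) * Complex.I) / (2 * m * π * Complex.I))) := by
      intro l t ht
      have hc : Continuous fun t : ℝ =>
          Complex.exp (((2 * (m:ℝ) * t : ℝ) : ℂ) * Complex.I) / (2 * m * π * Complex.I) := by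
        fun_prop
      exact (hc.tendsto t).comp ht
    rw [integral_of_hasDerivAt_of_tendsto hd hint (hlim Sech.tendsto_arctan_sinh_bot)
      (hlim Sech.tendsto_arctan_sinh_top)]
    have e : Complex.exp (((2 * (m:ℝ) * (π / 2) : ℝ) : ℂ) * Complex.I) =
        Complex.exp (((2 * (m:ℝ) * (-(π / 2)) : ℝ) : ℂ) * Complex.I) := by
      have e1 : (((2 * (m:ℝ) * (π / 2) : ℝ) : ℂ) * Complex.I) =
          (((2 * (m:ℝ) * (-(π / 2)) : ℝ) : ℂ) * Complex.I) + m * (2 * π * Complex.I) := by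
        push_cast
        ring
      rw [e1, Complex.exp_add, Complex.exp_int_mul_two_pi_mul_I, mul_one]
    rw [e, sub_self]

lemma sum_sq (K : ℕ) (a : ℝ) : ∑ n ∈ Finset.range K, ((n:ℝ) - a) ^ 2 =
    K * (K - 1) * (2 * K - 1) / 6 - a * K * (K - 1) + a ^ 2 * K := by
  induction K with
  | zero => simp
  | succ K ih =>
    rw [Finset.sum_range_succ, ih]
    push_cast
    ring

/-- The bound from the test systems. -/
theorem test_bound {C κ : ℝ} (hκ : ∀ (N : ℕ) (u g : Fin N → ℝ → ℂ), (∀ n, MemLp (u n) 2) →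
      (∀ n, MemLp (g n) 2) → (∀ n a b, u n b - u n a = ∫ x in a..b, g n x) →
      (∀ n m, ∫ x, star (u n x) * u m x = if n = m then (1 : ℂ) else 0) →
      κ * ∫ x, (∑ n, ‖u n x‖ ^ 2) ^ 3 ≤ (∑ n, ∫ x, ‖g n x‖ ^ 2) +
        C * ∫ x, (deriv (fun x => √(∑ n, ‖u n x‖ ^ 2)) x) ^ 2) (M : ℕ) :
    κ * ((2 * (M:ℝ) + 1) ^ 2 / (2 * π ^ 2)) ≤ (1 + C) / 8 + ((2 * (M:ℝ) + 1) ^ 2 - 1) / 6 := by
  have hpi := pi_pos
  have h := hκ (2 * M + 1) (fun n => tu ((n:ℕ) - (M:ℝ))) (fun n => tg ((n:ℕ) - (M:ℝ)))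
    (fun n => tu_memLp _) (fun n => tg_memLp _) (fun n a b => tu_ftc _ a b) (fun n m => by
      have h1 : ((m:ℕ):ℝ) - M - (((n:ℕ):ℝ) - M) = (((m:ℕ):ℤ) - ((n:ℕ):ℤ) : ℤ) := by
        push_cast
        ring
      rw [tu_on h1]
      have h2 : (((m:ℕ):ℤ) - ((n:ℕ):ℤ) = 0) ↔ n = m := by
        rw [sub_eq_zero, Nat.cast_inj, Fin.ext_iff, eq_comm]
      by_cases h3 : n = m
      · rw [if_pos (h2.2 h3), if_pos h3]
      · rw [if_neg (fun h4 => h3 (h2.1 h4)), if_neg h3])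
  simp only [tu_norm, tg_integral] at h
  have e1 : ∀ x : ℝ, ∑ _n : Fin (2 * M + 1), (cosh x)⁻¹ / π =
      ((2 * (M:ℝ) + 1) / π) * (cosh x)⁻¹ := by
    intro x
    rw [Finset.sum_const, Finset.card_univ, Fintype.card_fin, nsmul_eq_mul]
    push_cast
    ring
  have hc0 : 0 ≤ (2 * (M:ℝ) + 1) / π := by positivity
  have e2 : (fun x : ℝ => √(((2 * (M:ℝ) + 1) / π) * (cosh x)⁻¹)) =
      fun x => √((2 * (M:ℝ) + 1) / π) * Sech.w x := by
    funext x
    rw [Real.sqrt_mul hc0, Sech.w, Real.sqrt_inv]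
  have e3 : ∀ x, deriv (fun x => √((2 * (M:ℝ) + 1) / π) * Sech.w x) x =
      √((2 * (M:ℝ) + 1) / π) * Sech.w' x := fun x =>
    ((Sech.w_deriv x).const_mul _).deriv
  simp only [e1, e2, e3] at h
  simp only [mul_pow, Real.sq_sqrt hc0] at h
  rw [integral_const_mul, integral_const_mul, Sech.integral_sech3, Sech.integral_w'_sq] at h
  have e4 : ∑ n : Fin (2 * M + 1), (1 / 8 + 2 * (((n:ℕ):ℝ) - M) ^ 2) =
      (2 * (M:ℝ) + 1) / 8 + 2 * ((2 * (M:ℝ) + 1) * ((2 * (M:ℝ) + 1) ^ 2 - 1) / 12) := by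
    rw [Fin.sum_univ_eq_sum_range (fun n => (1 / 8 + 2 * ((n:ℝ) - M) ^ 2)),
      Finset.sum_add_distrib, ← Finset.mul_sum, sum_sq, Finset.sum_const, Finset.card_range,
      nsmul_eq_mul]
    push_cast
    ring
  rw [e4] at h
  have hN : (0:ℝ) < 2 * M + 1 := by positivity
  have h2 := div_le_div_of_nonneg_right h hN.le
  have e5 : κ * ((((2 * (M:ℝ) + 1) / π) ^ 3) * (π / 2)) / (2 * (M:ℝ) + 1) =
      κ * ((2 * (M:ℝ) + 1) ^ 2 / (2 * π ^ 2)) := by
    field_simp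
  have e6 : ((2 * (M:ℝ) + 1) / 8 + 2 * ((2 * (M:ℝ) + 1) * ((2 * (M:ℝ) + 1) ^ 2 - 1) / 12) +
      C * ((2 * (M:ℝ) + 1) / π * (π / 8))) / (2 * (M:ℝ) + 1) =
      (1 + C) / 8 + ((2 * (M:ℝ) + 1) ^ 2 - 1) / 6 := by
    field_simp
    ring
  rw [e5, e6] at h2
  exact h2

theorem test_one {C κ : ℝ}
    (h : ∀ M : ℕ, κ * ((2 * (M:ℝ) + 1) ^ 2 / (2 * π ^ 2)) ≤
      (1 + C) / 8 + ((2 * (M:ℝ) + 1) ^ 2 - 1) / 6) :
    κ ≤ (1 + C) * (π ^ 2 / 4) ∧ κ ≤ π ^ 2 / 3 := by
  have hpi := pi_pos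
  constructor
  · have h0 := h 0
    norm_num at h0
    have h1 : κ * (1 / (2 * π ^ 2)) = κ / (2 * π ^ 2) := by ring
    have h2 : κ / (2 * π ^ 2) ≤ (1 + C) / 8 := by
      rw [← h1]
      simpa using h0
    rw [div_le_iff₀ (by positivity)] at h2
    linarith
  · by_contra hcon
    push_neg at hcon
    set δ := κ / (2 * π ^ 2) - 1 / 6 with hδ
    have hδ0 : 0 < δ := by
      rw [hδ, sub_pos, lt_div_iff₀ (by positivity)]
      linarith
    obtain ⟨M, hM⟩ := exists_nat_gt (|1 + C| / δ)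
    have h1 := h M
    have h2 : κ * ((2 * (M:ℝ) + 1) ^ 2 / (2 * π ^ 2)) = (δ + 1 / 6) * (2 * (M:ℝ) + 1) ^ 2 := by
      rw [hδ]; ring
    rw [h2] at h1
    have h3 : |1 + C| < M * δ := (div_lt_iff₀ hδ0).1 hM
    have h4 := le_abs_self (1 + C)
    have hM0 : (0:ℝ) ≤ M := Nat.cast_nonneg M
    nlinarith [mul_nonneg hM0 hδ0.le, mul_nonneg (mul_nonneg hM0 hM0) hδ0.le, abs_nonneg (1 + C)]

end Pool.Agent.TH199.LT.Tst
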