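import Pool.Agent.TH199.LT.Sc4

set_option autoImplicit false
set_option linter.unusedSectionVars false
set_option linter.deprecated false

open MeasureTheory Set Filter Topology Real

namespace Pool.Agent.TH199.LT.Tst

open Pool.Helper490

lemma cos_ph (x : ℝ) : cos (ph x) = (cosh x)⁻¹ := by
  rw [ph, cos_arctan]
  have h5 : 1 + sinh x ^ 2 = cosh x ^ 2 := by have := cosh_sq x; linarith
  rw [h5, Real.sqrt_sq (cosh_pos x).le, one_div]

lemma sin_ph (x : ℝ) : sin (ph x) = sinh x * (cosh x)⁻¹ := by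
  rw [ph, sin_arctan]
  have h5 : 1 + sinh x ^ 2 = cosh x ^ 2 := by have := cosh_sq x; linarith
  rw [h5, Real.sqrt_sq (cosh_pos x).le, div_eq_mul_inv]

lemma sech_sq (x : ℝ) : (cosh x)⁻¹ ^ 2 = (1 + cos (2 * ph x)) / 2 := by
  rw [cos_two_mul, cos_ph]; ring

lemma tanh_sech (x : ℝ) : sinh x * (cosh x)⁻¹ ^ 2 = sin (2 * ph x) / 2 := by
  rw [sin_two_mul, cos_ph, sin_ph]; ring

lemma intc (a : ℝ) : Integrable (fun x => (cosh x)⁻¹ * cos (a * ph x)) := by
  have hc : Continuous fun x => (cosh x)⁻¹ * cos (a * ph x) :=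
    cosh_inv_cont.mul (continuous_cos.comp (continuous_const.mul ph_cont))
  refine Sech.int_sech.mono' hc.aestronglyMeasurable (Eventually.of_forall fun x => ?_)
  have h1 : 0 < (cosh x)⁻¹ := inv_pos.2 (cosh_pos x)
  rw [Real.norm_eq_abs, abs_mul, abs_of_pos h1]
  exact mul_le_of_le_one_right h1.le (abs_cos_le_one _)

lemma RA {m : ℤ} (hm : m ≠ 0) : ∫ x, (cosh x)⁻¹ * cos (2 * m * ph x) = 0 := by
  have hm0 : (m:ℝ) ≠ 0 := by exact_mod_cast hm
  have hd : ∀ x, HasDerivAt (fun x => sin (2 * m * ph x) / (2 * m))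
      ((cosh x)⁻¹ * cos (2 * m * ph x)) x := by
    intro x
    refine ((((ph_deriv x).const_mul (2 * (m:ℝ))).sin).div_const _).congr_deriv ?_
    field_simp
  have hlim : ∀ {l : Filter ℝ} {t : ℝ}, Tendsto ph l (𝓝 t) →
      Tendsto (fun x => sin (2 * m * ph x) / (2 * m)) l (𝓝 (sin (2 * m * t) / (2 * m))) := by
    intro l t ht
    have hc : Continuous fun t : ℝ => sin (2 * m * t) / (2 * m) := by fun_prop
    exact (hc.tendsto t).comp ht
  rw [integral_of_hasDerivAt_of_tendsto hd (intc _) (hlim Sech.tendsto_arctan_sinh_bot)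
    (hlim Sech.tendsto_arctan_sinh_top)]
  have e1 : 2 * (m:ℝ) * (π / 2) = m * π := by ring
  have e2 : 2 * (m:ℝ) * (-(π / 2)) = -(m * π) := by ring
  rw [e1, e2, sin_neg, sin_int_mul_pi]
  simp

lemma RBf (a x : ℝ) : (cosh x)⁻¹ ^ 3 * cos (a * ph x) = 1 / 2 * ((cosh x)⁻¹ * cos (a * ph x)) +
    (1 / 4 * ((cosh x)⁻¹ * cos ((a + 2) * ph x)) +
      1 / 4 * ((cosh x)⁻¹ * cos ((a - 2) * ph x))) := by
  have e : (cosh x)⁻¹ ^ 3 = (cosh x)⁻¹ * (cosh x)⁻¹ ^ 2 := by ring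
  rw [e, sech_sq]
  have e1 : (a + 2) * ph x = a * ph x + 2 * ph x := by ring
  have e2 : (a - 2) * ph x = a * ph x - 2 * ph x := by ring
  rw [e1, e2, cos_add, cos_sub]
  ring

lemma intB (a : ℝ) : Integrable (fun x => (cosh x)⁻¹ ^ 3 * cos (a * ph x)) := by
  simp only [RBf]
  exact ((intc a).const_mul _).add (((intc _).const_mul _).add ((intc _).const_mul _))

lemma RB {m : ℤ} (h0 : m ≠ 0) (h1 : m ≠ 1) (h2 : m ≠ -1) :
    ∫ x, (cosh x)⁻¹ ^ 3 * cos (2 * m * ph x) = 0 := by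
  simp only [RBf]
  have i1 : Integrable (fun x => 1 / 2 * ((cosh x)⁻¹ * cos (2 * m * ph x))) := (intc _).const_mul _
  have i2 : Integrable (fun x => 1 / 4 * ((cosh x)⁻¹ * cos ((2 * m + 2) * ph x))) :=
    (intc _).const_mul _
  have i3 : Integrable (fun x => 1 / 4 * ((cosh x)⁻¹ * cos ((2 * m - 2) * ph x))) :=
    (intc _).const_mul _
  have i4 : Integrable (fun x => 1 / 4 * ((cosh x)⁻¹ * cos ((2 * m + 2) * ph x)) +
    1 / 4 * ((cosh x)⁻¹ * cos ((2 * m - 2) * ph x))) := i2.add i3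
  rw [integral_add i1 i4, integral_add i2 i3, integral_const_mul,
    integral_const_mul, integral_const_mul, RA h0]
  have e1 : (2 * (m:ℝ) + 2) = 2 * ((m + 1 : ℤ):ℝ) := by push_cast; ring
  have e2 : (2 * (m:ℝ) - 2) = 2 * ((m - 1 : ℤ):ℝ) := by push_cast; ring
  simp only [e1, e2]
  rw [RA (by omega), RA (by omega)]
  simp

lemma RCf (a x : ℝ) : sinh x * (cosh x)⁻¹ ^ 3 * sin (a * ph x) =
    (1 / 4 * ((cosh x)⁻¹ * cos ((a - 2) * ph x)) -
      1 / 4 * ((cosh x)⁻¹ * cos ((a + 2) * ph x))) := by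
  have e : sinh x * (cosh x)⁻¹ ^ 3 = (cosh x)⁻¹ * (sinh x * (cosh x)⁻¹ ^ 2) := by ring
  rw [e, tanh_sech]
  have e1 : (a + 2) * ph x = a * ph x + 2 * ph x := by ring
  have e2 : (a - 2) * ph x = a * ph x - 2 * ph x := by ring
  rw [e1, e2, cos_add, cos_sub]
  ring

lemma intC (a : ℝ) : Integrable (fun x => sinh x * (cosh x)⁻¹ ^ 3 * sin (a * ph x)) := by
  simp only [RCf]
  exact ((intc _).const_mul _).sub ((intc _).const_mul _)

lemma RC {m : ℤ} (h1 : m ≠ 1) (h2 : m ≠ -1) :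
    ∫ x, sinh x * (cosh x)⁻¹ ^ 3 * sin (2 * m * ph x) = 0 := by
  simp only [RCf]
  rw [integral_sub ((intc _).const_mul _) ((intc _).const_mul _), integral_const_mul,
    integral_const_mul]
  have e1 : (2 * (m:ℝ) + 2) = 2 * ((m + 1 : ℤ):ℝ) := by push_cast; ring
  have e2 : (2 * (m:ℝ) - 2) = 2 * ((m - 1 : ℤ):ℝ) := by push_cast; ring
  simp only [e1, e2]
  rw [RA (by omega), RA (by omega)]
  simp

lemma tu_re (j k x : ℝ) : (star (tu j x) * tu k x).re =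
    (cosh x)⁻¹ / π * cos (2 * (k - j) * ph x) := by
  rw [tu_mul, Complex.re_ofReal_mul, Complex.exp_ofReal_mul_I_re]

lemma w_w' (x : ℝ) : Sech.w x * Sech.w' x = -(1 / 2) * (sinh x * (cosh x)⁻¹ ^ 2) := by
  have h3 := Sech.scp x
  have h4 := cosh_pos x
  have h5 := Sech.sc x
  rw [Sech.w, Sech.w']
  field_simp
  rw [h5]
  ring

lemma tg_re (j k x : ℝ) : (star (tg j x) * tg k x).re =
    1 / π * ((Sech.w' x ^ 2 + 4 * j * k * (cosh x)⁻¹ ^ 3) * cos (2 * (k - j) * ph x) +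
      (k - j) * (sinh x * (cosh x)⁻¹ ^ 3 * sin (2 * (k - j) * ph x))) := by
  have hpi := pi_pos
  have hs : √π ≠ 0 := (Real.sqrt_pos.2 hpi).ne'
  have h1 : star (Complex.exp (((2 * j * ph x : ℝ) : ℂ) * Complex.I)) =
      Complex.exp (-(((2 * j * ph x : ℝ) : ℂ) * Complex.I)) := by
    change (starRingEnd ℂ) _ = _
    rw [← Complex.exp_conj]
    congr 1
    rw [map_mul, Complex.conj_ofReal, Complex.conj_I]
    ring
  have h4 : Complex.exp (-(((2 * j * ph x : ℝ) : ℂ) * Complex.I)) *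
      Complex.exp (((2 * k * ph x : ℝ) : ℂ) * Complex.I) =
      Complex.exp (((2 * (k - j) * ph x : ℝ) : ℂ) * Complex.I) := by
    rw [← Complex.exp_add]
    congr 1
    push_cast
    ring
  set A : ℝ := Sech.w' x / √π with hA
  set B : ℝ := (cosh x)⁻¹ * (Sech.w x / √π) with hB
  have e1 : tg j x = ((A : ℂ) + ((2 * j * B : ℝ) : ℂ) * Complex.I) *
      Complex.exp (((2 * j * ph x : ℝ) : ℂ) * Complex.I) := by
    rw [tg, hA, hB]; congr 3; push_cast; ring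
  have e2 : tg k x = ((A : ℂ) + ((2 * k * B : ℝ) : ℂ) * Complex.I) *
      Complex.exp (((2 * k * ph x : ℝ) : ℂ) * Complex.I) := by
    rw [tg, hA, hB]; congr 3; push_cast; ring
  have e3 : star ((A : ℂ) + ((2 * j * B : ℝ) : ℂ) * Complex.I) =
      (A : ℂ) - ((2 * j * B : ℝ) : ℂ) * Complex.I := by
    change (starRingEnd ℂ) _ = _
    rw [map_add, map_mul, Complex.conj_ofReal, Complex.conj_ofReal, Complex.conj_I]
    ring
  rw [e1, e2, star_mul', h1, e3]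
  have e4 : ((A : ℂ) - ((2 * j * B : ℝ) : ℂ) * Complex.I) *
      Complex.exp (-(((2 * j * ph x : ℝ) : ℂ) * Complex.I)) *
      (((A : ℂ) + ((2 * k * B : ℝ) : ℂ) * Complex.I) *
        Complex.exp (((2 * k * ph x : ℝ) : ℂ) * Complex.I)) =
      (((A ^ 2 + 4 * j * k * B ^ 2 : ℝ) : ℂ) + ((2 * (k - j) * (A * B) : ℝ) : ℂ) * Complex.I) *
        Complex.exp (((2 * (k - j) * ph x : ℝ) : ℂ) * Complex.I) := by
    rw [← h4]
    push_cast
    linear_combination ((-4 * (j:ℂ) * k * B ^ 2) *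
      (Complex.exp (-((2 * (j:ℂ) * (ph x:ℂ)) * Complex.I)) *
        Complex.exp ((2 * (k:ℂ) * (ph x:ℂ)) * Complex.I))) * Complex.I_sq
  rw [e4, Complex.mul_re, Complex.exp_ofReal_mul_I_re, Complex.exp_ofReal_mul_I_im]
  simp only [Complex.add_re, Complex.add_im, Complex.ofReal_re, Complex.ofReal_im, Complex.mul_re,
    Complex.mul_im, Complex.I_re, Complex.I_im, mul_zero, mul_one, sub_zero, add_zero,
    zero_add]
  have f1 : A ^ 2 = 1 / π * Sech.w' x ^ 2 := by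
    rw [hA, div_pow, Real.sq_sqrt hpi.le]; ring
  have f2 : B ^ 2 = 1 / π * (cosh x)⁻¹ ^ 3 := by
    rw [hB, mul_pow, div_pow, Sech.w_sq, Real.sq_sqrt hpi.le]; ring
  have f3 : A * B = 1 / π * (-(1 / 2) * (sinh x * (cosh x)⁻¹ ^ 3)) := by
    have e : A * B = (cosh x)⁻¹ * (Sech.w x * Sech.w' x) / (√π * √π) := by
      rw [hA, hB]; field_simp
    rw [e, w_w', Real.mul_self_sqrt hpi.le]
    ring
  rw [f1, f2, f3]
  ring

lemma norm_add_sq_c (a b : ℂ) : ‖a + b‖ ^ 2 = ‖a‖ ^ 2 + ‖b‖ ^ 2 + 2 * (star a * b).re := by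
  rw [← Complex.normSq_eq_norm_sq, ← Complex.normSq_eq_norm_sq, ← Complex.normSq_eq_norm_sq,
    Complex.normSq_add]
  congr 2
  have : (a * (starRingEnd ℂ) b).re = (star ((starRingEnd ℂ) a * b)).re := by
    change _ = ((starRingEnd ℂ) ((starRingEnd ℂ) a * b)).re
    rw [map_mul, Complex.conj_conj]
  rw [this]
  exact Complex.conj_re _

/-- The mixed functions. -/
noncomputable def mu (c s j k x : ℝ) : ℂ := (c : ℂ) * tu j x + (s : ℂ) * tu k x

noncomputable def mg (c s j k x : ℝ) : ℂ := (c : ℂ) * tg j x + (s : ℂ) * tg k x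

lemma mu_norm (c s j k x : ℝ) (hcs : c ^ 2 + s ^ 2 = 1) : ‖mu c s j k x‖ ^ 2 =
    (cosh x)⁻¹ / π * (1 + 2 * c * s * cos (2 * (k - j) * ph x)) := by
  rw [mu, norm_add_sq_c, norm_mul, norm_mul, mul_pow, mul_pow, tu_norm, tu_norm, star_mul',
    Complex.norm_real, Complex.norm_real, Real.norm_eq_abs, Real.norm_eq_abs, sq_abs, sq_abs]
  have e : star (c:ℂ) * star (tu j x) * ((s:ℂ) * tu k x) =
      ((c * s : ℝ) : ℂ) * (star (tu j x) * tu k x) := by
    have : star (c:ℂ) = c := Complex.conj_ofReal _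
    rw [this]; push_cast; ring
  rw [e, Complex.re_ofReal_mul, tu_re]
  linear_combination ((cosh x)⁻¹ / π) * hcs

lemma mg_norm (c s j k x : ℝ) : ‖mg c s j k x‖ ^ 2 =
    c ^ 2 * ‖tg j x‖ ^ 2 + s ^ 2 * ‖tg k x‖ ^ 2 + 2 * c * s * (1 / π *
      ((Sech.w' x ^ 2 + 4 * j * k * (cosh x)⁻¹ ^ 3) * cos (2 * (k - j) * ph x) +
      (k - j) * (sinh x * (cosh x)⁻¹ ^ 3 * sin (2 * (k - j) * ph x)))) := by
  rw [mg, norm_add_sq_c, norm_mul, norm_mul, mul_pow, mul_pow, star_mul',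
    Complex.norm_real, Complex.norm_real, Real.norm_eq_abs, Real.norm_eq_abs, sq_abs, sq_abs]
  have e : star (c:ℂ) * star (tg j x) * ((s:ℂ) * tg k x) =
      ((c * s : ℝ) : ℂ) * (star (tg j x) * tg k x) := by
    have : star (c:ℂ) = c := Complex.conj_ofReal _
    rw [this]; push_cast; ring
  rw [e, Complex.re_ofReal_mul, tg_re]
  ring

lemma mu_memLp (c s j k : ℝ) : MemLp (mu c s j k) 2 :=
  ((tu_memLp j).const_mul (c:ℂ)).add ((tu_memLp k).const_mul (s:ℂ))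

lemma mg_memLp (c s j k : ℝ) : MemLp (mg c s j k) 2 :=
  ((tg_memLp j).const_mul (c:ℂ)).add ((tg_memLp k).const_mul (s:ℂ))

lemma mu_ftc (c s j k a b : ℝ) : mu c s j k b - mu c s j k a = ∫ x in a..b, mg c s j k x := by
  unfold mu mg
  rw [intervalIntegral.integral_add (((tg_cont j).const_mul _).intervalIntegrable _ _)
    (((tg_cont k).const_mul _).intervalIntegrable _ _), intervalIntegral.integral_const_mul,
    intervalIntegral.integral_const_mul, ← tu_ftc, ← tu_ftc]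
  ring

lemma mg_integral (c s j k : ℝ) {m : ℤ} (hm : k - j = m) (h0 : m ≠ 0) (h1 : m ≠ 1)
    (h2 : m ≠ -1) : ∫ x, ‖mg c s j k x‖ ^ 2 =
      c ^ 2 * (1 / 8 + 2 * j ^ 2) + s ^ 2 * (1 / 8 + 2 * k ^ 2) := by
  have hpi := pi_pos
  have e : ∀ x, ‖mg c s j k x‖ ^ 2 = (c ^ 2 * ‖tg j x‖ ^ 2 + s ^ 2 * ‖tg k x‖ ^ 2) +
      (2 * c * s * (1 / π) * (1 / 4) * ((cosh x)⁻¹ * cos (2 * m * ph x)) +
      (2 * c * s * (1 / π) * (4 * j * k - 1 / 4) * ((cosh x)⁻¹ ^ 3 * cos (2 * m * ph x)) +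
      2 * c * s * (1 / π) * m * (sinh x * (cosh x)⁻¹ ^ 3 * sin (2 * m * ph x)))) := by
    intro x
    rw [mg_norm, hm, Sech.w'_sq]
    ring
  simp only [e]
  have i1 := (tg_int j).const_mul (c ^ 2)
  have i2 := (tg_int k).const_mul (s ^ 2)
  have i3 := (intc (2 * m)).const_mul (2 * c * s * (1 / π) * (1 / 4))
  have i4 := (intB (2 * m)).const_mul (2 * c * s * (1 / π) * (4 * j * k - 1 / 4))
  have i5 := (intC (2 * m)).const_mul (2 * c * s * (1 / π) * m)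
  have i12 : Integrable (fun x => c ^ 2 * ‖tg j x‖ ^ 2 + s ^ 2 * ‖tg k x‖ ^ 2) := i1.add i2
  have i45 : Integrable (fun x =>
      2 * c * s * (1 / π) * (4 * j * k - 1 / 4) * ((cosh x)⁻¹ ^ 3 * cos (2 * m * ph x)) +
      2 * c * s * (1 / π) * m * (sinh x * (cosh x)⁻¹ ^ 3 * sin (2 * m * ph x))) := i4.add i5
  have i345 : Integrable (fun x =>
      2 * c * s * (1 / π) * (1 / 4) * ((cosh x)⁻¹ * cos (2 * m * ph x)) +
      (2 * c * s * (1 / π) * (4 * j * k - 1 / 4) * ((cosh x)⁻¹ ^ 3 * cos (2 * m * ph x)) +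
      2 * c * s * (1 / π) * m * (sinh x * (cosh x)⁻¹ ^ 3 * sin (2 * m * ph x)))) := i3.add i45
  rw [integral_add i12 i345, integral_add i1 i2,
    integral_add i3 i45, integral_add i4 i5, integral_const_mul, integral_const_mul,
    integral_const_mul, integral_const_mul, integral_const_mul, RA h0, RB h0 h1 h2, RC h1 h2,
    tg_integral, tg_integral]
  ring

end Pool.Agent.TH199.LT.Tst
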