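import Pool.Agent.TH199.LT.Sc5

set_option autoImplicit false
set_option linter.unusedSectionVars false
set_option linter.deprecated false

open MeasureTheory Set Filter Topology Real

namespace Pool.Agent.TH199.LT.Tst

open Pool.Helper490

/-- The density of the modulated systems. -/
noncomputable def dn (a E : ℝ) (m : ℤ) (x : ℝ) : ℝ :=
  (cosh x)⁻¹ / π * (a + E * cos (2 * m * ph x))

lemma cube_int (a E : ℝ) {m : ℤ} (hm : 2 ≤ m) :
    ∫ x, dn a E m x ^ 3 = (a ^ 3 + 3 / 2 * a * E ^ 2) / (2 * π ^ 2) := by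
  have hpi := pi_pos
  have e : ∀ x, dn a E m x ^ 3 = (a ^ 3 + 3 / 2 * a * E ^ 2) / π ^ 3 * (cosh x)⁻¹ ^ 3 +
      ((3 * a ^ 2 * E + 3 / 4 * E ^ 3) / π ^ 3 * ((cosh x)⁻¹ ^ 3 * cos (2 * m * ph x)) +
      (3 / 2 * a * E ^ 2 / π ^ 3 * ((cosh x)⁻¹ ^ 3 * cos (2 * ((2 * m : ℤ):ℝ) * ph x)) +
      1 / 4 * E ^ 3 / π ^ 3 * ((cosh x)⁻¹ ^ 3 * cos (2 * ((3 * m : ℤ):ℝ) * ph x)))) := by
    intro x
    have e1 : 2 * ((2 * m : ℤ):ℝ) * ph x = 2 * (2 * m * ph x) := by push_cast; ring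
    have e2 : 2 * ((3 * m : ℤ):ℝ) * ph x = 3 * (2 * m * ph x) := by push_cast; ring
    rw [e1, e2, cos_two_mul, cos_three_mul, dn]
    ring
  simp only [e]
  have i1 : Integrable (fun x => (a ^ 3 + 3 / 2 * a * E ^ 2) / π ^ 3 * (cosh x)⁻¹ ^ 3) :=
    Sech.int_sech3.const_mul _
  have i2 : Integrable (fun x => (3 * a ^ 2 * E + 3 / 4 * E ^ 3) / π ^ 3 *
      ((cosh x)⁻¹ ^ 3 * cos (2 * m * ph x))) := (intB _).const_mul _
  have i3 : Integrable (fun x => 3 / 2 * a * E ^ 2 / π ^ 3 *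
      ((cosh x)⁻¹ ^ 3 * cos (2 * ((2 * m : ℤ):ℝ) * ph x))) := (intB _).const_mul _
  have i4 : Integrable (fun x => 1 / 4 * E ^ 3 / π ^ 3 *
      ((cosh x)⁻¹ ^ 3 * cos (2 * ((3 * m : ℤ):ℝ) * ph x))) := (intB _).const_mul _
  have i34 : Integrable (fun x => 3 / 2 * a * E ^ 2 / π ^ 3 *
      ((cosh x)⁻¹ ^ 3 * cos (2 * ((2 * m : ℤ):ℝ) * ph x)) + 1 / 4 * E ^ 3 / π ^ 3 *
      ((cosh x)⁻¹ ^ 3 * cos (2 * ((3 * m : ℤ):ℝ) * ph x))) := i3.add i4
  have i234 : Integrable (fun x => (3 * a ^ 2 * E + 3 / 4 * E ^ 3) / π ^ 3 *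
      ((cosh x)⁻¹ ^ 3 * cos (2 * m * ph x)) + (3 / 2 * a * E ^ 2 / π ^ 3 *
      ((cosh x)⁻¹ ^ 3 * cos (2 * ((2 * m : ℤ):ℝ) * ph x)) + 1 / 4 * E ^ 3 / π ^ 3 *
      ((cosh x)⁻¹ ^ 3 * cos (2 * ((3 * m : ℤ):ℝ) * ph x)))) := i2.add i34
  rw [integral_add i1 i234, integral_add i2 i34, integral_add i3 i4, integral_const_mul,
    integral_const_mul, integral_const_mul, integral_const_mul, Sech.integral_sech3,
    RB (by omega) (by omega) (by omega), RB (by omega) (by omega) (by omega),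
    RB (by omega) (by omega) (by omega)]
  field_simp
  ring

/-- The gradient term of the modulated systems. -/
lemma W_bound {a E : ℝ} (hE0 : 0 ≤ E) (hE : E < a) {m : ℤ} (hm : 2 ≤ m) :
    ∫ x, (deriv (fun x => √(dn a E m x)) x) ^ 2 ≤ a / 8 + m ^ 2 * E ^ 2 / (4 * (a - E)) := by
  have hpi := pi_pos
  have hsp : 0 < √π := Real.sqrt_pos.2 hpi
  have hq : ∀ x, 0 < a - E ∧ a - E ≤ a + E * cos (2 * m * ph x) := by
    intro x
    have h1 := neg_one_le_cos (2 * m * ph x)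
    constructor
    · linarith
    · nlinarith
  have hR : (fun x => √(dn a E m x)) =
      fun x => (Sech.w x / √π) * √(a + E * cos (2 * m * ph x)) := by
    funext x
    have h1 : 0 ≤ (cosh x)⁻¹ / π := div_nonneg (inv_nonneg.2 (cosh_pos x).le) hpi.le
    rw [dn, Real.sqrt_mul h1, Real.sqrt_div (inv_nonneg.2 (cosh_pos x).le), Real.sqrt_inv, Sech.w]
  have hd : ∀ x, HasDerivAt (fun x => (Sech.w x / √π) * √(a + E * cos (2 * m * ph x)))
      ((Sech.w' x / √π) * √(a + E * cos (2 * m * ph x)) + (Sech.w x / √π) *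
        ((E * (-sin (2 * m * ph x) * (2 * m * (cosh x)⁻¹))) /
          (2 * √(a + E * cos (2 * m * ph x))))) x := by
    intro x
    have h1 : HasDerivAt (fun x => a + E * cos (2 * m * ph x))
        (E * (-sin (2 * m * ph x) * (2 * m * (cosh x)⁻¹))) x :=
      ((((ph_deriv x).const_mul (2 * (m:ℝ))).cos).const_mul E).const_add a
    have h2 := h1.sqrt (by have := hq x; linarith [this.1, this.2])
    exact ((Sech.w_deriv x).div_const _).mul h2
  have hpt : ∀ x, (deriv (fun x => √(dn a E m x)) x) ^ 2 ≤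
      1 / π * (a / 4) * (cosh x)⁻¹ + (-(1 / π * (a / 4)) * (cosh x)⁻¹ ^ 3 +
      (1 / π * (E / 4) * ((cosh x)⁻¹ * cos (2 * m * ph x)) +
      (-(1 / π * (E / 4)) * ((cosh x)⁻¹ ^ 3 * cos (2 * m * ph x)) +
      (1 / π * m * E * (sinh x * (cosh x)⁻¹ ^ 3 * sin (2 * m * ph x)) +
      (1 / π * (m ^ 2 * E ^ 2 / (a - E) / 2) * (cosh x)⁻¹ ^ 3 +
      -(1 / π * (m ^ 2 * E ^ 2 / (a - E) / 2)) *
        ((cosh x)⁻¹ ^ 3 * cos (2 * ((2 * m : ℤ):ℝ) * ph x))))))) := by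
    intro x
    rw [hR, (hd x).deriv]
    set q := a + E * cos (2 * m * ph x) with hqd
    obtain ⟨hq1, hq2⟩ := hq x
    have hq0 : 0 < q := by linarith
    have hsq : 0 < √q := Real.sqrt_pos.2 hq0
    have hsq2 : √q ^ 2 = q := Real.sq_sqrt hq0.le
    have hsp2 : √π ^ 2 = π := Real.sq_sqrt hpi.le
    have hww := w_w' x
    have hw'2 := Sech.w'_sq x
    have hw2 := Sech.w_sq x
    have e1 : 2 * ((2 * m : ℤ):ℝ) * ph x = 2 * (2 * m * ph x) := by push_cast; ring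
    have key : ((Sech.w' x / √π) * √q + (Sech.w x / √π) *
        ((E * (-sin (2 * m * ph x) * (2 * m * (cosh x)⁻¹))) / (2 * √q))) ^ 2 =
        1 / π * (Sech.w' x ^ 2 * q - 2 * (Sech.w x * Sech.w' x) * (m * E * (cosh x)⁻¹ *
          sin (2 * m * ph x)) + Sech.w x ^ 2 * (m ^ 2 * E ^ 2 * (cosh x)⁻¹ ^ 2 *
          sin (2 * m * ph x) ^ 2) / q) := by
      have f1 : ((Sech.w' x / √π) * √q + (Sech.w x / √π) *
        ((E * (-sin (2 * m * ph x) * (2 * m * (cosh x)⁻¹))) / (2 * √q))) =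
        (1 / √π) * (Sech.w' x * √q - Sech.w x * (m * E * (cosh x)⁻¹ * sin (2 * m * ph x)) *
          (√q)⁻¹) := by
        field_simp
        ring
      rw [f1, mul_pow, div_pow, one_pow, hsp2, sub_sq, mul_pow, mul_pow (Sech.w x * _), inv_pow,
        hsq2]
      have f2 : √q * (√q)⁻¹ = 1 := mul_inv_cancel₀ hsq.ne'
      rw [div_eq_mul_inv _ q]
      linear_combination (-(2 / π) * (Sech.w' x * Sech.w x *
        (m * E * (cosh x)⁻¹ * sin (2 * m * ph x)))) * f2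
    rw [key, hww, hw'2, hw2, e1, cos_two_mul (2 * m * ph x)]
    have hs0 : 0 < (cosh x)⁻¹ := inv_pos.2 (cosh_pos x)
    have hsin : sin (2 * m * ph x) ^ 2 = 1 - cos (2 * m * ph x) ^ 2 := by
      have := sin_sq_add_cos_sq (2 * m * ph x); linarith
    have hle : (cosh x)⁻¹ * (m ^ 2 * E ^ 2 * (cosh x)⁻¹ ^ 2 * sin (2 * m * ph x) ^ 2) / q ≤
        (cosh x)⁻¹ * (m ^ 2 * E ^ 2 * (cosh x)⁻¹ ^ 2 * sin (2 * m * ph x) ^ 2) / (a - E) :=
      div_le_div_of_nonneg_left (by positivity) hq1 hq2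
    have hle2 := mul_le_mul_of_nonneg_left hle (by positivity : 0 ≤ 1 / π)
    rw [hsin] at hle2 ⊢
    have f3 : 1 / π * ((cosh x)⁻¹ * (m ^ 2 * E ^ 2 * (cosh x)⁻¹ ^ 2 *
        (1 - cos (2 * m * ph x) ^ 2)) / (a - E)) =
        1 / π * (m ^ 2 * E ^ 2 / (a - E) / 2) * (cosh x)⁻¹ ^ 3 +
        -(1 / π * (m ^ 2 * E ^ 2 / (a - E) / 2)) *
        ((cosh x)⁻¹ ^ 3 * (2 * cos (2 * m * ph x) ^ 2 - 1)) := by ring
    rw [f3] at hle2
    rw [hqd]
    linarith [hle2]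
  have j1 : Integrable (fun x => 1 / π * (a / 4) * (cosh x)⁻¹) := Sech.int_sech.const_mul _
  have j2 : Integrable (fun x => -(1 / π * (a / 4)) * (cosh x)⁻¹ ^ 3) :=
    Sech.int_sech3.const_mul _
  have j3 : Integrable (fun x => 1 / π * (E / 4) * ((cosh x)⁻¹ * cos (2 * m * ph x))) :=
    (intc _).const_mul _
  have j4 : Integrable (fun x => -(1 / π * (E / 4)) * ((cosh x)⁻¹ ^ 3 * cos (2 * m * ph x))) :=
    (intB _).const_mul _
  have j5 : Integrable (fun x => 1 / π * m * E * (sinh x * (cosh x)⁻¹ ^ 3 * sin (2 * m * ph x))) :=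
    (intC _).const_mul _
  have j6 : Integrable (fun x => 1 / π * (m ^ 2 * E ^ 2 / (a - E) / 2) * (cosh x)⁻¹ ^ 3) :=
    Sech.int_sech3.const_mul _
  have j7 : Integrable (fun x => -(1 / π * (m ^ 2 * E ^ 2 / (a - E) / 2)) *
        ((cosh x)⁻¹ ^ 3 * cos (2 * ((2 * m : ℤ):ℝ) * ph x))) := (intB _).const_mul _
  have k6 := j6.add j7
  have k5 := j5.add k6
  have k4 := j4.add k5
  have k3 := j3.add k4
  have k2 := j2.add k3
  have k1 := j1.add k2
  refine (integral_mono_of_nonneg (Eventually.of_forall fun x => sq_nonneg _) k1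
    (Eventually.of_forall fun x => hpt x)).trans (le_of_eq ?_)
  rw [integral_add' j1 k2, integral_add' j2 k3, integral_add' j3 k4, integral_add' j4 k5,
    integral_add' j5 k6, integral_add' j6 j7, integral_const_mul, integral_const_mul,
    integral_const_mul, integral_const_mul, integral_const_mul, integral_const_mul,
    integral_const_mul, Sech.integral_sech, Sech.integral_sech3,
    RA (by omega), RB (by omega) (by omega) (by omega), RC (by omega) (by omega),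
    RB (by omega) (by omega) (by omega)]
  have h3 : a - E ≠ 0 := by linarith
  field_simp
  ring

end Pool.Agent.TH199.LT.Tst
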