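import Pool.Agent.TH199.LT.Sc3
import Pool.Agent.TH199.LT.Sc5

set_option autoImplicit false
set_option linter.unusedSectionVars false
set_option linter.deprecated false

open MeasureTheory Set Filter Topology Real

namespace Pool.Agent.TH199.LT.Two

open Pool.Helper490 Pool.Agent.TH199.LT.Tst

/-- The soliton. -/
noncomputable def s (x : ℝ) : ℝ := Sech.w x / √π

/-- Its derivative. -/
noncomputable def s' (x : ℝ) : ℝ := Sech.w' x / √π

lemma s_deriv (x : ℝ) : HasDerivAt s (s' x) x := (Sech.w_deriv x).div_const _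

lemma s_cont : Continuous s := Sech.w_cont.div_const _

lemma s'_cont : Continuous s' := Sech.w'_cont.div_const _

lemma s_pos (x : ℝ) : 0 < s x := div_pos (Sech.w_pos x) (Real.sqrt_pos.2 pi_pos)

lemma s_sq (x : ℝ) : s x ^ 2 = (cosh x)⁻¹ / π := by
  rw [s, div_pow, Sech.w_sq, Real.sq_sqrt pi_pos.le]

lemma s'_eq (x : ℝ) : s' x = -(1 / 2) * (sinh x * (cosh x)⁻¹) * s x := by
  have h3 := Sech.scp x
  have h4 := cosh_pos x
  rw [s', s, Sech.w', Sech.w]
  field_simp

lemma tanh_le (x : ℝ) : |sinh x * (cosh x)⁻¹| ≤ 1 := by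
  have h4 := cosh_pos x
  rw [abs_mul, abs_inv, abs_of_pos h4, ← div_eq_mul_inv, div_le_one h4, abs_le]
  constructor
  · rw [sinh_eq, cosh_eq]
    linarith [exp_pos x, exp_pos (-x)]
  · exact (sinh_lt_cosh x).le

lemma s'_abs (x : ℝ) : |s' x| ≤ 1 / 2 * s x := by
  rw [s'_eq, abs_mul, abs_mul, abs_of_pos (s_pos x)]
  refine mul_le_mul_of_nonneg_right ?_ (s_pos x).le
  have h1 := tanh_le x
  have h2 : |(-(1 / 2) : ℝ)| = 1 / 2 := by norm_num
  rw [h2]
  linarith

lemma s_int : Integrable (fun x => s x ^ 2) := by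
  simp only [s_sq]; exact Sech.int_sech.div_const _

lemma s_integral : ∫ x, s x ^ 2 = 1 := by
  simp only [s_sq]
  rw [integral_div, Sech.integral_sech, div_self pi_pos.ne']

lemma s'_sq (x : ℝ) : s' x ^ 2 = Sech.w' x ^ 2 / π := by
  rw [s', div_pow, Real.sq_sqrt pi_pos.le]

lemma s'_int : Integrable (fun x => s' x ^ 2) := by
  simp only [s'_sq]; exact Sech.int_w'_sq.div_const _

lemma s'_integral : ∫ x, s' x ^ 2 = 1 / 8 := by
  simp only [s'_sq]
  rw [integral_div, Sech.integral_w'_sq]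
  have := pi_pos
  field_simp

lemma s6_int : Integrable (fun x => (s x ^ 2) ^ 3) := by
  simp only [s_sq, div_pow]; exact Sech.int_sech3.div_const _

lemma s6_integral : ∫ x, (s x ^ 2) ^ 3 = 1 / (2 * π ^ 2) := by
  simp only [s_sq, div_pow]
  rw [integral_div, Sech.integral_sech3]
  have := pi_pos
  field_simp

lemma s_sq_le (x : ℝ) : s x ^ 2 ≤ 1 / π := by
  rw [s_sq]
  refine div_le_div_of_nonneg_right ?_ pi_pos.le
  exact inv_le_one_of_one_le₀ (one_le_cosh x)

lemma s_sq_ge (x : ℝ) : exp (-|x|) / π ≤ s x ^ 2 := by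
  rw [s_sq, exp_neg]
  refine div_le_div_of_nonneg_right ?_ pi_pos.le
  refine inv_anti₀ (cosh_pos x) ?_
  rw [← cosh_abs, cosh_eq]
  have : exp (-|x|) ≤ exp |x| := exp_le_exp.2 (by linarith [abs_nonneg x])
  linarith

lemma s_sq_le_exp (x : ℝ) : s x ^ 2 ≤ 2 / π * exp (-|x|) := by
  rw [s_sq, exp_neg, ← cosh_abs, cosh_eq]
  have h1 := exp_pos |x|
  have h2 := exp_pos (-|x|)
  have h3 : ((exp |x| + exp (-|x|)) / 2)⁻¹ ≤ 2 * (exp |x|)⁻¹ := by
    rw [← div_eq_mul_inv, inv_eq_one_div, div_le_div_iff₀ (by positivity) h1]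
    linarith
  calc ((exp |x| + exp (-|x|)) / 2)⁻¹ / π ≤ 2 * (exp |x|)⁻¹ / π :=
        div_le_div_of_nonneg_right h3 pi_pos.le
    _ = 2 / π * (exp |x|)⁻¹ := by ring

section shift

variable (L : ℝ)

lemma mulint {f g : ℝ → ℝ} (hf : Continuous f) (hg : Continuous g)
    (hf2 : Integrable fun x => f x ^ 2) (hg2 : Integrable fun x => g x ^ 2) :
    Integrable fun x => f x * g x := by
  refine (hf2.add hg2).mono' (hf.mul hg).aestronglyMeasurable (Eventually.of_forall fun x => ?_)
  rw [Real.norm_eq_abs, abs_mul]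
  simp only [Pi.add_apply]
  nlinarith [sq_nonneg (|f x| - |g x|), sq_abs (f x), sq_abs (g x), sq_nonneg (f x),
    sq_nonneg (g x)]

lemma a_int : Integrable (fun x => s (x - L) ^ 2) := s_int.comp_sub_right L
lemma b_int : Integrable (fun x => s (x + L) ^ 2) := s_int.comp_add_right L
lemma a'_int : Integrable (fun x => s' (x - L) ^ 2) := s'_int.comp_sub_right L
lemma b'_int : Integrable (fun x => s' (x + L) ^ 2) := s'_int.comp_add_right L
lemma a_integral : ∫ x, s (x - L) ^ 2 = 1 := by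
  rw [integral_sub_right_eq_self (μ := volume) (fun x => s x ^ 2) L, s_integral]
lemma b_integral : ∫ x, s (x + L) ^ 2 = 1 := by
  rw [integral_add_right_eq_self (μ := volume) (fun x => s x ^ 2) L, s_integral]
lemma a'_integral : ∫ x, s' (x - L) ^ 2 = 1 / 8 := by
  rw [integral_sub_right_eq_self (μ := volume) (fun x => s' x ^ 2) L, s'_integral]
lemma b'_integral : ∫ x, s' (x + L) ^ 2 = 1 / 8 := by
  rw [integral_add_right_eq_self (μ := volume) (fun x => s' x ^ 2) L, s'_integral]
lemma a6_integral : ∫ x, (s (x - L) ^ 2) ^ 3 = 1 / (2 * π ^ 2) := by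
  rw [integral_sub_right_eq_self (μ := volume) (fun x => (s x ^ 2) ^ 3) L, s6_integral]
lemma b6_integral : ∫ x, (s (x + L) ^ 2) ^ 3 = 1 / (2 * π ^ 2) := by
  rw [integral_add_right_eq_self (μ := volume) (fun x => (s x ^ 2) ^ 3) L, s6_integral]
lemma a_cont : Continuous fun x => s (x - L) := s_cont.comp (by fun_prop)
lemma b_cont : Continuous fun x => s (x + L) := s_cont.comp (by fun_prop)
lemma a'_cont : Continuous fun x => s' (x - L) := s'_cont.comp (by fun_prop)
lemma b'_cont : Continuous fun x => s' (x + L) := s'_cont.comp (by fun_prop)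

/-- The overlap. -/
noncomputable def ov : ℝ := ∫ x, s (x - L) * s (x + L)

/-- The overlap of the derivatives. -/
noncomputable def tm : ℝ := ∫ x, s' (x - L) * s' (x + L)

lemma ab_int : Integrable fun x => s (x - L) * s (x + L) :=
  mulint (a_cont L) (b_cont L) (a_int L) (b_int L)

lemma a'b'_int : Integrable fun x => s' (x - L) * s' (x + L) :=
  mulint (a'_cont L) (b'_cont L) (a'_int L) (b'_int L)

lemma ov_nonneg : 0 ≤ ov L := integral_nonneg fun _ => (mul_pos (s_pos _) (s_pos _)).le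

lemma tm_abs : |tm L| ≤ 1 / 4 * ov L := by
  rw [tm, ov, ← integral_const_mul]
  refine (abs_integral_le_integral_abs).trans (integral_mono (a'b'_int L).abs
    ((ab_int L).const_mul _) fun x => ?_)
  simp only
  rw [abs_mul]
  have h1 := s'_abs (x - L)
  have h2 := s'_abs (x + L)
  calc |s' (x - L)| * |s' (x + L)| ≤ (1 / 2 * s (x - L)) * (1 / 2 * s (x + L)) :=
        mul_le_mul h1 h2 (abs_nonneg _) (by have := s_pos (x - L); positivity)
    _ = 1 / 4 * (s (x - L) * s (x + L)) := by ring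

lemma ov_le : ov L ≤ 8 * exp (-(3 / 4 * L)) := by
  have hpi := pi_pos
  have hi : Integrable (fun x : ℝ => (cosh (x / 4))⁻¹) := by
    have := Sech.int_sech.comp_mul_left' (R := (1 / 4 : ℝ)) (by norm_num)
    refine this.congr (Eventually.of_forall fun x => ?_)
    simp only
    congr 2
    ring
  have hv : ∫ x : ℝ, (cosh (x / 4))⁻¹ = 4 * π := by
    have := Measure.integral_comp_mul_left (fun x => (cosh x)⁻¹) (1 / 4 : ℝ)
    have e : (fun x : ℝ => (cosh (x / 4))⁻¹) = fun x : ℝ => (cosh (1 / 4 * x))⁻¹ := by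
      funext x
      congr 2
      ring
    rw [e, this, Sech.integral_sech]
    norm_num
  have hb : ∀ x, s (x - L) * s (x + L) ≤ 2 / π * exp (-(3 / 4 * L)) * (cosh (x / 4))⁻¹ := by
    intro x
    have h1 := s_sq_le_exp (x - L)
    have h2 := s_sq_le_exp (x + L)
    have h3 := s_pos (x - L)
    have h4 := s_pos (x + L)
    have h5 : exp (-(|x| / 4)) ≤ (cosh (x / 4))⁻¹ := by
      rw [exp_neg]
      refine inv_anti₀ (cosh_pos _) ?_
      have e : |x| / 4 = |x / 4| := by rw [abs_div]; norm_num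
      rw [e, ← cosh_abs, cosh_eq]
      have : exp (-|x / 4|) ≤ exp |x / 4| := exp_le_exp.2 (by linarith [abs_nonneg (x / 4)])
      linarith
    have h6 : |x| / 2 + 3 / 2 * L ≤ |x - L| + |x + L| := by
      have i1 : 2 * |x| ≤ |x - L| + |x + L| := by
        have := abs_add_le (x - L) (x + L)
        have e : x - L + (x + L) = 2 * x := by ring
        rw [e, abs_mul, abs_two] at this
        exact this
      have i2 : 2 * L ≤ |x - L| + |x + L| := by
        have := abs_add_le (x + L) (-(x - L))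
        have e : x + L + -(x - L) = 2 * L := by ring
        rw [e, abs_neg] at this
        have := le_abs_self (2 * L)
        linarith
      linarith
    have h7 : (s (x - L) * s (x + L)) ^ 2 ≤ (2 / π * exp (-(3 / 4 * L)) * exp (-(|x| / 4))) ^ 2 := by
      have i1 : (s (x - L) * s (x + L)) ^ 2 ≤ (2 / π * exp (-|x - L|)) * (2 / π * exp (-|x + L|)) := by
        rw [mul_pow]
        exact mul_le_mul h1 h2 (sq_nonneg _) (by positivity)
      refine i1.trans ?_
      have i2 : (2 / π * exp (-|x - L|)) * (2 / π * exp (-|x + L|)) =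
          (2 / π) ^ 2 * exp (-(|x - L| + |x + L|)) := by
        rw [neg_add, exp_add]; ring
      have i3 : (2 / π * exp (-(3 / 4 * L)) * exp (-(|x| / 4))) ^ 2 =
          (2 / π) ^ 2 * exp (-(|x| / 2 + 3 / 2 * L)) := by
        have e : -(|x| / 2 + 3 / 2 * L) = (-(3 / 4 * L) + -(3 / 4 * L)) +
          (-(|x| / 4) + -(|x| / 4)) := by ring
        rw [e, exp_add, exp_add, exp_add]; ring
      rw [i2, i3]
      exact mul_le_mul_of_nonneg_left (exp_le_exp.2 (by linarith)) (by positivity)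
    have h8 := abs_le_of_sq_le_sq' h7 (by positivity)
    exact h8.2.trans (mul_le_mul_of_nonneg_left h5 (by positivity))
  have h1 : ov L ≤ ∫ x, 2 / π * exp (-(3 / 4 * L)) * (cosh (x / 4))⁻¹ :=
    integral_mono (ab_int L) (hi.const_mul _) hb
  rw [integral_const_mul, hv] at h1
  refine h1.trans (le_of_eq ?_)
  field_simp
  ring

end shift

end Pool.Agent.TH199.LT.Two
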