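import Pool.Agent.TH199.LT.Sc8

set_option autoImplicit false
set_option linter.unusedSectionVars false
set_option linter.deprecated false

open MeasureTheory Set Filter Topology Real

namespace Pool.Agent.TH199.LT.Two

open Pool.Helper490 Pool.Agent.TH199.LT.Tst

variable (L : ℝ)

/-- The two functions. -/
noncomputable def v (n : Fin 2) (x : ℝ) : ℝ :=
  if n = 0 then (s (x - L) + s (x + L)) / √(2 * (1 + ov L))
  else (s (x - L) - s (x + L)) / √(2 * (1 - ov L))

noncomputable def v' (n : Fin 2) (x : ℝ) : ℝ :=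
  if n = 0 then (s' (x - L) + s' (x + L)) / √(2 * (1 + ov L))
  else (s' (x - L) - s' (x + L)) / √(2 * (1 - ov L))

lemma a_deriv (x : ℝ) : HasDerivAt (fun x => s (x - L)) (s' (x - L)) x :=
  (s_deriv (x - L)).comp_sub_const x L

lemma b_deriv (x : ℝ) : HasDerivAt (fun x => s (x + L)) (s' (x + L)) x :=
  (s_deriv (x + L)).comp_add_const x L

lemma v_deriv (n : Fin 2) (x : ℝ) : HasDerivAt (v L n) (v' L n x) x := by
  unfold v v'
  by_cases h : n = 0
  · simp only [h, if_true]
    exact ((a_deriv L x).add (b_deriv L x)).div_const _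
  · simp only [h, if_false]
    exact ((a_deriv L x).sub (b_deriv L x)).div_const _

lemma v_cont (n : Fin 2) : Continuous (v L n) :=
  continuous_iff_continuousAt.2 fun x => (v_deriv L n x).continuousAt

lemma v'_cont (n : Fin 2) : Continuous (v' L n) := by
  unfold v'
  by_cases h : n = 0
  · simp only [h, if_true]
    exact ((a'_cont L).add (b'_cont L)).div_const _
  · simp only [h, if_false]
    exact ((a'_cont L).sub (b'_cont L)).div_const _

lemma a_memLp : MemLp (fun x => s (x - L)) 2 :=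
  (memLp_two_iff_integrable_sq (a_cont L).aestronglyMeasurable).2 (a_int L)
lemma b_memLp : MemLp (fun x => s (x + L)) 2 :=
  (memLp_two_iff_integrable_sq (b_cont L).aestronglyMeasurable).2 (b_int L)
lemma a'_memLp : MemLp (fun x => s' (x - L)) 2 :=
  (memLp_two_iff_integrable_sq (a'_cont L).aestronglyMeasurable).2 (a'_int L)
lemma b'_memLp : MemLp (fun x => s' (x + L)) 2 :=
  (memLp_two_iff_integrable_sq (b'_cont L).aestronglyMeasurable).2 (b'_int L)

lemma v_memLp (n : Fin 2) : MemLp (v L n) 2 := by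
  unfold v
  by_cases h : n = 0
  · simp only [h, if_true, div_eq_mul_inv]
    exact ((a_memLp L).add (b_memLp L)).mul_const _
  · simp only [h, if_false, div_eq_mul_inv]
    exact ((a_memLp L).sub (b_memLp L)).mul_const _

lemma v'_memLp (n : Fin 2) : MemLp (v' L n) 2 := by
  unfold v'
  by_cases h : n = 0
  · simp only [h, if_true, div_eq_mul_inv]
    exact ((a'_memLp L).add (b'_memLp L)).mul_const _
  · simp only [h, if_false, div_eq_mul_inv]
    exact ((a'_memLp L).sub (b'_memLp L)).mul_const _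

lemma v_ftc (n : Fin 2) (p q : ℝ) : v L n q - v L n p = ∫ x in p..q, v' L n x := by
  rw [intervalIntegral.integral_eq_sub_of_hasDerivAt (f := v L n)]
  · intro x _
    exact v_deriv L n x
  · exact (v'_cont L n).intervalIntegrable _ _

lemma three_int (α β γ : ℝ) : Integrable (fun x => α * s (x - L) ^ 2 +
    (β * s (x + L) ^ 2 + γ * (s (x - L) * s (x + L)))) :=
  ((a_int L).const_mul α).add (((b_int L).const_mul β).add ((ab_int L).const_mul γ))

lemma three'_int (α β γ : ℝ) : Integrable (fun x => α * s' (x - L) ^ 2 +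
    (β * s' (x + L) ^ 2 + γ * (s' (x - L) * s' (x + L)))) :=
  ((a'_int L).const_mul α).add (((b'_int L).const_mul β).add ((a'b'_int L).const_mul γ))

lemma three (α β γ : ℝ) : ∫ x, (α * s (x - L) ^ 2 +
    (β * s (x + L) ^ 2 + γ * (s (x - L) * s (x + L)))) = α + β + γ * ov L := by
  have j1 : Integrable (fun x => α * s (x - L) ^ 2) := (a_int L).const_mul α
  have j2 : Integrable (fun x => β * s (x + L) ^ 2) := (b_int L).const_mul β
  have j3 : Integrable (fun x => γ * (s (x - L) * s (x + L))) := (ab_int L).const_mul γ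
  have j23 : Integrable (fun x => β * s (x + L) ^ 2 + γ * (s (x - L) * s (x + L))) := j2.add j3
  rw [integral_add j1 j23, integral_add j2 j3, integral_const_mul, integral_const_mul,
    integral_const_mul, a_integral, b_integral, ← ov]
  ring

lemma three' (α β γ : ℝ) : ∫ x, (α * s' (x - L) ^ 2 +
    (β * s' (x + L) ^ 2 + γ * (s' (x - L) * s' (x + L)))) = α / 8 + β / 8 + γ * tm L := by
  have j1 : Integrable (fun x => α * s' (x - L) ^ 2) := (a'_int L).const_mul α
  have j2 : Integrable (fun x => β * s' (x + L) ^ 2) := (b'_int L).const_mul β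
  have j3 : Integrable (fun x => γ * (s' (x - L) * s' (x + L))) := (a'b'_int L).const_mul γ
  have j23 : Integrable (fun x => β * s' (x + L) ^ 2 + γ * (s' (x - L) * s' (x + L))) := j2.add j3
  rw [integral_add j1 j23, integral_add j2 j3, integral_const_mul, integral_const_mul,
    integral_const_mul, a'_integral, b'_integral, ← tm]
  ring

section gen

variable {L}
variable (hS : ov L ≤ 1 / 2)
include hS

lemma one_pm : 0 < 1 + ov L ∧ 0 < 1 - ov L := by
  have := ov_nonneg L
  constructor <;> linarith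

lemma v_on (n m : Fin 2) : ∫ x, v L n x * v L m x = if n = m then 1 else 0 := by
  obtain ⟨h1, h2⟩ := one_pm hS
  have h3 : √(2 * (1 + ov L)) ^ 2 = 2 * (1 + ov L) := Real.sq_sqrt (by linarith)
  have h4 : √(2 * (1 - ov L)) ^ 2 = 2 * (1 - ov L) := Real.sq_sqrt (by linarith)
  have h5 : 0 < √(2 * (1 + ov L)) := Real.sqrt_pos.2 (by linarith)
  have h6 : 0 < √(2 * (1 - ov L)) := Real.sqrt_pos.2 (by linarith)
  have e00 : ∫ x, v L 0 x * v L 0 x = 1 := by
    have e : ∀ x, v L 0 x * v L 0 x = (2 * (1 + ov L))⁻¹ * s (x - L) ^ 2 +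
        ((2 * (1 + ov L))⁻¹ * s (x + L) ^ 2 +
          (2 * (1 + ov L))⁻¹ * 2 * (s (x - L) * s (x + L))) := by
      intro x
      simp only [v, if_true]
      rw [← pow_two, div_pow, h3]
      ring
    simp only [e]
    rw [three]
    field_simp
    ring
  have e11 : ∫ x, v L 1 x * v L 1 x = 1 := by
    have e : ∀ x, v L 1 x * v L 1 x = (2 * (1 - ov L))⁻¹ * s (x - L) ^ 2 +
        ((2 * (1 - ov L))⁻¹ * s (x + L) ^ 2 +
          -(2 * (1 - ov L))⁻¹ * 2 * (s (x - L) * s (x + L))) := by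
      intro x
      simp only [v, one_ne_zero, if_false]
      rw [← pow_two, div_pow, h4]
      ring
    simp only [e]
    rw [three]
    field_simp
    ring
  have e01 : ∫ x, v L 0 x * v L 1 x = 0 := by
    have e : ∀ x, v L 0 x * v L 1 x =
        (√(2 * (1 + ov L)) * √(2 * (1 - ov L)))⁻¹ * s (x - L) ^ 2 +
        (-(√(2 * (1 + ov L)) * √(2 * (1 - ov L)))⁻¹ * s (x + L) ^ 2 +
          0 * (s (x - L) * s (x + L))) := by
      intro x
      simp only [v, if_true, one_ne_zero, if_false]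
      field_simp
      ring
    simp only [e]
    rw [three]
    ring
  have e10 : ∫ x, v L 1 x * v L 0 x = 0 := by
    rw [← e01]
    exact integral_congr_ae (Eventually.of_forall fun x => mul_comm _ _)
  fin_cases n <;> fin_cases m
  · simpa using e00
  · simpa using e01
  · simpa using e10
  · simpa using e11

/-- The density. -/
lemma v_den (x : ℝ) : ∑ n, v L n x ^ 2 =
    (s (x - L) ^ 2 + s (x + L) ^ 2 - 2 * ov L * (s (x - L) * s (x + L))) / (1 - ov L ^ 2) := by
  obtain ⟨h1, h2⟩ := one_pm hS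
  have h3 : √(2 * (1 + ov L)) ^ 2 = 2 * (1 + ov L) := Real.sq_sqrt (by linarith)
  have h4 : √(2 * (1 - ov L)) ^ 2 = 2 * (1 - ov L) := Real.sq_sqrt (by linarith)
  have h7 : 1 - ov L ^ 2 = (1 + ov L) * (1 - ov L) := by ring
  rw [Fin.sum_univ_two]
  simp only [v, if_true, one_ne_zero, if_false]
  rw [div_pow, div_pow, h3, h4, h7]
  field_simp
  ring

/-- The energy density. -/
lemma v'_den (x : ℝ) : ∑ n, v' L n x ^ 2 =
    (s' (x - L) ^ 2 + s' (x + L) ^ 2 - 2 * ov L * (s' (x - L) * s' (x + L))) / (1 - ov L ^ 2) := by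
  obtain ⟨h1, h2⟩ := one_pm hS
  have h3 : √(2 * (1 + ov L)) ^ 2 = 2 * (1 + ov L) := Real.sq_sqrt (by linarith)
  have h4 : √(2 * (1 - ov L)) ^ 2 = 2 * (1 - ov L) := Real.sq_sqrt (by linarith)
  have h7 : 1 - ov L ^ 2 = (1 + ov L) * (1 - ov L) := by ring
  rw [Fin.sum_univ_two]
  simp only [v', if_true, one_ne_zero, if_false]
  rw [div_pow, div_pow, h3, h4, h7]
  field_simp
  ring

lemma v_wr (x : ℝ) : (v L 0 x * v' L 1 x - v L 1 x * v' L 0 x) ^ 2 =
    (s (x + L) * s' (x - L) - s (x - L) * s' (x + L)) ^ 2 / (1 - ov L ^ 2) := by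
  obtain ⟨h1, h2⟩ := one_pm hS
  have h3 : √(2 * (1 + ov L)) ^ 2 = 2 * (1 + ov L) := Real.sq_sqrt (by linarith)
  have h4 : √(2 * (1 - ov L)) ^ 2 = 2 * (1 - ov L) := Real.sq_sqrt (by linarith)
  have h5 : 0 < √(2 * (1 + ov L)) := Real.sqrt_pos.2 (by linarith)
  have h6 : 0 < √(2 * (1 - ov L)) := Real.sqrt_pos.2 (by linarith)
  have h7 : 1 - ov L ^ 2 = (1 + ov L) * (1 - ov L) := by ring
  have e : v L 0 x * v' L 1 x - v L 1 x * v' L 0 x =
      2 * (s (x + L) * s' (x - L) - s (x - L) * s' (x + L)) *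
        (√(2 * (1 + ov L)) * √(2 * (1 - ov L)))⁻¹ := by
    simp only [v, v', if_true, one_ne_zero, if_false]
    field_simp
    ring
  rw [e, mul_pow, mul_pow, inv_pow, mul_pow, h3, h4, h7]
  field_simp

lemma kin : ∑ n, ∫ x, v' L n x ^ 2 = (1 / 4 - 2 * ov L * tm L) / (1 - ov L ^ 2) := by
  have hi : ∀ n, Integrable fun x => v' L n x ^ 2 := fun n =>
    (memLp_two_iff_integrable_sq (v'_cont L n).aestronglyMeasurable).1 (v'_memLp L n)
  rw [← integral_finsetSum _ fun n _ => hi n]
  have e : ∀ x, ∑ n, v' L n x ^ 2 = (1 - ov L ^ 2)⁻¹ * s' (x - L) ^ 2 +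
      ((1 - ov L ^ 2)⁻¹ * s' (x + L) ^ 2 +
        (1 - ov L ^ 2)⁻¹ * (-2 * ov L) * (s' (x - L) * s' (x + L))) := by
    intro x
    rw [v'_den hS]
    ring
  simp only [e]
  rw [three']
  ring

end gen

end Pool.Agent.TH199.LT.Two
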