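import Pool.Agent.TH199.LT.CalH

set_option autoImplicit false
set_option linter.unusedSectionVars false
set_option linter.deprecated false

open MeasureTheory Set Filter Topology Real
open scoped RealInnerProductSpace
open Pool.Helper490.Calib

namespace Pool.Agent.TH199.LT

variable {E : Type*} [NormedAddCommGroup E] [InnerProductSpace ℝ E] [FiniteDimensional ℝ E]

namespace SysH

variable {u g : ℝ → E} (h : SysH u g)
include h

lemma mo_two (x : ℝ) : mo u 2 x = ‖Bop u x (u x)‖ ^ 2 := by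
  rw [mo, pow_two, ContinuousLinearMap.mul_apply, ← h.Bop_symm, real_inner_self_eq_norm_sq]

lemma mo_one (x : ℝ) : mo u 1 x = ⟪u x, Bop u x (u x)⟫ := by
  rw [mo, pow_one]

lemma vr_eq (x : ℝ) : vr u x = 2 * ‖(‖u x‖ ^ 2) • Bop u x (u x) - mo u 1 x • u x‖ ^ 2 := by
  have h1 : ‖(‖u x‖ ^ 2) • Bop u x (u x) - mo u 1 x • u x‖ ^ 2 =
      (‖u x‖ ^ 2) ^ 2 * ‖Bop u x (u x)‖ ^ 2 - 2 * (‖u x‖ ^ 2 * mo u 1 x * mo u 1 x) +
        mo u 1 x ^ 2 * ‖u x‖ ^ 2 := by
    rw [norm_sub_sq_real, norm_smul, norm_smul, real_inner_smul_left, real_inner_smul_right,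
      real_inner_comm, ← h.mo_one x, mul_pow, mul_pow, Real.norm_eq_abs, Real.norm_eq_abs, sq_abs,
      sq_abs]
    ring
  rw [vr, h1, h.mo_two]
  ring

lemma vr_nonneg (x : ℝ) : 0 ≤ vr u x := by
  rw [h.vr_eq]
  positivity

lemma eig_of_vr {x : ℝ} (hv : vr u x = 0) (hx : u x ≠ 0) :
    Bop u x (u x) = (mo u 1 x / ‖u x‖ ^ 2) • u x := by
  rw [h.vr_eq] at hv
  have h1 : ‖(‖u x‖ ^ 2) • Bop u x (u x) - mo u 1 x • u x‖ = 0 := by
    have : ‖(‖u x‖ ^ 2) • Bop u x (u x) - mo u 1 x • u x‖ ^ 2 = 0 := by linarith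
    exact pow_eq_zero_iff (two_ne_zero) |>.1 this
  have h2 := sub_eq_zero.1 (norm_eq_zero.1 h1)
  have h3 : ‖u x‖ ^ 2 ≠ 0 := pow_ne_zero _ (norm_ne_zero_iff.2 hx)
  rw [div_eq_inv_mul, mul_smul, ← h2, smul_smul, inv_mul_cancel₀ h3, one_smul]

lemma c1_nonneg {θ : ℝ} (hθ : 0 < θ) : 0 ≤ θ ^ 4 / (24 * π) := by
  have := pi_pos
  positivity

/-- The inequality with both remainders, for the kernel attached to `θ`. -/
lemma with_kernel {θ : ℝ} (hθ0 : 0 < θ) (hθ : θ < π) {δ : ℝ} (hδ : 0 < δ) :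
    ∃ V : ℝ → E, MemLp V 2 ∧ Continuous V ∧
      (∀ x l, u x ≠ 0 → Bop u x (u x) = l • u x → l ∈ Icc (-(1 / 2) : ℝ) (1 / 2) →
        ∃ z : ℝ, |z + tan (θ * l)| ≤ δ ∧ V x = (θ / 2 * z * ‖u x‖ ^ 2) • u x) ∧
      (θ ^ 2 / 4 - δ) * (∫ x, (‖u x‖ ^ 2) ^ 3) + θ ^ 4 / (24 * π) * (∫ x, vr u x) +
        ∫ x, ‖g x - V x‖ ^ 2 ≤ ∫ x, ‖g x‖ ^ 2 := by
  obtain ⟨K, a, hsym, hK, hcl⟩ := exists_kernel' hθ0 hθ hδ
  refine ⟨VV u (SS K) (ww a) (fun q => q.2.1) (fun q => q.2.2) (θ / 4), h.VV_memLp _ _ _ _ _,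
    h.VV_cont _ _ _ _ _, ?_, h.calibrated' (SS K) (ww a) (fun q => q.2.1) (fun q => q.2.2) (θ / 4)
      _ _ hsym hK⟩
  intro x l hx hl hlm
  refine ⟨P (SS K) (ww a) (fun q => q.2.1) (fun q => q.2.2) l l, ?_, ?_⟩
  · have h1 := hcl l l ⟨by linarith [hlm.1], by linarith [hlm.2]⟩
    have e : θ / 2 * (l + l) = θ * l := by ring
    rwa [e] at h1
  · have hpow : ∀ n : ℕ, (Bop u x ^ n) (u x) = l ^ n • u x := by
      intro n
      induction n with
      | zero => simp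
      | succ n ih =>
        rw [pow_succ, ContinuousLinearMap.mul_apply, hl, map_smul, ih, smul_smul, pow_succ, mul_comm]
    have hmo : ∀ n : ℕ, mo u n x = l ^ n * ‖u x‖ ^ 2 := by
      intro n
      rw [mo, hpow, real_inner_smul_right, real_inner_self_eq_norm_sq]
    unfold VV P
    simp only [hpow, hmo, smul_smul]
    rw [← Finset.sum_smul]
    congr 1
    rw [Finset.mul_sum, Finset.sum_mul]
    refine Finset.sum_congr rfl fun q _ => ?_
    ring

/-- The sharp inequality with the variance remainder. -/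
theorem stability : π ^ 2 / 4 * (∫ x, (‖u x‖ ^ 2) ^ 3) + π ^ 3 / 24 * (∫ x, vr u x) ≤
    ∫ x, ‖g x‖ ^ 2 := by
  have hpi := pi_pos
  have hstep : ∀ θ : ℝ, 0 < θ → θ < π →
      (θ ^ 2 / 4 - (π - θ)) * (∫ x, (‖u x‖ ^ 2) ^ 3) + θ ^ 4 / (24 * π) * (∫ x, vr u x) ≤
        ∫ x, ‖g x‖ ^ 2 := by
    intro θ h0 h1
    obtain ⟨V, -, -, -, hV⟩ := h.with_kernel h0 h1 (δ := π - θ) (by linarith)
    have : 0 ≤ ∫ x, ‖g x - V x‖ ^ 2 := integral_nonneg fun x => sq_nonneg _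
    linarith
  have hcont : Continuous fun θ : ℝ => (θ ^ 2 / 4 - (π - θ)) * (∫ x, (‖u x‖ ^ 2) ^ 3) +
      θ ^ 4 / (24 * π) * (∫ x, vr u x) := by
    fun_prop
  have hlim := (hcont.tendsto π).mono_left (nhdsWithin_le_nhds (s := Iio π))
  have hle : ∀ᶠ θ : ℝ in 𝓝[<] π,
      (θ ^ 2 / 4 - (π - θ)) * (∫ x, (‖u x‖ ^ 2) ^ 3) + θ ^ 4 / (24 * π) * (∫ x, vr u x) ≤
        ∫ x, ‖g x‖ ^ 2 := by
    have : Ioo (0:ℝ) π ∈ 𝓝[<] π := Ioo_mem_nhdsLT pi_pos
    filter_upwards [this] with θ hθ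
    exact hstep θ hθ.1 hθ.2
  have h1 := le_of_tendsto hlim hle
  have e : π ^ 4 / (24 * π) = π ^ 3 / 24 := by field_simp
  rw [e] at h1
  simpa using h1

/-- Strict bounds for the eigenvalue. -/
lemma lam_mem {x l : ℝ} (hx : u x ≠ 0) (hl : Bop u x (u x) = l • u x) :
    l ∈ Ioo (-(1 / 2) : ℝ) (1 / 2) := by
  set v := u x with hv
  have hρ : 0 < ‖v‖ ^ 2 := by positivity
  have h1 := h.Bop_inner x v v
  rw [hl, real_inner_smul_left, real_inner_self_eq_norm_sq, h.Gam_inner] at h1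
  have hsq : ∀ y, ⟪u y, v⟫ * ⟪u y, v⟫ = ⟪u y, v⟫ ^ 2 := fun y => (pow_two _).symm
  simp only [hsq] at h1
  have hc : Continuous fun y => ⟪u y, v⟫ ^ 2 := (h.uc.inner continuous_const).pow 2
  have hxp : 0 < ⟪u x, v⟫ ^ 2 := by
    rw [← hv, real_inner_self_eq_norm_sq]
    positivity
  have hnb : ∀ᶠ y in 𝓝 x, 0 < ⟪u y, v⟫ ^ 2 := hc.continuousAt.eventually_const_lt hxp
  obtain ⟨δ, hδ, hball⟩ := Metric.eventually_nhds_iff.1 hnb
  have hI := h.int_sq v
  have hsupp : ∀ s : Set ℝ, (∀ y, x < y → y < x + δ → y ∈ s) ∨ (∀ y, x - δ < y → y < x → y ∈ s) →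
      0 < ∫ y in s, ⟪u y, v⟫ ^ 2 := by
    intro s hs
    rw [setIntegral_pos_iff_support_of_nonneg_ae
      (Eventually.of_forall fun y => sq_nonneg _) hI.integrableOn]
    rcases hs with hs | hs
    · refine lt_of_lt_of_le ?_ (measure_mono (s := Ioo x (x + δ)) fun y hy => ⟨?_, hs y hy.1 hy.2⟩)
      · rw [Real.volume_Ioo]; simp [hδ]
      · refine (hball ?_).ne'
        rw [Real.dist_eq, abs_of_pos (by linarith [hy.1])]
        linarith [hy.2]
    · refine lt_of_lt_of_le ?_ (measure_mono (s := Ioo (x - δ) x) fun y hy => ⟨?_, hs y hy.1 hy.2⟩)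
      · rw [Real.volume_Ioo]; simp [hδ]
      · refine (hball ?_).ne'
        rw [Real.dist_eq, abs_of_neg (by linarith [hy.2])]
        linarith [hy.1]
  have h2 : 0 < ∫ y in Iic x, ⟪u y, v⟫ ^ 2 := hsupp _ (Or.inr fun y _ hy => hy.le)
  have h3 : 0 < ∫ y in (Iic x)ᶜ, ⟪u y, v⟫ ^ 2 := hsupp _ (Or.inl fun y hy _ => by
    simpa using hy)
  have h4 := integral_add_compl (measurableSet_Iic (a := x)) hI
  have h5 := h.hbes v
  constructor
  · by_contra hcon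
    have : l ≤ -(1 / 2) := not_lt.1 hcon
    nlinarith
  · by_contra hcon
    have : 1 / 2 ≤ l := not_lt.1 hcon
    nlinarith

/-- The equality case, first part. -/
theorem vr_zero (heq : ∫ x, ‖g x‖ ^ 2 = π ^ 2 / 4 * ∫ x, (‖u x‖ ^ 2) ^ 3) (x : ℝ) :
    vr u x = 0 := by
  have h1 := h.stability
  have hpi := pi_pos
  have h2 : 0 ≤ ∫ x, vr u x := integral_nonneg h.vr_nonneg
  have h3 : ∫ x, vr u x = 0 := by
    have : 0 < π ^ 3 / 24 := by positivity
    nlinarith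
  have h4 := (integral_eq_zero_iff_of_nonneg h.vr_nonneg h.vr_int).1 h3
  have h5 : vr u = fun _ => 0 := h.vr_cont.ae_eq_iff_eq volume continuous_const |>.1 h4
  rw [h5]

/-- The equality case, second part. -/
theorem ode (heq : ∫ x, ‖g x‖ ^ 2 = π ^ 2 / 4 * ∫ x, (‖u x‖ ^ 2) ^ 3) :
    ∀ᵐ x, u x ≠ 0 →
      g x = (-(π / 2) * tan (π * (mo u 1 x / ‖u x‖ ^ 2)) * ‖u x‖ ^ 2) • u x := by
  have hpi := pi_pos
  have hpi3 := pi_gt_three
  set th : ℕ → ℝ := fun k => π - 1 / ((k : ℝ) + 1) with hth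
  set de : ℕ → ℝ := fun k => 1 / ((k : ℝ) + 1) with hde
  have hde0 : ∀ k, 0 < de k := fun k => by simp only [hde]; positivity
  have hde1 : ∀ k, de k ≤ 1 := fun k => by
    simp only [hde]
    rw [div_le_one (by positivity)]
    have : (0:ℝ) ≤ k := Nat.cast_nonneg k
    linarith
  have hth0 : ∀ k, 0 < th k := fun k => by
    have := hde1 k
    simp only [hth]
    simp only [hde] at this
    linarith
  have hth1 : ∀ k, th k < π := fun k => by
    have := hde0 k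
    simp only [hth]
    simp only [hde] at this
    linarith
  have hdelim : Tendsto de atTop (𝓝 0) := tendsto_one_div_add_atTop_nhds_zero_nat
  have hthlim : Tendsto th atTop (𝓝 π) := by
    have := hdelim.const_sub π
    rwa [sub_zero] at this
  choose V hV2 hVc hVx hVi using fun k => h.with_kernel (hth0 k) (hth1 k) (hde0 k)
  set I3 := ∫ x, (‖u x‖ ^ 2) ^ 3 with hI3
  have hI30 : 0 ≤ I3 := integral_nonneg fun x => by positivity
  have hvr0 : 0 ≤ ∫ x, vr u x := integral_nonneg h.vr_nonneg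
  have hb : ∀ k, ∫ x, ‖g x - V k x‖ ^ 2 ≤ (π ^ 2 / 4 - (th k ^ 2 / 4 - de k)) * I3 := by
    intro k
    have h1 := hVi k
    have h2 := mul_nonneg (h.c1_nonneg (hth0 k)) hvr0
    rw [heq] at h1
    linarith
  have hlimb : Tendsto (fun k => (π ^ 2 / 4 - (th k ^ 2 / 4 - de k)) * I3) atTop (𝓝 0) := by
    have h1 : Tendsto (fun k => (π ^ 2 / 4 - (th k ^ 2 / 4 - de k)) * I3) atTop
        (𝓝 ((π ^ 2 / 4 - (π ^ 2 / 4 - 0)) * I3)) :=
      ((((hthlim.pow 2).div_const 4).sub hdelim).const_sub _).mul_const _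
    simpa using h1
  have hgVi : ∀ k, Integrable (fun x => ‖g x - V k x‖ ^ 2) := fun k =>
    (h.hg2.sub (hV2 k)).integrable_norm_pow (by norm_num)
  have hlin : ∀ k, ∫⁻ x, ENNReal.ofReal (‖g x - V k x‖ ^ 2) =
      ENNReal.ofReal (∫ x, ‖g x - V k x‖ ^ 2) := fun k =>
    (ofReal_integral_eq_lintegral_ofReal (hgVi k) (Eventually.of_forall fun x => sq_nonneg _)).symm
  have hlim0' : Tendsto (fun k => ∫⁻ x, ENNReal.ofReal (‖g x - V k x‖ ^ 2)) atTop (𝓝 0) := by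
    simp only [hlin]
    have h1 := (ENNReal.continuous_ofReal.tendsto 0).comp
      (squeeze_zero (fun k => integral_nonneg fun x => sq_nonneg _) hb hlimb)
    simpa [Function.comp_def] using h1
  set G : ℝ → E := h.hg2.1.mk g with hG
  have hGm : StronglyMeasurable G := h.hg2.1.stronglyMeasurable_mk
  have hgG : g =ᵐ[volume] G := h.hg2.1.ae_eq_mk
  have hlim0 : Tendsto (fun k => ∫⁻ x, ENNReal.ofReal (‖G x - V k x‖ ^ 2)) atTop (𝓝 0) := by
    refine hlim0'.congr fun k => ?_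
    refine lintegral_congr_ae ?_
    filter_upwards [hgG] with x hx
    rw [hx]
  have hmeas : ∀ k, Measurable (fun x => ENNReal.ofReal (‖G x - V k x‖ ^ 2)) := fun k =>
    ((hGm.sub (hVc k).stronglyMeasurable).norm.measurable.pow_const 2).ennreal_ofReal
  have hfatou : ∫⁻ x, liminf (fun k => ENNReal.ofReal (‖G x - V k x‖ ^ 2)) atTop = 0 := by
    have h1 := lintegral_liminf_le (μ := volume) (u := atTop) hmeas
    rw [hlim0.liminf_eq] at h1
    exact le_antisymm h1 bot_le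
  have hae : ∀ᵐ x, liminf (fun k => ENNReal.ofReal (‖g x - V k x‖ ^ 2)) atTop = 0 := by
    have hm : Measurable (fun x => liminf (fun k => ENNReal.ofReal (‖G x - V k x‖ ^ 2)) atTop) :=
      Measurable.liminf hmeas
    have h1 := (lintegral_eq_zero_iff hm).1 hfatou
    filter_upwards [h1, hgG] with x hx hx2
    rw [hx2]
    exact hx
  filter_upwards [hae] with x hx hux
  set l := mo u 1 x / ‖u x‖ ^ 2 with hl
  have heig : Bop u x (u x) = l • u x := h.eig_of_vr (h.vr_zero heq x) hux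
  have hlm := h.lam_mem hux heig
  have hlm' : l ∈ Icc (-(1 / 2) : ℝ) (1 / 2) := ⟨hlm.1.le, hlm.2.le⟩
  choose z hz1 hz2 using fun k => hVx k x l hux heig hlm'
  have hcos : cos (π * l) ≠ 0 := by
    refine (cos_pos_of_mem_Ioo ⟨?_, ?_⟩).ne'
    · nlinarith [hlm.1]
    · nlinarith [hlm.2]
  have htan : Tendsto (fun k => tan (th k * l)) atTop (𝓝 (tan (π * l))) :=
    (continuousAt_tan.2 hcos).tendsto.comp (hthlim.mul_const l)
  have hzlim : Tendsto z atTop (𝓝 (-tan (π * l))) := by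
    have h1 : Tendsto (fun k => z k + tan (th k * l)) atTop (𝓝 0) :=
      squeeze_zero_norm (fun k => by rw [Real.norm_eq_abs]; exact hz1 k) hdelim
    have h2 := h1.sub htan
    rw [zero_sub] at h2
    refine h2.congr fun k => ?_
    ring
  have hVlim : Tendsto (fun k => V k x) atTop
      (𝓝 ((π / 2 * (-tan (π * l)) * ‖u x‖ ^ 2) • u x)) := by
    have h1 := (((hthlim.div_const 2).mul hzlim).mul_const (‖u x‖ ^ 2)).smul_const (u x)
    refine h1.congr fun k => ?_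
    rw [hz2 k]
  have hlimx : Tendsto (fun k => ENNReal.ofReal (‖g x - V k x‖ ^ 2)) atTop
      (𝓝 (ENNReal.ofReal (‖g x - (π / 2 * (-tan (π * l)) * ‖u x‖ ^ 2) • u x‖ ^ 2))) :=
    (ENNReal.continuous_ofReal.tendsto _).comp (((hVlim.const_sub (g x)).norm).pow 2)
  rw [hlimx.liminf_eq] at hx
  rw [ENNReal.ofReal_eq_zero] at hx
  have h7 : ‖g x - (π / 2 * (-tan (π * l)) * ‖u x‖ ^ 2) • u x‖ = 0 := by
    have h8 : ‖g x - (π / 2 * (-tan (π * l)) * ‖u x‖ ^ 2) • u x‖ ^ 2 = 0 :=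
      le_antisymm hx (sq_nonneg _)
    exact pow_eq_zero_iff two_ne_zero |>.1 h8
  have h9 := sub_eq_zero.1 (norm_eq_zero.1 h7)
  rw [h9]
  congr 1
  ring

end SysH

end Pool.Agent.TH199.LT
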