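import Pool.Agent.Helper490.CalibMain
import Pool.Agent.TH199.LT.Alg
import Pool.Agent.TH199.LT.Ker
import Pool.Agent.TH199.LT.AC

set_option autoImplicit false
set_option linter.unusedSectionVars false
set_option linter.deprecated false

open MeasureTheory Set Filter Topology Real
open scoped RealInnerProductSpace
open Pool.Helper490.Calib

namespace Pool.Agent.TH199.LT

variable {E : Type*} [NormedAddCommGroup E] [InnerProductSpace ℝ E] [FiniteDimensional ℝ E]

/-- A vector valued function of the Sobolev space whose Gram operator is at most the identity. -/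
structure SysH (u g : ℝ → E) : Prop where
  hug : ∀ a b, u b - u a = ∫ x in a..b, g x
  hu2 : MemLp u 2
  hg2 : MemLp g 2
  hbes : ∀ v : E, ∫ x, ⟪u x, v⟫ ^ 2 ≤ ‖v‖ ^ 2

/-- The moments with a vector. -/
noncomputable def muv (u : ℝ → E) (x : ℝ) (w : E) (a : ℕ) : ℝ := ⟪w, (Bop u x ^ a) (u x)⟫

namespace SysH

variable {u g : ℝ → E} (h : SysH u g)
include h

lemma gi (a b : ℝ) : IntervalIntegrable g volume a b := by
  have h1 : LocallyIntegrable g volume := h.hg2.locallyIntegrable (by norm_num)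
  exact intervalIntegrable_iff.2 ((h1.integrableOn_isCompact isCompact_uIcc).mono_set
    uIoc_subset_uIcc)

lemma uc : Continuous u := by
  have : u = fun x => u 0 + ∫ t in (0:ℝ)..x, g t := by
    funext x; rw [← h.hug 0 x]; abel
  rw [this]
  exact continuous_const.add (intervalIntegral.continuous_primitive h.gi 0)

lemma hui : Integrable (fun x => ‖u x‖ ^ 2) := h.hu2.integrable_norm_pow (by norm_num)

lemma hgi : Integrable (fun x => ‖g x‖ ^ 2) := h.hg2.integrable_norm_pow (by norm_num)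

lemma ud : ∀ᵐ x, HasDerivAt u (g x) x := by
  have h1 : LocallyIntegrable g volume := h.hg2.locallyIntegrable (by norm_num)
  filter_upwards [_root_.LocallyIntegrable.ae_hasDerivAt_integral h1] with x hx
  have h2 := (hx 0).const_add (u 0)
  have e : (fun x => u 0 + ∫ t in (0:ℝ)..x, g t) = u := by
    funext y
    rw [← h.hug 0 y]
    abel
  rwa [e] at h2

lemma Rc : Continuous (R u) := by
  have h1 : Continuous fun x => innerSL ℝ (u x) := (innerSL ℝ).continuous.comp h.uc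
  have h2 := (ContinuousLinearMap.smulRightL ℝ E E).continuous.comp h1
  exact h2.clm_apply h.uc

lemma Ri : Integrable (R u) := by
  refine h.hui.mono h.Rc.aestronglyMeasurable (Eventually.of_forall fun x => ?_)
  rw [R_norm, Real.norm_eq_abs, abs_of_nonneg (sq_nonneg _)]

lemma Gam_deriv (x : ℝ) : HasDerivAt (Gam u) (R u x) x := by
  have hform : Gam u = fun x => Gam u 0 + ∫ t in (0:ℝ)..x, R u t := by
    funext x
    have := intervalIntegral.integral_Iic_sub_Iic (f := R u) (a := 0) (b := x) (μ := volume)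
      h.Ri.integrableOn h.Ri.integrableOn
    simp only [Gam]
    rw [← this]
    abel
  rw [hform]
  exact (intervalIntegral.integral_hasDerivAt_right h.Ri.intervalIntegrable
    (h.Ri.aestronglyMeasurable.stronglyMeasurableAtFilter) h.Rc.continuousAt).const_add _

lemma Bop_deriv (x : ℝ) : HasDerivAt (Bop u) (R u x) x := (h.Gam_deriv x).sub_const _

lemma Bop_cont : Continuous (Bop u) :=
  continuous_iff_continuousAt.2 fun x => (h.Bop_deriv x).continuousAt

lemma Gam_inner (x : ℝ) (v w : E) :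
    ⟪Gam u x v, w⟫ = ∫ y in Iic x, ⟪u y, v⟫ * ⟪u y, w⟫ := by
  have h1 : Gam u x v = ∫ y in Iic x, R u y v :=
    ContinuousLinearMap.integral_apply h.Ri.integrableOn v
  have h2 : IntegrableOn (fun y => R u y v) (Iic x) := by
    have := h.Ri.integrableOn (s := Iic x)
    exact this.apply_continuousLinearMap v
  rw [h1, real_inner_comm, ← integral_inner h2 w]
  refine integral_congr_ae (Eventually.of_forall fun y => ?_)
  simp only [Pool.Helper490.Calib.R_apply, real_inner_smul_right]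
  rw [real_inner_comm w (u y)]

lemma int_sq (v : E) : Integrable (fun y => ⟪u y, v⟫ ^ 2) := by
  have hc : Continuous fun y => ⟪u y, v⟫ ^ 2 := (h.uc.inner continuous_const).pow 2
  refine (h.hui.mul_const (‖v‖ ^ 2)).mono' hc.aestronglyMeasurable
    (Eventually.of_forall fun y => ?_)
  rw [Real.norm_eq_abs, abs_of_nonneg (sq_nonneg _), ← mul_pow, ← sq_abs]
  exact pow_le_pow_left₀ (abs_nonneg _) (abs_real_inner_le_norm _ _) 2

lemma Gam_nonneg (x : ℝ) (v : E) : 0 ≤ ⟪Gam u x v, v⟫ := by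
  rw [h.Gam_inner]
  exact setIntegral_nonneg measurableSet_Iic fun y _ => mul_self_nonneg _

lemma Gam_le (x : ℝ) (v : E) : ⟪Gam u x v, v⟫ ≤ ‖v‖ ^ 2 := by
  rw [h.Gam_inner]
  refine le_trans ?_ (h.hbes v)
  have : ∀ y, ⟪u y, v⟫ * ⟪u y, v⟫ = ⟪u y, v⟫ ^ 2 := fun y => (pow_two _).symm
  simp only [this]
  exact setIntegral_le_integral (h.int_sq v) (Eventually.of_forall fun y => sq_nonneg _)

lemma Bop_inner (x : ℝ) (v w : E) : ⟪Bop u x v, w⟫ = ⟪Gam u x v, w⟫ - 1 / 2 * ⟪v, w⟫ := by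
  simp only [Bop, ContinuousLinearMap.sub_apply, ContinuousLinearMap.smul_apply,
    ContinuousLinearMap.one_apply, inner_sub_left, real_inner_smul_left]

lemma Bop_symm (x : ℝ) (v w : E) : ⟪Bop u x v, w⟫ = ⟪v, Bop u x w⟫ := by
  rw [real_inner_comm (Bop u x w) v, h.Bop_inner, h.Bop_inner, h.Gam_inner, h.Gam_inner,
    real_inner_comm w v]
  congr 2
  funext y
  ring

lemma Bop_pow_symm (x : ℝ) (a : ℕ) (v w : E) :
    ⟪(Bop u x ^ a) v, w⟫ = ⟪v, (Bop u x ^ a) w⟫ := by
  induction a generalizing v w with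
  | zero => simp
  | succ a ih =>
    rw [pow_succ, ContinuousLinearMap.mul_apply, ih, h.Bop_symm, ← ContinuousLinearMap.mul_apply,
      ← pow_succ', pow_succ]

lemma Bop_pow_deriv (x : ℝ) (a : ℕ) : HasDerivAt (fun x => Bop u x ^ a)
    (∑ l ∈ Finset.range a, Bop u x ^ l * R u x * Bop u x ^ (a - 1 - l)) x := by
  induction a with
  | zero => simpa using hasDerivAt_const x (1 : E →L[ℝ] E)
  | succ a ih =>
    have h1 := ih.mul (h.Bop_deriv x)
    have h2 : (fun x => Bop u x ^ (a + 1)) = fun x => Bop u x ^ a * Bop u x := by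
      funext x; rw [pow_succ]
    rw [h2]
    refine h1.congr_deriv ?_
    rw [Finset.sum_range_succ, Finset.sum_mul, Nat.add_sub_cancel, Nat.sub_self, pow_zero, mul_one]
    congr 1
    refine Finset.sum_congr rfl fun l hl => ?_
    have hl' : l < a := Finset.mem_range.1 hl
    rw [mul_assoc, ← pow_succ]
    congr 2
    omega

lemma mo_deriv (x : ℝ) (hx : HasDerivAt u (g x) x) (a : ℕ) : HasDerivAt (mo u a)
    (2 * muv u x (g x) a + ∑ l ∈ Finset.range a, mo u l x * mo u (a - 1 - l) x) x := by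
  have h1 := (h.Bop_pow_deriv x a).clm_apply hx
  have h2 := hx.inner ℝ h1
  refine h2.congr_deriv ?_
  rw [inner_add_right, ContinuousLinearMap.sum_apply, inner_sum, ← h.Bop_pow_symm x a,
    real_inner_comm (g x)]
  have h3 : ∀ l ∈ Finset.range a, ⟪u x, (Bop u x ^ l * R u x * Bop u x ^ (a - 1 - l)) (u x)⟫ =
      mo u l x * mo u (a - 1 - l) x := by
    intro l _
    rw [ContinuousLinearMap.mul_apply, ContinuousLinearMap.mul_apply, Pool.Helper490.Calib.R_apply, map_smul,
      real_inner_smul_right]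
    simp only [mo]
    ring
  rw [Finset.sum_congr rfl h3]
  simp only [muv]
  ring

lemma Bpow_cont (a : ℕ) : Continuous fun x => Bop u x ^ a := h.Bop_cont.pow a

lemma mo_cont (a : ℕ) : Continuous (mo u a) :=
  h.uc.inner ((h.Bpow_cont a).clm_apply h.uc)

lemma inner_lac (v : E) : LAC fun x => ⟪u x, v⟫ := by
  refine LAC.of_integral (f' := fun x => ⟪g x, v⟫) (fun a b => ?_) fun a b => ?_
  · have h1 := h.gi a b
    exact ⟨h1.1.inner_const v, h1.2.inner_const v⟩
  · rw [← inner_sub_left, h.hug a b]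
    have := (innerSL ℝ v).intervalIntegral_comp_comm (h.gi a b)
    simp only [innerSL_apply_apply] at this
    rw [real_inner_comm, ← this]
    refine intervalIntegral.integral_congr fun s _ => ?_
    exact real_inner_comm _ _

lemma mo_lac (a : ℕ) : LAC (mo u a) := by
  set b := stdOrthonormalBasis ℝ E with hb
  have hexp : mo u a = fun x => ∑ i, ∑ j, (⟪u x, b i⟫ * ⟪u x, b j⟫) *
      ⟪b i, (Bop u x ^ a) (b j)⟫ := by
    funext x
    have h1 : u x = ∑ j, ⟪b j, u x⟫ • b j := (b.sum_repr' (u x)).symm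
    have h2 : (Bop u x ^ a) (u x) = ∑ j, ⟪b j, u x⟫ • (Bop u x ^ a) (b j) := by
      conv_lhs => rw [h1]
      rw [map_sum]
      simp only [map_smul]
    rw [mo, h2, inner_sum, Finset.sum_comm]
    refine Finset.sum_congr rfl fun j _ => ?_
    rw [real_inner_smul_right]
    have h3 : ⟪u x, (Bop u x ^ a) (b j)⟫ = ∑ i, ⟪b i, u x⟫ * ⟪b i, (Bop u x ^ a) (b j)⟫ := by
      conv_lhs => rw [h1]
      rw [sum_inner]
      refine Finset.sum_congr rfl fun i _ => ?_
      rw [real_inner_smul_left]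
    rw [h3, Finset.mul_sum]
    refine Finset.sum_congr rfl fun i _ => ?_
    rw [real_inner_comm (u x) (b i), real_inner_comm (u x) (b j)]
    ring
  rw [hexp]
  refine LAC.sum _ fun i _ => LAC.sum _ fun j _ => ?_
  refine LAC.mul (LAC.mul (h.inner_lac _) (h.inner_lac _)) ?_
  refine LAC.of_deriv (f' := fun x => ⟪b i, (∑ l ∈ Finset.range a,
    Bop u x ^ l * R u x * Bop u x ^ (a - 1 - l)) (b j)⟫) (fun x => ?_) ?_
  · have h1 := (h.Bop_pow_deriv x a).clm_apply (hasDerivAt_const x (b j))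
    have h2 := (hasDerivAt_const x (b i)).inner ℝ h1
    refine h2.congr_deriv ?_
    simp
  · refine continuous_const.inner ?_
    refine Continuous.clm_apply ?_ continuous_const
    refine continuous_finset_sum _ fun l _ => ?_
    exact ((h.Bpow_cont l).mul h.Rc).mul (h.Bpow_cont _)

/-- Coordinates in an eigenbasis. -/
lemma coords (x : ℝ) : ∃ (n : ℕ) (b : OrthonormalBasis (Fin n) ℝ E) (e : Fin n → ℝ),
    (∀ i, e i ∈ Icc (-(1 / 2) : ℝ) (1 / 2)) ∧ (∀ i, Bop u x (b i) = e i • b i) ∧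
    (∀ i a, ⟪b i, (Bop u x ^ a) (u x)⟫ = e i ^ a * ⟪b i, u x⟫) := by
  have hT : ((Bop u x : E →L[ℝ] E) : E →ₗ[ℝ] E).IsSymmetric := fun v w => h.Bop_symm x v w
  set n := Module.finrank ℝ E with hn
  set b := hT.eigenvectorBasis hn.symm with hb
  set e := hT.eigenvalues hn.symm with he
  have hbe : ∀ i, Bop u x (b i) = e i • b i := fun i => hT.apply_eigenvectorBasis hn.symm i
  have hpow : ∀ i a, (Bop u x ^ a) (b i) = e i ^ a • b i := by
    intro i a
    induction a with
    | zero => simp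
    | succ a ih =>
      rw [pow_succ, ContinuousLinearMap.mul_apply, hbe, map_smul, ih, smul_smul, pow_succ, mul_comm]
  refine ⟨n, b, e, ?_, hbe, ?_⟩
  · intro i
    have hb1 : ‖b i‖ = 1 := b.orthonormal.1 i
    have h1 := h.Gam_nonneg x (b i)
    have h2 := h.Gam_le x (b i)
    have h3 := h.Bop_inner x (b i) (b i)
    rw [hbe, real_inner_smul_left, real_inner_self_eq_norm_sq, hb1] at h3
    rw [hb1] at h2
    constructor <;> nlinarith
  · intro i a
    rw [← h.Bop_pow_symm, hpow, real_inner_smul_left]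

omit h in
lemma exp_inner {n : ℕ} (b : OrthonormalBasis (Fin n) ℝ E) (v w : E) :
    ⟪v, w⟫ = ∑ i, ⟪b i, v⟫ * ⟪b i, w⟫ := by
  rw [← b.sum_inner_mul_inner v w]
  refine Finset.sum_congr rfl fun i _ => ?_
  rw [real_inner_comm v (b i)]

lemma mo_bound (x : ℝ) (a : ℕ) : |mo u a x| ≤ ‖u x‖ ^ 2 := by
  obtain ⟨n, b, e, he, -, hc⟩ := h.coords x
  rw [mo, exp_inner b, ← real_inner_self_eq_norm_sq, exp_inner b (u x) (u x)]
  refine (Finset.abs_sum_le_sum_abs _ _).trans (Finset.sum_le_sum fun i _ => ?_)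
  have h1 : |e i| ≤ 1 := abs_le.2 ⟨by linarith [(he i).1], by linarith [(he i).2]⟩
  have h2 : |e i| ^ a ≤ 1 := pow_le_one₀ (abs_nonneg _) h1
  rw [hc, abs_mul, abs_mul, abs_pow]
  have h3 : ⟪b i, u x⟫ * ⟪b i, u x⟫ = |⟪b i, u x⟫| * |⟪b i, u x⟫| := (abs_mul_abs_self _).symm
  rw [h3]
  have h4 : 0 ≤ |⟪b i, u x⟫| * |⟪b i, u x⟫| := by positivity
  calc |⟪b i, u x⟫| * (|e i| ^ a * |⟪b i, u x⟫|) = |e i| ^ a * (|⟪b i, u x⟫| * |⟪b i, u x⟫|) := by
        ring
    _ ≤ 1 * (|⟪b i, u x⟫| * |⟪b i, u x⟫|) := mul_le_mul_of_nonneg_right h2 h4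
    _ = _ := one_mul _

lemma Bpow_norm (x : ℝ) (a : ℕ) : ‖(Bop u x ^ a) (u x)‖ ^ 2 ≤ ‖u x‖ ^ 2 := by
  obtain ⟨n, b, e, he, -, hc⟩ := h.coords x
  rw [← real_inner_self_eq_norm_sq, ← real_inner_self_eq_norm_sq (u x),
    exp_inner b, exp_inner b (u x) (u x)]
  refine Finset.sum_le_sum fun i _ => ?_
  have h1 : |e i| ≤ 1 := abs_le.2 ⟨by linarith [(he i).1], by linarith [(he i).2]⟩
  have h2 : |e i| ^ a ≤ 1 := pow_le_one₀ (abs_nonneg _) h1
  rw [hc]
  have h5 : (e i ^ a) ^ 2 ≤ 1 := by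
    rw [← abs_pow] at h2
    exact (sq_le_one_iff_abs_le_one _).2 h2
  nlinarith [sq_nonneg ⟪b i, u x⟫]

lemma muv_bound (x : ℝ) (w : E) (a : ℕ) : |2 * muv u x w a| ≤ ‖u x‖ ^ 2 + ‖w‖ ^ 2 := by
  rw [abs_mul, abs_two, muv]
  have h1 := abs_real_inner_le_norm w ((Bop u x ^ a) (u x))
  have h2 := h.Bpow_norm x a
  nlinarith [sq_nonneg (‖w‖ - ‖(Bop u x ^ a) (u x)‖)]

lemma mo_zero : mo u 0 = fun x => ‖u x‖ ^ 2 := by
  funext x
  simp [mo]

lemma rho_lac : LAC fun x => ‖u x‖ ^ 2 := by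
  rw [← h.mo_zero]
  exact h.mo_lac 0

lemma rho_deriv : ∀ᵐ x, HasDerivAt (fun x => ‖u x‖ ^ 2) (2 * ⟪u x, g x⟫) x := by
  filter_upwards [h.ud] with x hx
  exact hx.norm_sq

lemma gm : AEStronglyMeasurable g volume := h.hg2.1

lemma rho'_int : Integrable (fun x => 2 * ⟪u x, g x⟫) := by
  have hc : AEStronglyMeasurable (fun x => 2 * ⟪u x, g x⟫) volume :=
    (h.uc.aestronglyMeasurable.inner h.gm).const_mul 2
  refine (h.hui.add h.hgi).mono' hc (Eventually.of_forall fun x => ?_)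
  rw [Real.norm_eq_abs, abs_mul, abs_two]
  have h1 := abs_real_inner_le_norm (u x) (g x)
  simp only [Pi.add_apply]
  nlinarith [sq_nonneg (‖u x‖ - ‖g x‖)]

lemma rho_ftc (a b : ℝ) : ∫ x in a..b, 2 * ⟪u x, g x⟫ = ‖u b‖ ^ 2 - ‖u a‖ ^ 2 :=
  h.rho_lac.ftc h.rho_deriv a b

end SysH

end Pool.Agent.TH199.LT
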